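import Pool.Agent.H691R3.Rep

set_option autoImplicit false
set_option linter.unusedSectionVars false

/-!
Arrangements, part A: the norm inequality and the number of classes at one place.
-/

namespace Pool.Agent.W232.VA

open NumberField IsDedekindDomain Finset Pool.Agent.H691R3

variable {K : Type*} [Field K] [NumberField K]

lemma norm_ineq {z : 𝓞 K} (hz : z ≠ 0) (T : Finset (HeightOneSpectrum (𝓞 K)))
    (m : HeightOneSpectrum (𝓞 K) → ℕ) (h : ∀ v ∈ T, z ∈ v.asIdeal ^ m v) :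
    ∑ v ∈ T, (m v : ℝ) * Real.log (Nv v) ≤
      ∑ w : InfinitePlace K, (w.mult : ℝ) * Real.log (w (z : K)) := by
  classical
  have hz' : (z : K) ≠ 0 := RingOfIntegers.coe_ne_zero_iff.mpr hz
  have h1 := log_product_formula (K := K) hz'
  set S := (log_fv_support_finite hz').toFinset with hS
  have h2 : ∑ᶠ v : HeightOneSpectrum (𝓞 K), Real.log (fv v (z : K)) =
      ∑ v ∈ S ∪ T, Real.log (fv v (z : K)) := by
    refine finsum_eq_sum_of_support_subset _ ?_
    intro v hv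
    rw [coe_union, Set.mem_union]
    left
    rw [hS, Set.Finite.coe_toFinset]
    exact hv
  have h3 : ∑ v ∈ S ∪ T, Real.log (fv v (z : K)) ≤ ∑ v ∈ T, Real.log (fv v (z : K)) := by
    rw [← Finset.sum_sdiff (subset_union_right : T ⊆ S ∪ T)]
    have : ∑ v ∈ (S ∪ T) \ T, Real.log (fv v (z : K)) ≤ 0 :=
      Finset.sum_nonpos fun v _ => Real.log_nonpos ((fv v).nonneg _) (fv_int_le_one v z)
    linarith
  have h4 : ∑ v ∈ T, Real.log (fv v (z : K)) ≤ - ∑ v ∈ T, (m v : ℝ) * Real.log (Nv v) := by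
    rw [← Finset.sum_neg_distrib]
    refine Finset.sum_le_sum fun v hv => ?_
    have h5 := (fv_le_pow_iff v z (m v)).mpr (h v hv)
    have h6 := Real.log_le_log ((fv v).pos hz') h5
    rw [Real.log_zpow] at h6
    push_cast at h6
    linarith
  linarith

lemma class_fin (v : HeightOneSpectrum (𝓞 K)) {m e : ℕ} (hem : e ≤ m) (F : Finset (𝓞 K))
    (hF : ∀ x ∈ F, x ∈ v.asIdeal ^ e) [DecidableEq (𝓞 K ⧸ v.asIdeal ^ m)] :
    ((F.image (fun x => Ideal.Quotient.mk (v.asIdeal ^ m) x)).card : ℝ) ≤ Nv v ^ (m - e) := by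
  classical
  have hbot : ∀ k : ℕ, v.asIdeal ^ k ≠ ⊥ := fun k => by
    rw [← Ideal.zero_eq_bot]
    exact pow_ne_zero _ (by rw [Ideal.zero_eq_bot]; exact v.ne_bot)
  have hfin : Finite (𝓞 K ⧸ v.asIdeal ^ m) := Ideal.finiteQuotientOfFreeOfNeBot _ (hbot m)
  have hcard := Submodule.card_quotient_mul_card_quotient (v.asIdeal ^ e) (v.asIdeal ^ m)
    (Ideal.pow_le_pow_right hem)
  have he : Nat.card (𝓞 K ⧸ v.asIdeal ^ e) = Ideal.absNorm v.asIdeal ^ e := by
    rw [← map_pow]; rfl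
  have hm : Nat.card (𝓞 K ⧸ v.asIdeal ^ m) = Ideal.absNorm v.asIdeal ^ m := by
    rw [← map_pow]; rfl
  rw [he, hm] at hcard
  have hN : 2 ≤ Nv v := two_le_Nv v
  have h1 : (Nat.card (Submodule.map (v.asIdeal ^ m).mkQ (v.asIdeal ^ e)) : ℝ) = Nv v ^ (m - e) := by
    have h2 : (Nat.card (Submodule.map (v.asIdeal ^ m).mkQ (v.asIdeal ^ e)) : ℝ) * Nv v ^ e =
        Nv v ^ m := by
      unfold Nv
      exact_mod_cast hcard
    have h3 : Nv v ^ m = Nv v ^ (m - e) * Nv v ^ e := by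
      rw [← pow_add]; congr 1; omega
    rw [h3] at h2
    exact mul_right_cancel₀ (pow_ne_zero _ (by linarith)) h2
  rw [← h1]
  have hft : Fintype (Submodule.map (v.asIdeal ^ m).mkQ (v.asIdeal ^ e)) := Fintype.ofFinite _
  rw [Nat.card_eq_fintype_card, ← Finset.card_univ]
  have : (F.image (fun x => Ideal.Quotient.mk (v.asIdeal ^ m) x)) ⊆
      (Finset.univ : Finset (Submodule.map (v.asIdeal ^ m).mkQ (v.asIdeal ^ e))).image
        Subtype.val := by
    intro y hy
    obtain ⟨x, hx, rfl⟩ := Finset.mem_image.mp hy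
    exact Finset.mem_image.mpr ⟨⟨(v.asIdeal ^ m).mkQ x, ⟨x, hF x hx, rfl⟩⟩, Finset.mem_univ _, rfl⟩
  exact_mod_cast (Finset.card_le_card this).trans Finset.card_image_le

/-- cells at an archimedean place -/
noncomputable def cell (w : InfinitePlace K) (s : ℝ) (x : K) : ℤ × ℤ :=
  (⌊(w.embedding x).re / s⌋, ⌊(w.embedding x).im / s⌋)

lemma floor_close {a b : ℝ} (h : ⌊a⌋ = ⌊b⌋) : |a - b| ≤ 1 := by
  have h1 := Int.floor_le a
  have h2 := Int.lt_floor_add_one a
  have h3 := Int.floor_le b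
  have h4 := Int.lt_floor_add_one b
  rw [h] at h1 h2
  rw [abs_le]
  constructor <;> linarith

lemma cell_close (w : InfinitePlace K) {s : ℝ} (hs : 0 < s) {x y : K} (h : cell w s x = cell w s y) :
    w (x - y) ≤ 2 * s := by
  unfold cell at h
  rw [Prod.mk.injEq] at h
  have h1 := floor_close h.1
  have h2 := floor_close h.2
  rw [← sub_div, abs_div, abs_of_pos hs, div_le_one hs] at h1 h2
  rw [← InfinitePlace.norm_embedding_eq, map_sub]
  refine (Complex.norm_le_abs_re_add_abs_im _).trans ?_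
  rw [Complex.sub_re, Complex.sub_im]
  linarith

lemma floor_count {ρ s : ℝ} (hρ : 0 ≤ ρ) (hs : 0 < s) (F : Finset ℤ) (hF : ∀ k ∈ F, ∃ u : ℝ, |u| ≤ ρ ∧ k = ⌊u / s⌋) :
    (F.card : ℝ) ≤ 2 * ρ / s + 2 := by
  rcases F.eq_empty_or_nonempty with rfl | ⟨k0, hk0⟩
  · simp only [card_empty, Nat.cast_zero]; positivity
  · have hsub : F ⊆ Finset.Icc ⌊-ρ / s⌋ ⌊ρ / s⌋ := by
      intro k hk
      obtain ⟨u, hu, rfl⟩ := hF k hk
      rw [abs_le] at hu
      rw [Finset.mem_Icc]
      exact ⟨Int.floor_le_floor (by gcongr; exact hu.1), Int.floor_le_floor (by gcongr; exact hu.2)⟩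
    have h1 := Finset.card_le_card hsub
    rw [Int.card_Icc] at h1
    have h2 : ((⌊ρ / s⌋ + 1 - ⌊-ρ / s⌋).toNat : ℝ) ≤ 2 * ρ / s + 2 := by
      have h3 : (0 : ℤ) ≤ ⌊ρ / s⌋ + 1 - ⌊-ρ / s⌋ := by
        have : ⌊-ρ / s⌋ ≤ ⌊ρ / s⌋ := Int.floor_le_floor (by gcongr; linarith)
        omega
      have h4 : ((⌊ρ / s⌋ + 1 - ⌊-ρ / s⌋).toNat : ℝ) = (⌊ρ / s⌋ : ℝ) + 1 - ⌊-ρ / s⌋ := by
        have : (((⌊ρ / s⌋ + 1 - ⌊-ρ / s⌋).toNat : ℤ) : ℝ) = ((⌊ρ / s⌋ + 1 - ⌊-ρ / s⌋ : ℤ) : ℝ) := by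
          rw [Int.toNat_of_nonneg h3]
        push_cast at this
        exact this
      rw [h4]
      have h5 := Int.floor_le (ρ / s)
      have h6 := Int.lt_floor_add_one (-ρ / s)
      have h7 : 2 * ρ / s = ρ / s - -ρ / s := by ring
      rw [h7]
      linarith
    exact le_trans (by exact_mod_cast h1) h2

lemma cell_card (w : InfinitePlace K) {ρ s : ℝ} (hρ : 0 ≤ ρ) (hs : 0 < s) (F : Finset K)
    (hF : ∀ x ∈ F, w x ≤ ρ) : ((F.image (cell w s)).card : ℝ) ≤ (2 * ρ / s + 2) ^ w.mult := by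
  classical
  have hre : ∀ x ∈ F, |(w.embedding x).re| ≤ ρ := fun x hx => by
    refine (Complex.abs_re_le_norm _).trans ?_
    rw [InfinitePlace.norm_embedding_eq]; exact hF x hx
  have him : ∀ x ∈ F, |(w.embedding x).im| ≤ ρ := fun x hx => by
    refine (Complex.abs_im_le_norm _).trans ?_
    rw [InfinitePlace.norm_embedding_eq]; exact hF x hx
  set G1 := F.image (fun x => ⌊(w.embedding x).re / s⌋) with hG1
  set G2 := F.image (fun x => ⌊(w.embedding x).im / s⌋) with hG2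
  have c1 : (G1.card : ℝ) ≤ 2 * ρ / s + 2 := by
    refine floor_count hρ hs _ fun k hk => ?_
    obtain ⟨x, hx, rfl⟩ := Finset.mem_image.mp hk
    exact ⟨_, hre x hx, rfl⟩
  have c2 : (G2.card : ℝ) ≤ 2 * ρ / s + 2 := by
    refine floor_count hρ hs _ fun k hk => ?_
    obtain ⟨x, hx, rfl⟩ := Finset.mem_image.mp hk
    exact ⟨_, him x hx, rfl⟩
  have hpos : 0 ≤ 2 * ρ / s + 2 := by positivity
  rcases InfinitePlace.isReal_or_isComplex w with hw | hw
  · have hm : w.mult = 1 := by rw [InfinitePlace.mult, if_pos hw]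
    rw [hm, pow_one]
    refine le_trans ?_ c1
    have hsub : F.image (cell w s) ⊆ G1.image (fun k => (k, (0 : ℤ))) := by
      intro y hy
      obtain ⟨x, hx, rfl⟩ := Finset.mem_image.mp hy
      refine Finset.mem_image.mpr ⟨⌊(w.embedding x).re / s⌋, Finset.mem_image_of_mem _ hx, ?_⟩
      unfold cell
      have h0 : (w.embedding x).im = 0 := by
        have := InfinitePlace.isReal_iff.mp hw
        have h2 := DFunLike.congr_fun (ComplexEmbedding.isReal_iff.mp this) x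
        rw [ComplexEmbedding.conjugate_coe_eq] at h2
        exact Complex.conj_eq_iff_im.mp h2
      rw [h0]
      simp
    exact_mod_cast (Finset.card_le_card hsub).trans Finset.card_image_le
  · have hm : w.mult = 2 := by
      rw [InfinitePlace.mult, if_neg (InfinitePlace.not_isReal_iff_isComplex.mpr hw)]
    rw [hm]
    have hsub : F.image (cell w s) ⊆ G1 ×ˢ G2 := by
      intro y hy
      obtain ⟨x, hx, rfl⟩ := Finset.mem_image.mp hy
      exact Finset.mem_product.mpr ⟨Finset.mem_image_of_mem _ hx, Finset.mem_image_of_mem _ hx⟩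
    have h1 := Finset.card_le_card hsub
    rw [Finset.card_product] at h1
    have h2 : ((F.image (cell w s)).card : ℝ) ≤ (G1.card : ℝ) * G2.card := by exact_mod_cast h1
    refine h2.trans ?_
    rw [sq]
    exact mul_le_mul c1 c2 (Nat.cast_nonneg _) hpos

end Pool.Agent.W232.VA
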