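import Pool.Agent.W232.VA.A

set_option autoImplicit false
set_option linter.unusedSectionVars false

/-!
Arrangements, part B: the number of integral vectors in a box with conditions at finitely many places.
-/

namespace Pool.Agent.W232.VA

open NumberField IsDedekindDomain Finset Pool.Agent.H691R3

lemma card_le_prod {X Q : Type*} [Fintype Q] {δ : Q → Type*} [∀ q, DecidableEq (δ q)] (A : Finset X)
    (Φ : ∀ q, X → δ q) (inj : ∀ x ∈ A, ∀ y ∈ A, (∀ q, Φ q x = Φ q y) → x = y) :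
    A.card ≤ ∏ q, (A.image (Φ q)).card := by
  classical
  rw [← Fintype.card_piFinset]
  refine Finset.card_le_card_of_injOn (fun x q => Φ q x) ?_ ?_
  · intro x hx
    rw [Finset.mem_coe, Fintype.mem_piFinset]
    exact fun q => Finset.mem_image_of_mem _ hx
  · intro x hx y hy hxy
    exact inj x hx y hy fun q => congrFun hxy q

variable {K : Type*} [Field K] [NumberField K] {n : ℕ} {ι : Type*}

/-- value of an integral linear form at an integral vector -/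
def linZ (a x : Fin (n + 1) → 𝓞 K) : 𝓞 K := ∑ j, a j * x j

lemma linZ_sub (a x y : Fin (n + 1) → 𝓞 K) : linZ a (x - y) = linZ a x - linZ a y := by
  unfold linZ
  rw [← Finset.sum_sub_distrib]
  exact Finset.sum_congr rfl fun j _ => by rw [Pi.sub_apply]; ring

/-- `J` is a basis of the space of linear forms, with inverse coefficients `c` -/
def IsInv (α : ι → Fin (n + 1) → 𝓞 K) (J : Finset ι) (c : Fin (n + 1) → ι → K) : Prop :=
  ∀ z : Fin (n + 1) → 𝓞 K, ∀ j, ((z j : 𝓞 K) : K) = ∑ i ∈ J, c j i * ((linZ (α i) z : 𝓞 K) : K)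

lemma fv_sum_le (v : HeightOneSpectrum (𝓞 K)) (J : Finset ι) (f : ι → K) {t : ℝ} (ht : 0 ≤ t)
    (h : ∀ i ∈ J, fv v (f i) ≤ t) : fv v (∑ i ∈ J, f i) ≤ t := by
  classical
  induction J using Finset.induction_on with
  | empty => simpa using ht
  | insert a s ha ih =>
    rw [Finset.sum_insert ha]
    exact (fv_na v _ _).trans (max_le (h a (mem_insert_self _ _)) (ih fun i hi => h i (mem_insert_of_mem hi)))

/-- the loss at finite places -/
lemma exists_cv [Finite ι] (𝒥 : Finset (Finset ι)) (c : Finset ι → Fin (n + 1) → ι → K) :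
    ∃ (cv : HeightOneSpectrum (𝓞 K) → ℕ) (S0 : Finset (HeightOneSpectrum (𝓞 K))),
      (∀ v ∉ S0, cv v = 0) ∧ ∀ v, ∀ J ∈ 𝒥, ∀ j i, fv v (c J j i) ≤ Nv v ^ cv v := by
  classical
  haveI := Fintype.ofFinite ι
  have hfin : ∀ u : K, {v : HeightOneSpectrum (𝓞 K) | 1 < fv v u}.Finite := by
    intro u
    by_cases hu : u = 0
    · convert Set.finite_empty
      ext v
      simp [hu]
    · refine (fv_support_finite hu).subset ?_
      intro v hv
      exact ne_of_gt hv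
  have hfin2 : (⋃ J ∈ (𝒥 : Set (Finset ι)), ⋃ j : Fin (n + 1), ⋃ i : ι,
      {v : HeightOneSpectrum (𝓞 K) | 1 < fv v (c J j i)}).Finite :=
    Set.Finite.biUnion (Finset.finite_toSet _) fun J _ => Set.finite_iUnion fun j =>
      Set.finite_iUnion fun i => hfin _
  have hex : ∀ v : HeightOneSpectrum (𝓞 K), ∃ k : ℕ, ∀ J ∈ 𝒥, ∀ j i, fv v (c J j i) ≤ Nv v ^ k := by
    intro v
    have hN : (1 : ℝ) < Nv v := by linarith [two_le_Nv v]
    obtain ⟨k, hk⟩ := pow_unbounded_of_one_lt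
      (∑ J ∈ 𝒥, ∑ j : Fin (n + 1), ∑ i : ι, fv v (c J j i)) hN
    refine ⟨k, fun J hJ j i => le_trans ?_ hk.le⟩
    have h0 : ∀ u : K, 0 ≤ fv v u := fun u => (fv v).nonneg u
    calc fv v (c J j i) ≤ ∑ i : ι, fv v (c J j i) :=
          Finset.single_le_sum (f := fun i => fv v (c J j i)) (fun i _ => h0 _) (mem_univ i)
      _ ≤ ∑ j : Fin (n + 1), ∑ i : ι, fv v (c J j i) :=
          Finset.single_le_sum (f := fun j => ∑ i : ι, fv v (c J j i))
            (fun j _ => Finset.sum_nonneg fun i _ => h0 _) (mem_univ j)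
      _ ≤ _ := Finset.single_le_sum (f := fun J => ∑ j : Fin (n + 1), ∑ i : ι, fv v (c J j i))
            (fun J _ => Finset.sum_nonneg fun j _ => Finset.sum_nonneg fun i _ => h0 _) hJ
  choose k hk using hex
  refine ⟨fun v => if v ∈ hfin2.toFinset then k v else 0, hfin2.toFinset, fun v hv => if_neg hv, ?_⟩
  intro v J hJ j i
  by_cases hv : v ∈ hfin2.toFinset
  · simp only [if_pos hv]
    exact hk v J hJ j i
  · simp only [if_neg hv, pow_zero]
    by_contra hlt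
    apply hv
    rw [Set.Finite.mem_toFinset]
    simp only [Set.mem_iUnion]
    exact ⟨J, hJ, j, i, not_le.mp hlt⟩

/-- the loss at infinite places -/
lemma exists_D [Fintype ι] (𝒥 : Finset (Finset ι)) (c : Finset ι → Fin (n + 1) → ι → K) :
    ∃ D : ℝ, 1 ≤ D ∧ ∀ w : InfinitePlace K, ∀ J ∈ 𝒥, ∀ j, ∑ i ∈ J, w (c J j i) ≤ D := by
  classical
  have h0 : ∀ (w : InfinitePlace K) (u : K), 0 ≤ w u := fun w u => apply_nonneg w u
  refine ⟨1 + ∑ w : InfinitePlace K, ∑ J ∈ 𝒥, ∑ j : Fin (n + 1), ∑ i ∈ J, w (c J j i), ?_, ?_⟩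
  · have : 0 ≤ ∑ w : InfinitePlace K, ∑ J ∈ 𝒥, ∑ j : Fin (n + 1), ∑ i ∈ J, w (c J j i) :=
      Finset.sum_nonneg fun w _ => Finset.sum_nonneg fun J _ => Finset.sum_nonneg fun j _ =>
        Finset.sum_nonneg fun i _ => h0 _ _
    linarith
  · intro w J hJ j
    have h1 : ∑ i ∈ J, w (c J j i) ≤ ∑ j : Fin (n + 1), ∑ i ∈ J, w (c J j i) :=
      Finset.single_le_sum (f := fun j => ∑ i ∈ J, w (c J j i))
        (fun j _ => Finset.sum_nonneg fun i _ => h0 _ _) (mem_univ j)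
    have h2 : ∑ j : Fin (n + 1), ∑ i ∈ J, w (c J j i) ≤ ∑ J ∈ 𝒥, ∑ j : Fin (n + 1), ∑ i ∈ J, w (c J j i) :=
      Finset.single_le_sum (f := fun J => ∑ j : Fin (n + 1), ∑ i ∈ J, w (c J j i))
        (fun J _ => Finset.sum_nonneg fun j _ => Finset.sum_nonneg fun i _ => h0 _ _) hJ
    have h3 : ∑ J ∈ 𝒥, ∑ j : Fin (n + 1), ∑ i ∈ J, w (c J j i) ≤
        ∑ w : InfinitePlace K, ∑ J ∈ 𝒥, ∑ j : Fin (n + 1), ∑ i ∈ J, w (c J j i) :=
      Finset.single_le_sum (f := fun w : InfinitePlace K => ∑ J ∈ 𝒥, ∑ j : Fin (n + 1), ∑ i ∈ J, w (c J j i))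
        (fun w _ => Finset.sum_nonneg fun J _ => Finset.sum_nonneg fun j _ =>
          Finset.sum_nonneg fun i _ => h0 _ _) (mem_univ w)
    linarith

/-- two vectors in the same classes are equal -/
lemma class_inj (α : ι → Fin (n + 1) → 𝓞 K) (𝒥 : Finset (Finset ι))
    (c : Finset ι → Fin (n + 1) → ι → K) (hc : ∀ J ∈ 𝒥, IsInv α J (c J))
    (cv : HeightOneSpectrum (𝓞 K) → ℕ) (hcv : ∀ v, ∀ J ∈ 𝒥, ∀ j i, fv v (c J j i) ≤ Nv v ^ cv v)
    {D : ℝ} (hD1 : 1 ≤ D) (hD : ∀ w : InfinitePlace K, ∀ J ∈ 𝒥, ∀ j, ∑ i ∈ J, w (c J j i) ≤ D)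
    (T : Finset (HeightOneSpectrum (𝓞 K))) (Jw : InfinitePlace K → Finset ι) (hJw : ∀ w, Jw w ∈ 𝒥)
    (Jv : HeightOneSpectrum (𝓞 K) → Finset ι) (hJv : ∀ v, Jv v ∈ 𝒥)
    (m : HeightOneSpectrum (𝓞 K) → ℕ) (s : InfinitePlace K → ℝ) (hs : ∀ w, 0 < s w)
    (hlt : ∑ w : InfinitePlace K, (w.mult : ℝ) * Real.log (2 * D * s w) <
      ∑ v ∈ T, (m v : ℝ) * Real.log (Nv v))
    (x y : Fin (n + 1) → 𝓞 K)
    (h1 : ∀ w, ∀ i ∈ Jw w, cell w (s w) ((linZ (α i) x : 𝓞 K) : K) = cell w (s w) ((linZ (α i) y : 𝓞 K) : K))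
    (h2 : ∀ v ∈ T, ∀ i ∈ Jv v, linZ (α i) x - linZ (α i) y ∈ v.asIdeal ^ (m v + cv v)) : x = y := by
  by_contra hne
  obtain ⟨j, hj⟩ := Function.ne_iff.mp hne
  have hz : (x - y) j ≠ 0 := by rw [Pi.sub_apply]; exact sub_ne_zero.mpr hj
  have hmem : ∀ v ∈ T, (x - y) j ∈ v.asIdeal ^ m v := by
    intro v hv
    rw [← fv_le_pow_iff, hc (Jv v) (hJv v) (x - y) j]
    have hN : (0 : ℝ) < Nv v := by linarith [two_le_Nv v]
    refine fv_sum_le v _ _ (by positivity) fun i hi => ?_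
    rw [map_mul, linZ_sub]
    have h3 := (fv_le_pow_iff v _ _).mpr (h2 v hv i hi)
    calc fv v (c (Jv v) j i) * fv v ((linZ (α i) x - linZ (α i) y : 𝓞 K) : K)
        ≤ Nv v ^ cv v * Nv v ^ (-((m v + cv v : ℕ) : ℤ)) :=
          mul_le_mul (hcv v _ (hJv v) j i) h3 ((fv v).nonneg _) (by positivity)
      _ = Nv v ^ (-(m v : ℤ)) := by
          rw [← zpow_natCast, ← zpow_add₀ hN.ne']
          congr 1
          push_cast
          ring
  have h4 := norm_ineq hz T m hmem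
  have h5 : ∑ w : InfinitePlace K, (w.mult : ℝ) * Real.log (w (((x - y) j : 𝓞 K) : K)) ≤
      ∑ w : InfinitePlace K, (w.mult : ℝ) * Real.log (2 * D * s w) := by
    refine Finset.sum_le_sum fun w _ => ?_
    refine mul_le_mul_of_nonneg_left ?_ (Nat.cast_nonneg _)
    refine Real.log_le_log (InfinitePlace.pos_iff.mpr (RingOfIntegers.coe_ne_zero_iff.mpr hz)) ?_
    rw [hc (Jw w) (hJw w) (x - y) j]
    have hs0 := hs w
    calc w (∑ i ∈ Jw w, c (Jw w) j i * ((linZ (α i) (x - y) : 𝓞 K) : K))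
        ≤ ∑ i ∈ Jw w, w (c (Jw w) j i * ((linZ (α i) (x - y) : 𝓞 K) : K)) :=
          w.1.sum_le _ _
      _ ≤ ∑ i ∈ Jw w, w (c (Jw w) j i) * (2 * s w) := by
          refine Finset.sum_le_sum fun i hi => ?_
          rw [map_mul]
          refine mul_le_mul_of_nonneg_left ?_ (apply_nonneg w _)
          rw [linZ_sub]
          have h6 := cell_close w hs0 (h1 w i hi)
          simpa using h6
      _ = (∑ i ∈ Jw w, w (c (Jw w) j i)) * (2 * s w) := by rw [Finset.sum_mul]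
      _ ≤ D * (2 * s w) := mul_le_mul_of_nonneg_right (hD w _ (hJw w) j) (by positivity)
      _ = 2 * D * s w := by ring
  linarith

end Pool.Agent.W232.VA
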