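import Pool.Agent.W232.VA.B

set_option autoImplicit false
set_option linter.unusedSectionVars false

/-!
Arrangements, part C: the counting theorem.
-/

namespace Pool.Agent.W232.VA

open NumberField IsDedekindDomain Finset Pool.Agent.H691R3

variable {K : Type*} [Field K] [NumberField K] {n : ℕ} {ι : Type*}

lemma sum_mult_real : ∑ w : InfinitePlace K, (w.mult : ℝ) = (Module.finrank ℚ K : ℝ) := by
  rw [← InfinitePlace.sum_mult_eq (K := K)]
  push_cast
  rfl

lemma card_image_le_of {X Y Z : Type*} [DecidableEq Y] [DecidableEq Z] (A : Finset X) (f : X → Y)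
    (g : X → Z) (h : ∀ x ∈ A, ∀ y ∈ A, g x = g y → f x = f y) :
    (A.image f).card ≤ (A.image g).card := by
  classical
  rcases A.eq_empty_or_nonempty with rfl | ⟨a0, _⟩
  · simp
  have hex : ∀ z : Z, ∃ x : X, z ∈ A.image g → x ∈ A ∧ g x = z := by
    intro z
    by_cases hz : z ∈ A.image g
    · obtain ⟨x, hx, hxz⟩ := Finset.mem_image.mp hz
      exact ⟨x, fun _ => ⟨hx, hxz⟩⟩
    · exact ⟨a0, fun h => absurd h hz⟩
  choose r hr using hex
  have hsub : A.image f ⊆ (A.image g).image (f ∘ r) := by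
    intro y hy
    obtain ⟨x, hx, rfl⟩ := Finset.mem_image.mp hy
    have h1 := hr (g x) (Finset.mem_image_of_mem g hx)
    exact Finset.mem_image.mpr ⟨g x, Finset.mem_image_of_mem g hx, h _ h1.1 x hx h1.2⟩
  exact (Finset.card_le_card hsub).trans Finset.card_image_le

theorem count [Fintype ι] (α : ι → Fin (n + 1) → 𝓞 K) (𝒥 : Finset (Finset ι))
    (c : Finset ι → Fin (n + 1) → ι → K) (hc : ∀ J ∈ 𝒥, IsInv α J (c J))
    (hcard : ∀ J ∈ 𝒥, J.card = n + 1) (C1 C2 : ℝ) (hC1 : 0 < C1) :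
    ∃ C : ℝ, 0 < C ∧ ∀ R : ℝ, 0 < R → ∀ T : Finset (HeightOneSpectrum (𝓞 K)),
      ∀ Jw : InfinitePlace K → Finset ι, (∀ w, Jw w ∈ 𝒥) →
      ∀ Jv : HeightOneSpectrum (𝓞 K) → Finset ι, (∀ v, Jv v ∈ 𝒥) →
      ∀ (ew : InfinitePlace K → ι → ℕ) (mw : InfinitePlace K → ℕ)
        (ev : HeightOneSpectrum (𝓞 K) → ι → ℕ) (mv : HeightOneSpectrum (𝓞 K) → ℕ),
      (∀ w i, ew w i ≤ mw w) → (∀ v i, ev v i ≤ mv v) →
      (∑ w, (mw w : ℝ) + ∑ v ∈ T, (mv v : ℝ) * Real.log (Nv v) ≤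
        Module.finrank ℚ K * Real.log R + C2) →
      ∀ A : Finset (Fin (n + 1) → 𝓞 K),
        (∀ x ∈ A, ∀ w : InfinitePlace K, ∀ i, w ((linZ (α i) x : 𝓞 K) : K) ≤
          C1 * R * Real.exp (-(ew w i : ℝ) / w.mult)) →
        (∀ x ∈ A, ∀ v ∈ T, ∀ i, linZ (α i) x ∈ v.asIdeal ^ ev v i) →
        (A.card : ℝ) ≤ C * Real.exp ((n + 1) * (Module.finrank ℚ K * Real.log R) -
          ∑ w, ∑ i ∈ Jw w, (ew w i : ℝ) - ∑ v ∈ T, (∑ i ∈ Jv v, (ev v i : ℝ)) * Real.log (Nv v)) := by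
  classical
  obtain ⟨cv, S0, hcv0, hcv⟩ := exists_cv 𝒥 c
  obtain ⟨D, hD1, hD⟩ := exists_D 𝒥 c
  set d : ℝ := (Module.finrank ℚ K : ℝ) with hd
  have hdpos : 0 < d := by
    rw [hd]; exact_mod_cast Module.finrank_pos
  set G : ℝ := 4 * D * C1 + 2 * Real.exp (C2 / d) with hG
  have hGpos : 0 < G := by positivity
  set K0 : ℝ := ∑ v ∈ S0, (cv v : ℝ) * Real.log (Nv v) with hK0
  refine ⟨Real.exp ((n + 1) * (d * Real.log G + 1 + K0)), Real.exp_pos _, ?_⟩
  intro R hR T Jw hJw Jv hJv ew mw ev mv hew hev hM A hA1 hA2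
  set L : ℝ := d * Real.log R with hL
  set μ : ℝ := ∑ w, (mw w : ℝ) + ∑ v ∈ T, (mv v : ℝ) * Real.log (Nv v) with hμ
  set τ : ℝ := Real.exp ((μ - L - 1) / d) with hτ
  have hτpos : 0 < τ := Real.exp_pos _
  have hτle : τ ≤ Real.exp (C2 / d) := by
    rw [hτ]
    refine Real.exp_le_exp.mpr ?_
    gcongr
    linarith
  set s : InfinitePlace K → ℝ := fun w => Real.exp (-(mw w : ℝ) / w.mult) * R * τ / (2 * D) with hs
  have hDpos : 0 < D := by linarith
  have hspos : ∀ w, 0 < s w := fun w => by rw [hs]; positivity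
  have hmult : ∀ w : InfinitePlace K, (0 : ℝ) < w.mult := fun w => by
    exact_mod_cast InfinitePlace.mult_pos
  have hlogs : ∀ w, Real.log (2 * D * s w) = -(mw w : ℝ) / w.mult + Real.log R + (μ - L - 1) / d := by
    intro w
    have e1 : 2 * D * s w = Real.exp (-(mw w : ℝ) / w.mult) * R * τ := by
      rw [hs]; field_simp
    rw [e1, Real.log_mul (by positivity) hτpos.ne', Real.log_mul (Real.exp_ne_zero _) hR.ne',
      Real.log_exp, hτ, Real.log_exp]
  have hsum : ∑ w : InfinitePlace K, (w.mult : ℝ) * Real.log (2 * D * s w) =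
      ∑ v ∈ T, (mv v : ℝ) * Real.log (Nv v) - 1 := by
    have e1 : ∀ w : InfinitePlace K, (w.mult : ℝ) * Real.log (2 * D * s w) =
        -(mw w : ℝ) + (w.mult : ℝ) * (Real.log R + (μ - L - 1) / d) := by
      intro w
      rw [hlogs w]
      have := (hmult w).ne'
      field_simp
      ring
    rw [Finset.sum_congr rfl fun w _ => e1 w, Finset.sum_add_distrib, ← Finset.sum_mul,
      sum_mult_real, Finset.sum_neg_distrib]
    have e2 : d * (Real.log R + (μ - L - 1) / d) = L + (μ - L - 1) := by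
      rw [hL]; field_simp
    rw [← hd, e2, hμ]
    ring
  let Q1 := Σ w : InfinitePlace K, (Jw w : Finset ι)
  let Q2 := Σ v : (T : Finset (HeightOneSpectrum (𝓞 K))), (Jv v : Finset ι)
  let δ : Q1 ⊕ Q2 → Type _ := Sum.elim (fun _ => ULift (ℤ × ℤ))
    (fun q => 𝓞 K ⧸ (q.1 : HeightOneSpectrum (𝓞 K)).asIdeal ^ (mv q.1 + cv q.1))
  let Φ : ∀ q : Q1 ⊕ Q2, (Fin (n + 1) → 𝓞 K) → δ q := fun q =>
    match q with
    | Sum.inl q => fun x => ULift.up (cell q.1 (s q.1) ((linZ (α q.2) x : 𝓞 K) : K))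
    | Sum.inr q => fun x =>
      Ideal.Quotient.mk ((q.1 : HeightOneSpectrum (𝓞 K)).asIdeal ^ (mv q.1 + cv q.1)) (linZ (α q.2) x)
  have hcount := card_le_prod A Φ (by
    intro x hx y hy hxy
    refine class_inj α 𝒥 c hc cv hcv hD1 hD T Jw hJw Jv hJv mv s hspos (by rw [hsum]; linarith) x y ?_ ?_
    · intro w i hi
      exact congrArg ULift.down (hxy (Sum.inl ⟨w, ⟨i, hi⟩⟩))
    · intro v hv i hi
      exact Ideal.Quotient.eq.mp (hxy (Sum.inr ⟨⟨v, hv⟩, ⟨i, hi⟩⟩)))
  -- bounds for the factors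
  have hb1 : ∀ q : Q1, ((A.image (Φ (Sum.inl q))).card : ℝ) ≤
      Real.exp ((q.1.mult : ℝ) * (Real.log G - (μ - L - 1) / d) + ((mw q.1 : ℝ) - ew q.1 q.2)) := by
    rintro ⟨w, i, hi⟩
    have e1 : (A.image (Φ (Sum.inl ⟨w, i, hi⟩))).card ≤
        ((A.image (fun x => ((linZ (α i) x : 𝓞 K) : K))).image (cell w (s w))).card := by
      rw [Finset.image_image]
      exact card_image_le_of A _ _ fun x _ y _ hxy => congrArg ULift.up hxy
    have e2 := cell_card w (ρ := C1 * R * Real.exp (-(ew w i : ℝ) / w.mult)) (s := s w)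
      (by positivity) (hspos w) (A.image (fun x => ((linZ (α i) x : 𝓞 K) : K))) (by
        intro y hy
        obtain ⟨x, hx, rfl⟩ := Finset.mem_image.mp hy
        exact hA1 x hx w i)
    have e3 : 2 * (C1 * R * Real.exp (-(ew w i : ℝ) / w.mult)) / s w + 2 ≤
        G / τ * Real.exp (((mw w : ℝ) - ew w i) / w.mult) := by
      have f1 : 2 * (C1 * R * Real.exp (-(ew w i : ℝ) / w.mult)) / s w =
          4 * D * C1 / τ * Real.exp (((mw w : ℝ) - ew w i) / w.mult) := by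
        have f2 : Real.exp (((mw w : ℝ) - ew w i) / w.mult) =
            Real.exp (-(ew w i : ℝ) / w.mult) / Real.exp (-(mw w : ℝ) / w.mult) := by
          rw [← Real.exp_sub]
          congr 1
          ring
        rw [f2, hs]
        have := Real.exp_pos (-(mw w : ℝ) / w.mult)
        field_simp
        ring
      have f3 : (1 : ℝ) ≤ Real.exp (((mw w : ℝ) - ew w i) / w.mult) := by
        refine Real.one_le_exp (div_nonneg ?_ (hmult w).le)
        have : (ew w i : ℝ) ≤ mw w := by exact_mod_cast hew w i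
        linarith
      have f4 : (2 : ℝ) ≤ 2 * Real.exp (C2 / d) / τ * Real.exp (((mw w : ℝ) - ew w i) / w.mult) := by
        have f5 : (2 : ℝ) ≤ 2 * Real.exp (C2 / d) / τ := by
          rw [le_div_iff₀ hτpos]
          linarith
        nlinarith
      rw [f1]
      calc 4 * D * C1 / τ * Real.exp (((mw w : ℝ) - ew w i) / w.mult) + 2
          ≤ 4 * D * C1 / τ * Real.exp (((mw w : ℝ) - ew w i) / w.mult) +
            2 * Real.exp (C2 / d) / τ * Real.exp (((mw w : ℝ) - ew w i) / w.mult) := by linarith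
        _ = G / τ * Real.exp (((mw w : ℝ) - ew w i) / w.mult) := by
          rw [hG]; ring
    have e4 : (2 * (C1 * R * Real.exp (-(ew w i : ℝ) / w.mult)) / s w + 2) ^ w.mult ≤
        Real.exp ((w.mult : ℝ) * (Real.log G - (μ - L - 1) / d) + ((mw w : ℝ) - ew w i)) := by
      have g0 : 0 ≤ 2 * (C1 * R * Real.exp (-(ew w i : ℝ) / w.mult)) / s w + 2 := by
        have := hspos w
        positivity
      refine (pow_le_pow_left₀ g0 e3 _).trans (le_of_eq ?_)
      have g1 : G / τ * Real.exp (((mw w : ℝ) - ew w i) / w.mult) =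
          Real.exp (Real.log G - (μ - L - 1) / d + ((mw w : ℝ) - ew w i) / w.mult) := by
        rw [Real.exp_add, Real.exp_sub, Real.exp_log hGpos]
      rw [g1, ← Real.exp_nat_mul]
      congr 1
      have := (hmult w).ne'
      field_simp
    exact (by exact_mod_cast e1 : ((A.image (Φ (Sum.inl ⟨w, i, hi⟩))).card : ℝ) ≤
      (((A.image (fun x => ((linZ (α i) x : 𝓞 K) : K))).image (cell w (s w))).card : ℝ)).trans
        (e2.trans e4)
  have hb2 : ∀ q : Q2, ((A.image (Φ (Sum.inr q))).card : ℝ) ≤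
      Real.exp ((((mv q.1 : ℝ) + cv q.1) - ev q.1 q.2) *
        Real.log (Nv (q.1 : HeightOneSpectrum (𝓞 K)))) := by
    rintro ⟨⟨v, hv⟩, i, hi⟩
    have hle : ev v i ≤ mv v + cv v := (hev v i).trans (Nat.le_add_right _ _)
    have e1 : (A.image (Φ (Sum.inr ⟨⟨v, hv⟩, i, hi⟩))).card ≤
        ((A.image (fun x => linZ (α i) x)).image
          (fun x => Ideal.Quotient.mk (v.asIdeal ^ (mv v + cv v)) x)).card := by
      rw [Finset.image_image]
      exact card_image_le_of A _ _ fun x _ y _ hxy => hxy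
    have e2 := class_fin v hle (A.image (fun x => linZ (α i) x)) (by
      intro y hy
      obtain ⟨x, hx, rfl⟩ := Finset.mem_image.mp hy
      exact hA2 x hx v hv i)
    refine (show ((A.image (Φ (Sum.inr ⟨⟨v, hv⟩, i, hi⟩))).card : ℝ) ≤ _ by exact_mod_cast e1).trans
      (e2.trans (le_of_eq ?_))
    have hN : (0 : ℝ) < Nv v := by linarith [two_le_Nv v]
    rw [← Real.exp_log (pow_pos hN _), Real.log_pow]
    congr 1
    rw [Nat.cast_sub hle]
    push_cast
    ring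
  have hprod : (A.card : ℝ) ≤ Real.exp (
      ∑ q : Q1, ((q.1.mult : ℝ) * (Real.log G - (μ - L - 1) / d) + ((mw q.1 : ℝ) - ew q.1 q.2)) +
      ∑ q : Q2, (((mv q.1 : ℝ) + cv q.1) - ev q.1 q.2) *
        Real.log (Nv (q.1 : HeightOneSpectrum (𝓞 K)))) := by
    have h1 : (A.card : ℝ) ≤ ∏ q : Q1 ⊕ Q2, ((A.image (Φ q)).card : ℝ) := by exact_mod_cast hcount
    rw [Fintype.prod_sum_type] at h1
    refine h1.trans ?_
    rw [Real.exp_add, Real.exp_sum, Real.exp_sum]
    exact mul_le_mul (Finset.prod_le_prod (fun _ _ => Nat.cast_nonneg _) fun q _ => hb1 q)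
      (Finset.prod_le_prod (fun _ _ => Nat.cast_nonneg _) fun q _ => hb2 q)
      (Finset.prod_nonneg fun _ _ => Nat.cast_nonneg _)
      (Finset.prod_nonneg fun _ _ => (Real.exp_pos _).le)
  refine hprod.trans ?_
  rw [← Real.exp_add]
  refine Real.exp_le_exp.mpr ?_
  have s1 : ∑ q : Q1, ((q.1.mult : ℝ) * (Real.log G - (μ - L - 1) / d) + ((mw q.1 : ℝ) - ew q.1 q.2)) =
      (n + 1) * (d * (Real.log G - (μ - L - 1) / d) + ∑ w, (mw w : ℝ)) -
        ∑ w, ∑ i ∈ Jw w, (ew w i : ℝ) := by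
    rw [Fintype.sum_sigma]
    have e1 : ∀ w : InfinitePlace K, ∑ i : (Jw w : Finset ι),
        ((w.mult : ℝ) * (Real.log G - (μ - L - 1) / d) + ((mw w : ℝ) - ew w i)) =
        (n + 1) * ((w.mult : ℝ) * (Real.log G - (μ - L - 1) / d) + mw w) -
          ∑ i ∈ Jw w, (ew w i : ℝ) := by
      intro w
      rw [Finset.sum_coe_sort (Jw w) (fun i =>
        ((w.mult : ℝ) * (Real.log G - (μ - L - 1) / d) + ((mw w : ℝ) - ew w i)))]
      have : ∀ i ∈ Jw w, (w.mult : ℝ) * (Real.log G - (μ - L - 1) / d) + ((mw w : ℝ) - ew w i) =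
          ((w.mult : ℝ) * (Real.log G - (μ - L - 1) / d) + mw w) - ew w i := fun i _ => by ring
      rw [Finset.sum_congr rfl this, Finset.sum_sub_distrib, Finset.sum_const, hcard _ (hJw w),
        nsmul_eq_mul]
      push_cast
      ring
    rw [Finset.sum_congr rfl fun w _ => e1 w, Finset.sum_sub_distrib, ← Finset.mul_sum,
      Finset.sum_add_distrib, ← Finset.sum_mul, sum_mult_real]
  have s2 : ∑ q : Q2, (((mv q.1 : ℝ) + cv q.1) - ev q.1 q.2) *
        Real.log (Nv (q.1 : HeightOneSpectrum (𝓞 K))) =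
      (n + 1) * (∑ v ∈ T, (mv v : ℝ) * Real.log (Nv v) + ∑ v ∈ T, (cv v : ℝ) * Real.log (Nv v)) -
        ∑ v ∈ T, (∑ i ∈ Jv v, (ev v i : ℝ)) * Real.log (Nv v) := by
    rw [Fintype.sum_sigma]
    have e1 : ∀ v : HeightOneSpectrum (𝓞 K), ∑ i : (Jv v : Finset ι),
        (((mv v : ℝ) + cv v) - ev v i) * Real.log (Nv v) =
        (n + 1) * ((mv v : ℝ) * Real.log (Nv v) + (cv v : ℝ) * Real.log (Nv v)) -
          (∑ i ∈ Jv v, (ev v i : ℝ)) * Real.log (Nv v) := by
      intro v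
      rw [Finset.sum_coe_sort (Jv v) (fun i => (((mv v : ℝ) + cv v) - ev v i) * Real.log (Nv v))]
      rw [← Finset.sum_mul, Finset.sum_sub_distrib, Finset.sum_const, hcard _ (hJv v), nsmul_eq_mul]
      push_cast
      ring
    rw [Finset.sum_congr rfl fun v _ => e1 v.1,
      Finset.sum_coe_sort T (fun v => (n + 1) * ((mv v : ℝ) * Real.log (Nv v) + (cv v : ℝ) * Real.log (Nv v)) -
          (∑ i ∈ Jv v, (ev v i : ℝ)) * Real.log (Nv v)),
      Finset.sum_sub_distrib, ← Finset.mul_sum, Finset.sum_add_distrib]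
  have s3 : ∑ v ∈ T, (cv v : ℝ) * Real.log (Nv v) ≤ K0 := by
    have hnn : ∀ v : HeightOneSpectrum (𝓞 K), 0 ≤ (cv v : ℝ) * Real.log (Nv v) := fun v =>
      mul_nonneg (Nat.cast_nonneg _) (log_Nv_pos v).le
    have e1 : ∑ v ∈ T, (cv v : ℝ) * Real.log (Nv v) =
        ∑ v ∈ T.filter (· ∈ S0), (cv v : ℝ) * Real.log (Nv v) := by
      symm
      refine Finset.sum_subset (Finset.filter_subset _ _) fun v hv hv' => ?_
      rw [Finset.mem_filter, not_and] at hv'
      rw [hcv0 v (hv' hv)]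
      simp
    rw [e1, hK0]
    refine Finset.sum_le_sum_of_subset_of_nonneg ?_ fun v _ _ => hnn v
    intro v hv
    exact (Finset.mem_filter.mp hv).2
  have s4 : d * (Real.log G - (μ - L - 1) / d) = d * Real.log G - (μ - L - 1) := by
    field_simp
  rw [s1, s2, s4]
  have s5 : (0 : ℝ) ≤ (n : ℝ) + 1 := by positivity
  have s6 := mul_le_mul_of_nonneg_left s3 s5
  have s7 : μ = ∑ w, (mw w : ℝ) + ∑ v ∈ T, (mv v : ℝ) * Real.log (Nv v) := rfl
  nlinarith

end Pool.Agent.W232.VA
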