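import Pool.Agent.W232.VA.C
import Pool.Agent.H57R3.VJ.D

set_option autoImplicit false
set_option linter.unusedSectionVars false

/-!
Arrangements, part D: balanced integral coordinates of a point of projective space.
-/

namespace Pool.Agent.W232.VA

open NumberField IsDedekindDomain Finset Pool.Agent.H691R3 Height
open scoped nonZeroDivisors

variable {K : Type*} [Field K] [NumberField K] {n : ℕ}

variable (K) in
/-- balancing by units -/
lemma balance : ∃ C : ℝ, 0 < C ∧ ∀ a : InfinitePlace K → ℝ, (∀ w, 0 < a w) →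
    ∃ u : (𝓞 K)ˣ, ∀ w : InfinitePlace K, w ((u : 𝓞 K) : K) * a w ≤
      C * (∏ w : InfinitePlace K, a w ^ w.mult) ^ (1 / (Module.finrank ℚ K : ℝ)) := by
  classical
  obtain ⟨C, hC⟩ := isBounded_iff_forall_norm_le.mp
    (mixedEmbedding.fundamentalCone.isBounded_normLeOne K)
  refine ⟨|C| + 1, by positivity, fun a ha => ?_⟩
  set X : mixedEmbedding.mixedSpace K := mixedEmbedding.mixedSpaceOfRealSpace a with hX
  have hXw : ∀ w, mixedEmbedding.normAtPlace w X = a w := fun w =>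
    mixedEmbedding.normAtPlace_mixedSpaceOfRealSpace (ha w).le
  have hN : mixedEmbedding.norm X = ∏ w : InfinitePlace K, a w ^ w.mult := by
    rw [mixedEmbedding.norm_apply]
    exact Finset.prod_congr rfl fun w _ => by rw [hXw w]
  set N := ∏ w : InfinitePlace K, a w ^ w.mult with hNdef
  have hNpos : 0 < N := Finset.prod_pos fun w _ => pow_pos (ha w) _
  obtain ⟨u, hu⟩ := mixedEmbedding.fundamentalCone.exists_unit_smul_mem (x := X)
    (by rw [hN]; exact hNpos.ne')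
  refine ⟨u, fun w => ?_⟩
  set d : ℝ := (Module.finrank ℚ K : ℝ) with hd
  have hdpos : 0 < d := by
    rw [hd]; exact_mod_cast Module.finrank_pos
  set r : ℝ := N ^ (1 / d) with hr
  have hrpos : 0 < r := Real.rpow_pos_of_pos hNpos _
  have hrd : r ^ Module.finrank ℚ K = N := by
    rw [hr, ← Real.rpow_natCast, ← Real.rpow_mul hNpos.le, ← hd, one_div_mul_cancel hdpos.ne',
      Real.rpow_one]
  have hmem : r⁻¹ • (u • X) ∈ mixedEmbedding.fundamentalCone.normLeOne K := by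
    rw [mixedEmbedding.fundamentalCone.mem_normLeOne]
    refine ⟨mixedEmbedding.fundamentalCone.smul_mem_of_mem hu (inv_ne_zero hrpos.ne'), ?_⟩
    rw [mixedEmbedding.norm_smul, mixedEmbedding.norm_unit_smul, hN, abs_of_pos (inv_pos.mpr hrpos),
      inv_pow, hrd, inv_mul_cancel₀ hNpos.ne']
  have h1 := hC _ hmem
  have h2 : mixedEmbedding.normAtPlace w (r⁻¹ • (u • X)) ≤ C := by
    refine le_trans ?_ h1
    rw [mixedEmbedding.norm_eq_sup'_normAtPlace]
    exact Finset.le_sup' (fun w => mixedEmbedding.normAtPlace w (r⁻¹ • (u • X))) (mem_univ w)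
  rw [mixedEmbedding.normAtPlace_smul, mixedEmbedding.unitSMul_smul, map_mul,
    mixedEmbedding.normAtPlace_apply, hXw w, abs_of_pos (inv_pos.mpr hrpos)] at h2
  have h3 : r⁻¹ * (w ((u : 𝓞 K) : K) * a w) ≤ |C| + 1 := by
    have := le_abs_self C
    linarith
  rw [inv_mul_le_iff₀ hrpos] at h3
  linarith

variable (K) in
/-- integral coordinates generating an ideal of bounded norm -/
lemma scale_int : ∃ M : ℕ, 0 < M ∧ ∀ x : Fin (n + 1) → K, x ≠ 0 →
    ∃ t : K, t ≠ 0 ∧ ∃ y : Fin (n + 1) → 𝓞 K, (∀ j, ((y j : 𝓞 K) : K) = t * x j) ∧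
      ∃ N : ℕ, 0 < N ∧ N ≤ M ∧ ((N : 𝓞 K)) ∈ Ideal.span (Set.range y) := by
  classical
  choose I hI using ClassGroup.mk0_surjective (R := 𝓞 K)
  refine ⟨∑ c : ClassGroup (𝓞 K), Ideal.absNorm (I c : Ideal (𝓞 K)) + 1, by omega, ?_⟩
  intro x hx
  obtain ⟨b, hb⟩ := IsLocalization.exist_integer_multiples_of_finite (nonZeroDivisors (𝓞 K)) x
  choose z hz using hb
  have hb0 : ((b : 𝓞 K) : K) ≠ 0 := RingOfIntegers.coe_ne_zero_iff.mpr (nonZeroDivisors.ne_zero b.2)
  have hz' : ∀ i, ((z i : 𝓞 K) : K) = ((b : 𝓞 K) : K) * x i := fun i => by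
    have := hz i
    rw [Algebra.smul_def] at this
    exact this
  set g : Ideal (𝓞 K) := Ideal.span (Set.range z) with hg
  have hg0 : g ≠ ⊥ := by
    obtain ⟨i, hi⟩ := Function.ne_iff.mp hx
    intro h
    rw [hg, Ideal.span_eq_bot] at h
    have h1 : z i = 0 := h (z i) ⟨i, rfl⟩
    have h2 := hz' i
    rw [h1] at h2
    simp only [map_zero] at h2
    exact (mul_ne_zero hb0 hi) h2.symm
  have hg1 : g ∈ nonZeroDivisors (Ideal (𝓞 K)) := mem_nonZeroDivisors_iff_ne_zero.mpr hg0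
  set J : Ideal (𝓞 K) := (I (ClassGroup.mk0 ⟨g, hg1⟩) : Ideal (𝓞 K)) with hJ
  have hcl := hI (ClassGroup.mk0 ⟨g, hg1⟩)
  obtain ⟨β, α, hβ, hα, hαβ⟩ := ClassGroup.mk0_eq_mk0_iff.mp hcl
  simp only at hαβ
  change Ideal.span {β} * J = Ideal.span {α} * g at hαβ
  have hy : ∀ i, ∃ y ∈ J, β * y = α * z i := by
    intro i
    have h1 : α * z i ∈ Ideal.span {β} * J := by
      rw [hαβ]
      exact Ideal.mul_mem_mul (Ideal.mem_span_singleton_self α) (Ideal.subset_span ⟨i, rfl⟩)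
    exact Ideal.mem_span_singleton_mul.mp h1
  choose y hyJ hy using hy
  have hβ' : ((β : 𝓞 K) : K) ≠ 0 := RingOfIntegers.coe_ne_zero_iff.mpr hβ
  have hα' : ((α : 𝓞 K) : K) ≠ 0 := RingOfIntegers.coe_ne_zero_iff.mpr hα
  refine ⟨((α : 𝓞 K) : K) * ((b : 𝓞 K) : K) / ((β : 𝓞 K) : K), div_ne_zero (mul_ne_zero hα' hb0) hβ', y, ?_, Ideal.absNorm J, ?_, ?_, ?_⟩
  · intro j
    have h1 : ((β : 𝓞 K) : K) * ((y j : 𝓞 K) : K) = ((α : 𝓞 K) : K) * ((z j : 𝓞 K) : K) := by
      rw [← map_mul, ← map_mul, hy j]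
    rw [hz' j] at h1
    field_simp
    linear_combination h1
  · have : Ideal.absNorm J ≠ 0 := by
      rw [Ne, Ideal.absNorm_eq_zero_iff]
      exact mem_nonZeroDivisors_iff_ne_zero.mp (I (ClassGroup.mk0 ⟨g, hg1⟩)).2
    omega
  · have : Ideal.absNorm J ≤ ∑ c : ClassGroup (𝓞 K), Ideal.absNorm (I c : Ideal (𝓞 K)) :=
      Finset.single_le_sum (f := fun c : ClassGroup (𝓞 K) => Ideal.absNorm (I c : Ideal (𝓞 K)))
        (fun _ _ => Nat.zero_le _) (Finset.mem_univ (ClassGroup.mk0 ⟨g, hg1⟩))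
    omega
  · have h1 : β * (Ideal.absNorm J : 𝓞 K) ∈ Ideal.span {α} * g := by
      rw [← hαβ]
      exact Ideal.mul_mem_mul (Ideal.mem_span_singleton_self β) (Ideal.absNorm_mem J)
    obtain ⟨γ, hγ, hγ2⟩ := Ideal.mem_span_singleton_mul.mp h1
    obtain ⟨r, hr⟩ := Ideal.mem_span_range_iff_exists_fun.mp hγ
    have h2 : (Ideal.absNorm J : 𝓞 K) = ∑ i, r i * y i := by
      apply mul_left_cancel₀ hβ
      rw [← hγ2, ← hr, Finset.mul_sum, Finset.mul_sum]
      refine Finset.sum_congr rfl fun i _ => ?_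
      linear_combination (-(r i)) * hy i
    rw [h2]
    exact Ideal.sum_mem _ fun i _ => Ideal.mul_mem_left _ _ (Ideal.subset_span ⟨i, rfl⟩)

open Pool.Agent.H57R3.VJ in
variable (K) in
/-- balanced integral coordinates -/
lemma rep : ∃ C : ℝ, 0 < C ∧ ∀ x : Fin (n + 1) → K, x ≠ 0 →
    ∃ t : K, t ≠ 0 ∧ ∃ y : Fin (n + 1) → 𝓞 K, (∀ j, ((y j : 𝓞 K) : K) = t * x j) ∧
      ∀ (w : InfinitePlace K) (j : Fin (n + 1)), w ((y j : 𝓞 K) : K) ≤
        C * mulHeight x ^ (1 / (Module.finrank ℚ K : ℝ)) := by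
  classical
  obtain ⟨M, hM, hscale⟩ := scale_int K (n := n)
  obtain ⟨C, hC, hbal⟩ := balance K
  have hMpos : (0 : ℝ) < M := by exact_mod_cast hM
  set d : ℝ := (Module.finrank ℚ K : ℝ) with hd
  have hdpos : 0 < d := by
    rw [hd]; exact_mod_cast Module.finrank_pos
  refine ⟨C * M, by positivity, fun x hx => ?_⟩
  obtain ⟨t, ht, y, hy, N, hN, hNM, hmem⟩ := hscale x hx
  set y' : Fin (n + 1) → K := fun j => ((y j : 𝓞 K) : K) with hy'
  have hy'x : y' = t • x := by
    ext j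
    rw [hy']
    simp only [hy j, Pi.smul_apply, smul_eq_mul]
  have hy'0 : y' ≠ 0 := by
    rw [hy'x]
    exact smul_ne_zero ht hx
  obtain ⟨j0, hj0⟩ := Function.ne_iff.mp hy'0
  set a : InfinitePlace K → ℝ := fun w => ⨆ j, w (y' j) with ha
  have hale : ∀ w j, w (y' j) ≤ a w := fun w j => Finite.le_ciSup_of_le j le_rfl
  have hapos : ∀ w, 0 < a w := fun w =>
    lt_of_lt_of_le (InfinitePlace.pos_iff.mpr hj0) (hale w j0)
  obtain ⟨u, hu⟩ := hbal a hapos
  -- the finite part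
  have hheight : mulHeight x = (∏ w : InfinitePlace K, a w ^ w.mult) * ∏ᶠ v : FinitePlace K, sv v y' := by
    rw [← mulHeight_smul_eq_mulHeight x ht, ← hy'x, NumberField.mulHeight_eq hy'0]
    rfl
  have hN0 : (N : K) ≠ 0 := by
    have : N ≠ 0 := by omega
    exact_mod_cast this
  have hpf := NumberField.prod_abs_eq_one (K := K) hN0
  have hwN : ∏ w : InfinitePlace K, w (N : K) ^ w.mult = (N : ℝ) ^ Module.finrank ℚ K := by
    rw [← InfinitePlace.sum_mult_eq (K := K), ← Finset.prod_pow_eq_pow_sum]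
    exact Finset.prod_congr rfl fun w _ => by rw [InfinitePlace.map_natCast]
  rw [hwN] at hpf
  have hfin : ∏ᶠ v : FinitePlace K, v (N : K) ≤ ∏ᶠ v : FinitePlace K, sv v y' := by
    have f1 := FinitePlace.hasFiniteMulSupport (K := K) hN0
    have f2 := sv_fin hy'0
    set S : Finset (FinitePlace K) := (Set.Finite.union f1 f2).toFinset with hS
    rw [finprod_eq_prod_of_mulSupport_subset (s := S) _ (by
        rw [hS, Set.Finite.coe_toFinset]; exact Set.subset_union_left),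
      finprod_eq_prod_of_mulSupport_subset (s := S) _ (by
        rw [hS, Set.Finite.coe_toFinset]; exact Set.subset_union_right)]
    refine Finset.prod_le_prod (fun v _ => apply_nonneg v _) fun v _ => ?_
    obtain ⟨r, hr⟩ := Ideal.mem_span_range_iff_exists_fun.mp hmem
    have h1 : (N : K) = ∑ i, ((r i : 𝓞 K) : K) * y' i := by
      have h := congrArg (algebraMap (𝓞 K) K) hr
      rw [map_sum, map_natCast] at h
      rw [← h]
      exact Finset.sum_congr rfl fun i _ => by rw [map_mul]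
    rw [h1]
    refine sum_le_v v _ _ (sv_nonneg _ _) fun j => ?_
    rw [map_mul]
    have h2 : v ((r j : 𝓞 K) : K) ≤ 1 := by
      obtain ⟨u, rfl⟩ := (FinitePlace.equivHeightOneSpectrum (K := K)).symm.surjective v
      exact fv_int_le_one u (r j)
    calc v ((r j : 𝓞 K) : K) * v (y' j) ≤ 1 * sv v y' :=
          mul_le_mul h2 (le_sv v y' j) (apply_nonneg _ _) zero_le_one
      _ = sv v y' := one_mul _
  have hprod : ∏ w : InfinitePlace K, a w ^ w.mult ≤ (M : ℝ) ^ Module.finrank ℚ K * mulHeight x := by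
    have hP : 0 < ∏ w : InfinitePlace K, a w ^ w.mult :=
      Finset.prod_pos fun w _ => pow_pos (hapos w) _
    have hNp : (0 : ℝ) < (N : ℝ) ^ Module.finrank ℚ K := by positivity
    have h1 : (1 : ℝ) ≤ (N : ℝ) ^ Module.finrank ℚ K * ∏ᶠ v : FinitePlace K, sv v y' := by
      calc (1 : ℝ) = (N : ℝ) ^ Module.finrank ℚ K * ∏ᶠ v : FinitePlace K, v (N : K) := hpf.symm
        _ ≤ _ := mul_le_mul_of_nonneg_left hfin hNp.le
    have h2 : (N : ℝ) ^ Module.finrank ℚ K ≤ (M : ℝ) ^ Module.finrank ℚ K :=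
      pow_le_pow_left₀ (Nat.cast_nonneg _) (by exact_mod_cast hNM) _
    have h3 : 0 ≤ mulHeight x := (mulHeight_pos x).le
    calc ∏ w : InfinitePlace K, a w ^ w.mult = (∏ w : InfinitePlace K, a w ^ w.mult) * 1 := (mul_one _).symm
      _ ≤ (∏ w : InfinitePlace K, a w ^ w.mult) *
          ((N : ℝ) ^ Module.finrank ℚ K * ∏ᶠ v : FinitePlace K, sv v y') :=
          mul_le_mul_of_nonneg_left h1 hP.le
      _ = (N : ℝ) ^ Module.finrank ℚ K * mulHeight x := by rw [hheight]; ring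
      _ ≤ _ := mul_le_mul_of_nonneg_right h2 h3
  refine ⟨((u : 𝓞 K) : K) * t, mul_ne_zero ?_ ht, fun j => (u : 𝓞 K) * y j, ?_, ?_⟩
  · exact RingOfIntegers.coe_ne_zero_iff.mpr u.ne_zero
  · intro j
    refine (map_mul (algebraMap (𝓞 K) K) (u : 𝓞 K) (y j)).trans ?_
    rw [show algebraMap (𝓞 K) K (y j) = t * x j from hy j]
    ring
  · intro w j
    have e1 : w (algebraMap (𝓞 K) K ((u : 𝓞 K) * y j)) = w (algebraMap (𝓞 K) K (u : 𝓞 K)) * w (y' j) := by
      rw [map_mul, map_mul]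
    refine (le_of_eq e1).trans ?_
    have h1 : w ((u : 𝓞 K) : K) * w (y' j) ≤ w ((u : 𝓞 K) : K) * a w :=
      mul_le_mul_of_nonneg_left (hale w j) (apply_nonneg _ _)
    refine h1.trans ((hu w).trans ?_)
    rw [mul_assoc]
    refine mul_le_mul_of_nonneg_left ?_ hC.le
    have hP : 0 ≤ ∏ w : InfinitePlace K, a w ^ w.mult :=
      Finset.prod_nonneg fun w _ => pow_nonneg (hapos w).le _
    calc (∏ w : InfinitePlace K, a w ^ w.mult) ^ (1 / d)
        ≤ ((M : ℝ) ^ Module.finrank ℚ K * mulHeight x) ^ (1 / d) :=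
          Real.rpow_le_rpow hP hprod (by positivity)
      _ = M * mulHeight x ^ (1 / d) := by
          rw [Real.mul_rpow (by positivity) (mulHeight_pos x).le, ← Real.rpow_natCast,
            ← Real.rpow_mul hMpos.le, ← hd, mul_one_div_cancel hdpos.ne', Real.rpow_one]

end Pool.Agent.W232.VA
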