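import Pool.Agent.W232.VA.D

set_option autoImplicit false
set_option linter.unusedSectionVars false

/-!
Arrangements, part E: local heights of a point with respect to the hyperplanes of an arrangement.
-/

namespace Pool.Agent.W232.VA

open NumberField IsDedekindDomain Finset Pool.Agent.H691R3 Height

variable {K : Type*} [Field K] {n r : ℕ}

/-- the value at `x` of the linear form with coefficients `a` -/
def lin (a x : Fin (n + 1) → K) : K := ∑ j, a j * x j

/-- the local height of the hyperplane `a = 0` at `x` for the absolute value `f` -/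
noncomputable def lam (f : AbsoluteValue K ℝ) (a x : Fin (n + 1) → K) : ℝ :=
  Real.log ((⨆ j, f (a j)) * (⨆ j, f (x j)) / f (lin a x))

/-- the largest sum of local heights over a linearly independent subfamily of the arrangement -/
noncomputable def wt (f : AbsoluteValue K ℝ) (a : Fin r → Fin (n + 1) → K) (x : Fin (n + 1) → K) : ℝ :=
  ⨆ I : {I : Finset (Fin r) // LinearIndependent K (fun i : I => a i)}, ∑ i ∈ I.1, lam f (a i) x

lemma sup_le_of (f : AbsoluteValue K ℝ) (x : Fin (n + 1) → K) (j : Fin (n + 1)) :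
    f (x j) ≤ ⨆ j, f (x j) := Finite.le_ciSup_of_le (f := fun j => f (x j)) j le_rfl

lemma sup_att (f : AbsoluteValue K ℝ) (x : Fin (n + 1) → K) : ∃ j, (⨆ j, f (x j)) = f (x j) := by
  obtain ⟨j, hj⟩ := exists_eq_ciSup_of_finite (f := fun j => f (x j))
  exact ⟨j, hj.symm⟩

lemma sup_pos (f : AbsoluteValue K ℝ) {x : Fin (n + 1) → K} (hx : x ≠ 0) : 0 < ⨆ j, f (x j) := by
  obtain ⟨j, hj⟩ := Function.ne_iff.mp hx
  exact lt_of_lt_of_le (f.pos hj) (sup_le_of f x j)

lemma sup_smul (f : AbsoluteValue K ℝ) (t : K) (x : Fin (n + 1) → K) :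
    (⨆ j, f ((t • x) j)) = f t * ⨆ j, f (x j) := by
  rw [Real.mul_iSup_of_nonneg (f.nonneg t)]
  exact iSup_congr fun j => by rw [Pi.smul_apply, smul_eq_mul, f.map_mul]

lemma lin_smul_right (t : K) (a x : Fin (n + 1) → K) : lin a (t • x) = t * lin a x := by
  unfold lin
  rw [Finset.mul_sum]
  exact Finset.sum_congr rfl fun j _ => by rw [Pi.smul_apply, smul_eq_mul]; ring

lemma lin_smul_left (t : K) (a x : Fin (n + 1) → K) : lin (t • a) x = t * lin a x := by
  unfold lin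
  rw [Finset.mul_sum]
  exact Finset.sum_congr rfl fun j _ => by rw [Pi.smul_apply, smul_eq_mul]; ring

lemma lam_smul_right (f : AbsoluteValue K ℝ) {t : K} (ht : t ≠ 0) (a x : Fin (n + 1) → K) :
    lam f a (t • x) = lam f a x := by
  unfold lam
  have h := f.pos ht
  rw [sup_smul, lin_smul_right, f.map_mul]
  congr 1
  rw [show (⨆ j, f (a j)) * (f t * ⨆ j, f (x j)) = f t * ((⨆ j, f (a j)) * ⨆ j, f (x j)) by ring,
    mul_div_mul_left _ _ h.ne']

lemma lam_smul_left (f : AbsoluteValue K ℝ) {t : K} (ht : t ≠ 0) (a x : Fin (n + 1) → K) :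
    lam f (t • a) x = lam f a x := by
  unfold lam
  have h := f.pos ht
  rw [sup_smul, lin_smul_left, f.map_mul]
  congr 1
  rw [mul_assoc, mul_div_mul_left _ _ h.ne']

lemma wt_smul_right (f : AbsoluteValue K ℝ) {t : K} (ht : t ≠ 0) (a : Fin r → Fin (n + 1) → K)
    (x : Fin (n + 1) → K) : wt f a (t • x) = wt f a x := by
  unfold wt
  exact iSup_congr fun I => Finset.sum_congr rfl fun i _ => lam_smul_right f ht _ _

lemma wt_att (f : AbsoluteValue K ℝ) (a : Fin r → Fin (n + 1) → K) (x : Fin (n + 1) → K) :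
    ∃ I : Finset (Fin r), LinearIndependent K (fun i : I => a i) ∧ wt f a x = ∑ i ∈ I, lam f (a i) x := by
  haveI : Nonempty {I : Finset (Fin r) // LinearIndependent K (fun i : I => a i)} :=
    ⟨⟨∅, linearIndependent_empty_type⟩⟩
  obtain ⟨I, hI⟩ := exists_eq_ciSup_of_finite
    (f := fun I : {I : Finset (Fin r) // LinearIndependent K (fun i : I => a i)} =>
      ∑ i ∈ I.1, lam f (a i) x)
  exact ⟨I.1, I.2, hI.symm⟩

lemma le_wt (f : AbsoluteValue K ℝ) (a : Fin r → Fin (n + 1) → K) (x : Fin (n + 1) → K)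
    (I : Finset (Fin r)) (hI : LinearIndependent K (fun i : I => a i)) :
    ∑ i ∈ I, lam f (a i) x ≤ wt f a x :=
  Finite.le_ciSup_of_le (f := fun I : {I : Finset (Fin r) // LinearIndependent K (fun i : I => a i)} =>
      ∑ i ∈ I.1, lam f (a i) x) ⟨I, hI⟩ le_rfl

lemma wt_nonneg (f : AbsoluteValue K ℝ) (a : Fin r → Fin (n + 1) → K) (x : Fin (n + 1) → K) :
    0 ≤ wt f a x := by
  have := le_wt f a x ∅ linearIndependent_empty_type
  simpa using this

variable [NumberField K]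

lemma lin_fin_le (v : HeightOneSpectrum (𝓞 K)) (a x : Fin (n + 1) → K) :
    fv v (lin a x) ≤ (⨆ j, fv v (a j)) * ⨆ j, fv v (x j) := by
  unfold lin
  have h1 : 0 ≤ ⨆ j, fv v (a j) := by
    obtain ⟨j, hj⟩ := sup_att (fv v) a
    rw [hj]; exact (fv v).nonneg _
  have h2 : 0 ≤ ⨆ j, fv v (x j) := by
    obtain ⟨j, hj⟩ := sup_att (fv v) x
    rw [hj]; exact (fv v).nonneg _
  refine fv_sum_le v univ _ (mul_nonneg h1 h2) fun j _ => ?_
  rw [map_mul]
  exact mul_le_mul (sup_le_of _ a j) (sup_le_of _ x j) ((fv v).nonneg _) h1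

/-- discreteness at finite places -/
lemma lam_fin (v : HeightOneSpectrum (𝓞 K)) {a x : Fin (n + 1) → K} (ha : a ≠ 0) (hx : x ≠ 0)
    (hl : lin a x ≠ 0) : ∃ k : ℕ, lam (fv v) a x = k * Real.log (Nv v) := by
  have hsup : ∀ {z : Fin (n + 1) → K}, z ≠ 0 → ∃ m : ℤ, Real.log (⨆ j, fv v (z j)) = m * Real.log (Nv v) := by
    intro z hz
    obtain ⟨j, hj⟩ := sup_att (fv v) z
    have hpos := sup_pos (fv v) hz
    rw [hj] at hpos ⊢
    refine log_fv v ?_
    intro h
    rw [h, map_zero] at hpos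
    exact lt_irrefl _ hpos
  obtain ⟨b, hb⟩ := hsup ha
  obtain ⟨c, hc⟩ := hsup hx
  obtain ⟨e, he⟩ := log_fv v hl
  have hp1 := sup_pos (fv v) ha
  have hp2 := sup_pos (fv v) hx
  have hp3 := (fv v).pos hl
  have h1 : lam (fv v) a x = ((b + c - e : ℤ) : ℝ) * Real.log (Nv v) := by
    unfold lam
    rw [Real.log_div (mul_pos hp1 hp2).ne' hp3.ne', Real.log_mul hp1.ne' hp2.ne', hb, hc, he]
    push_cast; ring
  have h2 : 0 ≤ lam (fv v) a x := by
    unfold lam
    refine Real.log_nonneg ?_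
    rw [one_le_div hp3]
    exact lin_fin_le v a x
  rw [h1] at h2
  have h4 : (0 : ℝ) ≤ ((b + c - e : ℤ) : ℝ) := nonneg_of_mul_nonneg_left h2 (log_Nv_pos v)
  have h5 : (0 : ℤ) ≤ b + c - e := by exact_mod_cast h4
  refine ⟨(b + c - e).toNat, ?_⟩
  rw [h1]
  congr 1
  exact_mod_cast (Int.toNat_of_nonneg h5).symm

lemma lam_fin_nonneg (v : HeightOneSpectrum (𝓞 K)) {a x : Fin (n + 1) → K} (ha : a ≠ 0) (hx : x ≠ 0)
    (hl : lin a x ≠ 0) : 0 ≤ lam (fv v) a x := by
  obtain ⟨k, hk⟩ := lam_fin v ha hx hl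
  rw [hk]
  exact mul_nonneg (Nat.cast_nonneg _) (log_Nv_pos v).le

lemma lam_support {a x : Fin (n + 1) → K} (ha : a ≠ 0) (hx : x ≠ 0) (hl : lin a x ≠ 0) :
    {v : HeightOneSpectrum (𝓞 K) | lam (fv v) a x ≠ 0}.Finite := by
  have hsup : ∀ {z : Fin (n + 1) → K}, z ≠ 0 →
      {v : HeightOneSpectrum (𝓞 K) | (⨆ j, fv v (z j)) ≠ 1}.Finite := by
    intro z hz
    have h1 : (⋃ j ∈ {j : Fin (n + 1) | z j ≠ 0}, {v : HeightOneSpectrum (𝓞 K) | fv v (z j) ≠ 1}).Finite :=
      Set.Finite.biUnion (Set.toFinite _) fun j hj => fv_support_finite hj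
    refine h1.subset ?_
    intro v hv
    by_contra hne
    apply hv
    simp only [Set.mem_iUnion, Set.mem_ofPred_eq, not_exists, not_not] at hne
    obtain ⟨k, hk⟩ := sup_att (fv v) z
    have hpos := sup_pos (fv v) hz
    rw [hk] at hpos ⊢
    refine hne k ?_
    intro h0
    rw [h0, map_zero] at hpos
    exact lt_irrefl _ hpos
  refine (((hsup ha).union (hsup hx)).union (fv_support_finite hl)).subset ?_
  intro v hv
  by_contra hne
  simp only [Set.mem_union, Set.mem_ofPred_eq, not_or, not_not] at hne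
  apply hv
  unfold lam
  rw [hne.1.1, hne.1.2, hne.2]
  simp

lemma linZ_coe (a x : Fin (n + 1) → 𝓞 K) : ((linZ a x : 𝓞 K) : K) =
    lin (fun j => ((a j : 𝓞 K) : K)) (fun j => ((x j : 𝓞 K) : K)) := by
  unfold linZ lin
  refine (map_sum (algebraMap (𝓞 K) K) (fun j => a j * x j) univ).trans ?_
  exact Finset.sum_congr rfl fun j _ => map_mul (algebraMap (𝓞 K) K) _ _

/-- divisibility of the value of a form at an integral point -/
lemma lin_mem (v : HeightOneSpectrum (𝓞 K)) {a x : Fin (n + 1) → 𝓞 K}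
    (ha : (fun j => ((a j : 𝓞 K) : K)) ≠ 0) (hx : (fun j => ((x j : 𝓞 K) : K)) ≠ 0)
    (hl : lin (fun j => ((a j : 𝓞 K) : K)) (fun j => ((x j : 𝓞 K) : K)) ≠ 0) {k : ℕ}
    (hk : (k : ℝ) * Real.log (Nv v) ≤ lam (fv v) (fun j => ((a j : 𝓞 K) : K)) (fun j => ((x j : 𝓞 K) : K))) :
    linZ a x ∈ v.asIdeal ^ k := by
  have hlin : ((linZ a x : 𝓞 K) : K) = lin (fun j => ((a j : 𝓞 K) : K)) (fun j => ((x j : 𝓞 K) : K)) := by
    exact linZ_coe a x
  rw [← fv_le_pow_iff, hlin]
  have hp1 := sup_pos (fv v) ha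
  have hp2 := sup_pos (fv v) hx
  have hp3 := (fv v).pos hl
  have hle : ∀ z : Fin (n + 1) → 𝓞 K, (⨆ j, fv v ((z j : 𝓞 K) : K)) ≤ 1 := fun z =>
    ciSup_le fun j => fv_int_le_one v (z j)
  unfold lam at hk
  rw [Real.le_log_iff_exp_le (by positivity), le_div_iff₀ hp3] at hk
  have hN : (0 : ℝ) < Nv v := by linarith [two_le_Nv v]
  have h1 : Real.exp ((k : ℝ) * Real.log (Nv v)) = Nv v ^ k := by
    rw [mul_comm, Real.exp_mul, Real.exp_log hN, Real.rpow_natCast]
  rw [h1] at hk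
  rw [zpow_neg, zpow_natCast, ← one_div, le_div_iff₀ (by positivity), mul_comm]
  refine hk.trans ?_
  have := mul_le_mul (hle a) (hle x) hp2.le zero_le_one
  simpa using this

end Pool.Agent.W232.VA
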