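import Pool.Agent.W232.VA.E

set_option autoImplicit false
set_option linter.unusedSectionVars false

/-!
Arrangements, part F: bases, upper bounds for local heights, profiles.
-/

namespace Pool.Agent.W232.VA

open NumberField IsDedekindDomain Finset Pool.Agent.H691R3 Height

variable {K : Type*} [Field K] [NumberField K] {n r : ℕ}

/-- the vector in `K` of an integral vector -/
def cz (x : Fin (n + 1) → 𝓞 K) : Fin (n + 1) → K := fun j => ((x j : 𝓞 K) : K)

lemma linZ_cz (a x : Fin (n + 1) → 𝓞 K) : ((linZ a x : 𝓞 K) : K) = lin (cz a) (cz x) := linZ_coe a x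

/-- the forms of the arrangement and the coordinates -/
def al (a : Fin r → Fin (n + 1) → 𝓞 K) : Fin r ⊕ Fin (n + 1) → Fin (n + 1) → 𝓞 K :=
  Sum.elim a (fun j => Pi.single j 1)

lemma linZ_single (j : Fin (n + 1)) (x : Fin (n + 1) → 𝓞 K) : linZ (Pi.single j 1) x = x j := by
  unfold linZ
  simp [Pi.single_apply]

lemma cz_single (j : Fin (n + 1)) : cz (Pi.single j (1 : 𝓞 K)) = Pi.single j (1 : K) := by
  classical
  ext k
  unfold cz
  by_cases h : k = j
  · subst h; simp
  · rw [Pi.single_eq_of_ne h, Pi.single_eq_of_ne h]; simp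

lemma inv_of_indep {ι : Type*} (α : ι → Fin (n + 1) → 𝓞 K) {J : Finset ι} (hJ : J.card = n + 1)
    (hl : LinearIndependent K (fun i : J => cz (α i))) :
    ∃ c : Fin (n + 1) → ι → K, IsInv α J c := by
  classical
  have hspan : Submodule.span K (Set.range fun i : J => cz (α i)) = ⊤ := by
    apply hl.span_eq_top_of_card_eq_finrank'
    rw [Fintype.card_coe, hJ, Module.finrank_fin_fun]
  have h : ∀ j : Fin (n + 1), ∃ c : J → K, ∑ i : J, c i • cz (α i) = Pi.single j (1 : K) := by
    intro j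
    have hm : (Pi.single j (1 : K) : Fin (n + 1) → K) ∈ Submodule.span K (Set.range fun i : J => cz (α i)) := by
      rw [hspan]; exact Submodule.mem_top
    exact (Submodule.mem_span_range_iff_exists_fun K).1 hm
  choose c hc using h
  refine ⟨fun j i => if hi : i ∈ J then c j ⟨i, hi⟩ else 0, fun z j => ?_⟩
  have e1 : ∑ i ∈ J, (if hi : i ∈ J then c j ⟨i, hi⟩ else 0) * ((linZ (α i) z : 𝓞 K) : K) =
      ∑ i : J, c j i * lin (cz (α i)) (cz z) := by
    rw [← Finset.sum_coe_sort J]
    refine Finset.sum_congr rfl fun i _ => ?_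
    rw [dif_pos i.2, linZ_cz]
  rw [e1]
  have e2 : ((z j : 𝓞 K) : K) = cz z j := rfl
  rw [e2]
  unfold lin
  calc cz z j = ∑ k, (Pi.single j (1 : K) : Fin (n + 1) → K) k * cz z k := by
        simp [Pi.single_apply]
    _ = ∑ k, (∑ i : J, c j i • cz (α i)) k * cz z k := by rw [hc j]
    _ = _ := by
        simp only [Finset.sum_apply, Pi.smul_apply, smul_eq_mul, Finset.sum_mul, Finset.mul_sum]
        rw [Finset.sum_comm]
        simp only [mul_assoc]

lemma basis_data (a : Fin r → Fin (n + 1) → 𝓞 K) :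
    ∃ (𝒥 : Finset (Finset (Fin r ⊕ Fin (n + 1)))) (c : Finset (Fin r ⊕ Fin (n + 1)) → Fin (n + 1) →
      Fin r ⊕ Fin (n + 1) → K), (∀ J ∈ 𝒥, IsInv (al a) J (c J)) ∧ (∀ J ∈ 𝒥, J.card = n + 1) ∧
      ∀ I : Finset (Fin r), LinearIndependent K (fun i : I => cz (a i)) →
        ∃ J ∈ 𝒥, I.image Sum.inl ⊆ J := by
  classical
  set 𝒥 : Finset (Finset (Fin r ⊕ Fin (n + 1))) := univ.filter fun J =>
    J.card = n + 1 ∧ LinearIndependent K (fun i : J => cz (al a i)) with h𝒥
  have hex : ∀ J : Finset (Fin r ⊕ Fin (n + 1)), ∃ c : Fin (n + 1) → Fin r ⊕ Fin (n + 1) → K,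
      J ∈ 𝒥 → IsInv (al a) J c := by
    intro J
    by_cases hJ : J ∈ 𝒥
    · rw [h𝒥, Finset.mem_filter] at hJ
      obtain ⟨c, hc⟩ := inv_of_indep (al a) hJ.2.1 hJ.2.2
      exact ⟨c, fun _ => hc⟩
    · exact ⟨fun _ _ => 0, fun h => absurd h hJ⟩
  choose c hc using hex
  refine ⟨𝒥, c, fun J hJ => hc J hJ, fun J hJ => (Finset.mem_filter.mp hJ).2.1, ?_⟩
  intro I hI
  set v : Fin r ⊕ Fin (n + 1) → Fin (n + 1) → K := fun i => cz (al a i) with hv
  have hs : LinearIndepOn K v ((I.image Sum.inl : Finset (Fin r ⊕ Fin (n + 1))) : Set _) := by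
    have hinj : Set.InjOn (Sum.inl : Fin r → Fin r ⊕ Fin (n + 1)) (I : Set (Fin r)) :=
      Sum.inl_injective.injOn
    rw [Finset.coe_image]
    have h1 : LinearIndepOn K (v ∘ Sum.inl) (I : Set (Fin r)) := hI
    exact LinearIndepOn.image_of_comp _ _ h1
  obtain ⟨b, _, hsb, hspan, hb⟩ := exists_linearIndepOn_extension hs (Set.subset_univ _)
  have hbfin : b.Finite := Set.toFinite b
  refine ⟨hbfin.toFinset, ?_, ?_⟩
  · rw [h𝒥, Finset.mem_filter]
    refine ⟨Finset.mem_univ _, ?_, ?_⟩
    · have hspan' : Submodule.span K (v '' b) = ⊤ := by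
        rw [eq_top_iff]
        have h1 : ∀ j : Fin (n + 1), (Pi.single j (1 : K) : Fin (n + 1) → K) ∈ Submodule.span K (v '' b) := by
          intro j
          refine hspan ⟨Sum.inr j, Set.mem_univ _, ?_⟩
          rw [hv]
          exact cz_single j
        intro x _
        have h2 : x = ∑ j, x j • (Pi.single j (1 : K) : Fin (n + 1) → K) := by
          ext k
          simp [Finset.sum_apply, Pi.single_apply]
        rw [h2]
        exact Submodule.sum_mem _ fun j _ => Submodule.smul_mem _ _ (h1 j)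
      have hcard := Module.finrank_eq_card_basis (Module.Basis.mk (v := fun i : b => v i) hb (by
        rw [← Set.image_eq_range, hspan']))
      rw [Module.finrank_fin_fun] at hcard
      rw [Set.Finite.card_toFinset]
      exact hcard.symm
    · have h1 : LinearIndependent K (fun i : b => v i) := hb
      exact h1.comp (fun i : (hbfin.toFinset : Finset _) => (⟨i.1, hbfin.mem_toFinset.mp i.2⟩ : b))
        (fun i j hij => Subtype.ext (congrArg (fun z : b => z.1) hij))
  · intro i hi
    rw [Set.Finite.mem_toFinset]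
    exact hsb hi

end Pool.Agent.W232.VA
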