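import Pool.Agent.W232.VA.F

set_option autoImplicit false
set_option linter.unusedSectionVars false

/-!
Arrangements, part G: upper bounds for local heights, profiles of points.
-/

namespace Pool.Agent.W232.VA

open NumberField IsDedekindDomain Finset Pool.Agent.H691R3 Height

variable {K : Type*} [Field K] [NumberField K] {n r : ℕ}

/-- local height at an arbitrary place, normalised -/
noncomputable def lamP (p : Pl K) (a x : Fin (n + 1) → K) : ℝ :=
  Sum.elim (fun w : InfinitePlace K => (w.mult : ℝ) * lam w.1 a x)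
    (fun v : HeightOneSpectrum (𝓞 K) => lam (fv v) a x) p

/-- local height with respect to the arrangement at an arbitrary place, normalised -/
noncomputable def wtP (p : Pl K) (a : Fin r → Fin (n + 1) → K) (x : Fin (n + 1) → K) : ℝ :=
  Sum.elim (fun w : InfinitePlace K => (w.mult : ℝ) * wt w.1 a x)
    (fun v : HeightOneSpectrum (𝓞 K) => wt (fv v) a x) p

/-- the loss in rounding -/
noncomputable def ls (r : ℕ) (p : Pl K) : ℝ :=
  Sum.elim (fun _ : InfinitePlace K => (r : ℝ)) (fun _ : HeightOneSpectrum (𝓞 K) => (0 : ℝ)) p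

/-- the set of indices with nonzero exponent is contained in an independent set -/
def Prof (a : Fin r → Fin (n + 1) → K) (e : Fin r → ℕ) : Prop :=
  ∃ I : Finset (Fin r), LinearIndependent K (fun i : I => a i) ∧ ∀ i ∉ I, e i = 0

lemma lamP_le {a x : Fin (n + 1) → 𝓞 K} (ha : cz a ≠ 0) (hx : cz x ≠ 0)
    (hl : lin (cz a) (cz x) ≠ 0) {X : ℝ} (hX : 1 ≤ X)
    (h1 : ∀ w : InfinitePlace K, w (lin (cz a) (cz x)) ≤ X)
    (h2 : ∀ w : InfinitePlace K, (⨆ j, w (cz a j)) * (⨆ j, w (cz x j)) ≤ X) (p : Pl K) :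
    lamP p (cz a) (cz x) ≤ Module.finrank ℚ K * Real.log X := by
  classical
  have hpf := log_product_formula hl
  have hlog : ∀ w : InfinitePlace K, Real.log (w (lin (cz a) (cz x))) ≤ Real.log X := fun w =>
    Real.log_le_log ((InfinitePlace.pos_iff).2 hl) (h1 w)
  have hX0 : 0 ≤ Real.log X := Real.log_nonneg hX
  have hv0 : ∀ v : HeightOneSpectrum (𝓞 K), 0 ≤ -Real.log (fv v (lin (cz a) (cz x))) := by
    intro v
    rw [neg_nonneg]
    refine Real.log_nonpos ((fv v).nonneg _) ?_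
    rw [← linZ_cz]
    exact fv_int_le_one v _
  have hfin : (Function.support fun v : HeightOneSpectrum (𝓞 K) =>
      -Real.log (fv v (lin (cz a) (cz x)))).Finite := by
    refine (log_fv_support_finite hl).subset ?_
    intro v hv
    rw [Function.mem_support] at hv ⊢
    exact fun h => hv (by rw [h, neg_zero])
  have hneg : ∑ᶠ v : HeightOneSpectrum (𝓞 K), -Real.log (fv v (lin (cz a) (cz x))) =
      ∑ w : InfinitePlace K, (w.mult : ℝ) * Real.log (w (lin (cz a) (cz x))) := by
    rw [finsum_neg_distrib]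
    linarith
  rcases p with w | v
  · show (w.mult : ℝ) * lam w.1 (cz a) (cz x) ≤ _
    have hp1 := sup_pos w.1 ha
    have hp2 := sup_pos w.1 hx
    have hp3 := w.1.pos hl
    have e1 : lam w.1 (cz a) (cz x) = Real.log ((⨆ j, w.1 (cz a j)) * (⨆ j, w.1 (cz x j))) -
        Real.log (w (lin (cz a) (cz x))) := by
      unfold lam
      rw [Real.log_div (mul_pos hp1 hp2).ne' hp3.ne']
      rfl
    have e2 : Real.log ((⨆ j, w.1 (cz a j)) * (⨆ j, w.1 (cz x j))) ≤ Real.log X :=
      Real.log_le_log (mul_pos hp1 hp2) (h2 w)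
    have e3 : 0 ≤ ∑ᶠ v : HeightOneSpectrum (𝓞 K), -Real.log (fv v (lin (cz a) (cz x))) :=
      finsum_nonneg hv0
    rw [hneg, ← Finset.add_sum_erase _ _ (Finset.mem_univ w)] at e3
    have e4 : ∑ w' ∈ univ.erase w, (w'.mult : ℝ) * Real.log (w' (lin (cz a) (cz x))) ≤
        ∑ w' ∈ univ.erase w, (w'.mult : ℝ) * Real.log X :=
      Finset.sum_le_sum fun w' _ => mul_le_mul_of_nonneg_left (hlog w') (Nat.cast_nonneg _)
    have e5 : (w.mult : ℝ) * Real.log X + ∑ w' ∈ univ.erase w, (w'.mult : ℝ) * Real.log X =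
        Module.finrank ℚ K * Real.log X := by
      rw [Finset.add_sum_erase univ (fun w' : InfinitePlace K => (w'.mult : ℝ) * Real.log X)
        (Finset.mem_univ w), ← Finset.sum_mul, sum_mult_real]
    have e6 : (w.mult : ℝ) * Real.log ((⨆ j, w.1 (cz a j)) * (⨆ j, w.1 (cz x j))) ≤
        w.mult * Real.log X := mul_le_mul_of_nonneg_left e2 (Nat.cast_nonneg _)
    rw [e1]
    linarith
  · show lam (fv v) (cz a) (cz x) ≤ _
    have hp1 := sup_pos (fv v) ha
    have hp2 := sup_pos (fv v) hx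
    have hp3 := (fv v).pos hl
    have hle : ∀ z : Fin (n + 1) → 𝓞 K, (⨆ j, fv v (cz z j)) ≤ 1 := fun z =>
      ciSup_le fun j => fv_int_le_one v (z j)
    have e1 : lam (fv v) (cz a) (cz x) ≤ -Real.log (fv v (lin (cz a) (cz x))) := by
      unfold lam
      rw [Real.log_div (mul_pos hp1 hp2).ne' hp3.ne']
      have : Real.log ((⨆ j, fv v (cz a j)) * (⨆ j, fv v (cz x j))) ≤ 0 := by
        refine Real.log_nonpos (mul_pos hp1 hp2).le ?_
        have := mul_le_mul (hle a) (hle x) hp2.le zero_le_one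
        simpa using this
      linarith
    have e2 : -Real.log (fv v (lin (cz a) (cz x))) ≤
        ∑ᶠ v : HeightOneSpectrum (𝓞 K), -Real.log (fv v (lin (cz a) (cz x))) :=
      single_le_finsum v hfin hv0
    have e3 : ∑ w : InfinitePlace K, (w.mult : ℝ) * Real.log (w (lin (cz a) (cz x))) ≤
        Module.finrank ℚ K * Real.log X := by
      rw [← sum_mult_real, Finset.sum_mul]
      exact Finset.sum_le_sum fun w' _ => mul_le_mul_of_nonneg_left (hlog w') (Nat.cast_nonneg _)
    linarith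

lemma prof {a : Fin r → Fin (n + 1) → K} (ha : ∀ i, a i ≠ 0) {x : Fin (n + 1) → K} (hx : x ≠ 0)
    (hl : ∀ i, lin (a i) x ≠ 0) (p : Pl K) :
    ∃ e : Fin r → ℕ, Prof a e ∧ (∀ i, e i ≠ 0 → (e i : ℝ) * Lu p ≤ lamP p (a i) x) ∧
      wtP p a x ≤ Lu p * ∑ i, (e i : ℝ) + ls r p := by
  classical
  rcases p with w | v
  · obtain ⟨I, hI, hw⟩ := wt_att w.1 a x
    refine ⟨fun i => if i ∈ I then ⌊(w.mult : ℝ) * lam w.1 (a i) x⌋₊ else 0, ⟨I, hI, fun i hi => if_neg hi⟩,
      fun i hi => ?_, ?_⟩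
    · simp only [ne_eq, ite_eq_right_iff, Classical.not_imp] at hi
      simp only [if_pos hi.1]
      show _ * (1 : ℝ) ≤ (w.mult : ℝ) * lam w.1 (a i) x
      rw [mul_one]
      have h0 : 0 ≤ (w.mult : ℝ) * lam w.1 (a i) x := by
        by_contra hneg
        exact hi.2 (Nat.floor_of_nonpos (not_le.1 hneg).le)
      exact Nat.floor_le h0
    · show (w.mult : ℝ) * wt w.1 a x ≤ 1 * _ + (r : ℝ)
      rw [hw, one_mul, Finset.mul_sum]
      have h1 : ∀ i ∈ I, (w.mult : ℝ) * lam w.1 (a i) x ≤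
          (⌊(w.mult : ℝ) * lam w.1 (a i) x⌋₊ : ℝ) + 1 := fun i _ => (Nat.lt_floor_add_one _).le
      refine (Finset.sum_le_sum h1).trans ?_
      rw [Finset.sum_add_distrib]
      have h2 : ∑ i ∈ I, (⌊(w.mult : ℝ) * lam w.1 (a i) x⌋₊ : ℝ) =
          ∑ i, ((if i ∈ I then ⌊(w.mult : ℝ) * lam w.1 (a i) x⌋₊ else 0 : ℕ) : ℝ) := by
        rw [← Finset.sum_filter_add_sum_filter_not univ (· ∈ I)]
        have h3 : ∑ i ∈ univ.filter (· ∉ I), ((if i ∈ I then ⌊(w.mult : ℝ) * lam w.1 (a i) x⌋₊ else 0 : ℕ) : ℝ) = 0 :=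
          Finset.sum_eq_zero fun i hi => by rw [if_neg (Finset.mem_filter.mp hi).2]; simp
        rw [h3, add_zero, Finset.filter_univ_mem]
        exact Finset.sum_congr rfl fun i hi => by rw [if_pos hi]
      have h4 : ∑ i ∈ I, (1 : ℝ) ≤ r := by
        rw [Finset.sum_const, nsmul_eq_mul, mul_one]
        have : I.card ≤ r := by simpa using Finset.card_le_univ I
        exact_mod_cast this
      rw [h2]
      linarith
  · obtain ⟨I, hI, hw⟩ := wt_att (fv v) a x
    choose k hk using fun i => lam_fin v (ha i) hx (hl i)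
    refine ⟨fun i => if i ∈ I then k i else 0, ⟨I, hI, fun i hi => if_neg hi⟩, fun i hi => ?_, ?_⟩
    · simp only [ne_eq, ite_eq_right_iff, Classical.not_imp] at hi
      simp only [if_pos hi.1]
      show _ * Real.log (Nv v) ≤ lam (fv v) (a i) x
      rw [hk i]
    · show wt (fv v) a x ≤ Real.log (Nv v) * _ + (0 : ℝ)
      rw [hw, add_zero]
      have h2 : ∑ i ∈ I, lam (fv v) (a i) x =
          Real.log (Nv v) * ∑ i, ((if i ∈ I then k i else 0 : ℕ) : ℝ) := by
        rw [Finset.mul_sum, ← Finset.sum_filter_add_sum_filter_not univ (· ∈ I)]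
        have h3 : ∑ i ∈ univ.filter (· ∉ I), Real.log (Nv v) * ((if i ∈ I then k i else 0 : ℕ) : ℝ) = 0 :=
          Finset.sum_eq_zero fun i hi => by rw [if_neg (Finset.mem_filter.mp hi).2]; simp
        rw [h3, add_zero, Finset.filter_univ_mem]
        exact Finset.sum_congr rfl fun i hi => by rw [if_pos hi, hk i, mul_comm]
      exact h2.le

/-- the profile is zero where all local heights vanish -/
lemma prof_zero {v : HeightOneSpectrum (𝓞 K)} {a : Fin r → Fin (n + 1) → K} {x : Fin (n + 1) → K}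
    {e : Fin r → ℕ} (he : ∀ i, e i ≠ 0 → (e i : ℝ) * Lu (Sum.inr v : Pl K) ≤ lamP (Sum.inr v) (a i) x)
    (h : ∀ i, lam (fv v) (a i) x ≤ 0) : e = 0 := by
  ext i
  by_contra hi
  have h1 := he i hi
  have h2 : (0 : ℝ) < e i := by exact_mod_cast Nat.pos_of_ne_zero hi
  have h3 := mul_pos h2 (Lu_pos (Sum.inr v : Pl K))
  have h4 : lamP (Sum.inr v : Pl K) (a i) x = lam (fv v) (a i) x := rfl
  rw [h4] at h1
  linarith [h i]

end Pool.Agent.W232.VA
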