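import Pool.Agent.W232.VA.G

set_option autoImplicit false
set_option linter.unusedSectionVars false

/-!
Arrangements, part H: the number of points with a given profile.
-/

namespace Pool.Agent.W232.VA

open NumberField IsDedekindDomain Finset Pool.Agent.H691R3 Height

variable {K : Type*} [Field K] [NumberField K] {n r : ℕ}

/-- the largest exponent of a profile -/
def mx (e : Fin r → ℕ) : ℕ := univ.sup e

lemma le_mx (e : Fin r → ℕ) (i : Fin r) : e i ≤ mx e := Finset.le_sup (f := e) (Finset.mem_univ i)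

lemma exists_CA (a : Fin r → Fin (n + 1) → 𝓞 K) :
    ∃ C : ℝ, 1 ≤ C ∧ ∀ (w : InfinitePlace K) (i : Fin r), (⨆ j, w (cz (a i) j)) ≤ C := by
  have h0 : ∀ (w : InfinitePlace K) (i : Fin r), 0 ≤ ⨆ j, w (cz (a i) j) := fun w i =>
    Real.iSup_nonneg fun j => apply_nonneg w _
  refine ⟨1 + ∑ w : InfinitePlace K, ∑ i : Fin r, ⨆ j, w (cz (a i) j), ?_, fun w i => ?_⟩
  · have : 0 ≤ ∑ w : InfinitePlace K, ∑ i : Fin r, ⨆ j, w (cz (a i) j) :=
      Finset.sum_nonneg fun w _ => Finset.sum_nonneg fun i _ => h0 w i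
    linarith
  · have h1 : (⨆ j, w (cz (a i) j)) ≤ ∑ i : Fin r, ⨆ j, w (cz (a i) j) :=
      Finset.single_le_sum (f := fun i => ⨆ j, w (cz (a i) j)) (fun i _ => h0 w i) (Finset.mem_univ i)
    have h2 : ∑ i : Fin r, (⨆ j, w (cz (a i) j)) ≤
        ∑ w : InfinitePlace K, ∑ i : Fin r, ⨆ j, w (cz (a i) j) :=
      Finset.single_le_sum (f := fun w : InfinitePlace K => ∑ i : Fin r, ⨆ j, w (cz (a i) j))
        (fun w _ => Finset.sum_nonneg fun i _ => h0 w i) (Finset.mem_univ w)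
    linarith

lemma w_lin_le (w : InfinitePlace K) (a x : Fin (n + 1) → K) {A X : ℝ} (hA : 0 ≤ A)
    (ha : ∀ j, w (a j) ≤ A) (hx : ∀ j, w (x j) ≤ X) : w (lin a x) ≤ (n + 1) * A * X := by
  unfold lin
  calc w (∑ j, a j * x j) ≤ ∑ j, w (a j * x j) := w.1.sum_le Finset.univ (fun j => a j * x j)
    _ ≤ ∑ _j : Fin (n + 1), A * X := by
        refine Finset.sum_le_sum fun j _ => ?_
        rw [map_mul]
        exact mul_le_mul (ha j) (hx j) (apply_nonneg _ _) hA
    _ = _ := by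
        rw [Finset.sum_const, Finset.card_univ, Fintype.card_fin, nsmul_eq_mul]
        push_cast; ring

theorem count_prof (a : Fin r → Fin (n + 1) → 𝓞 K) (ha : ∀ i, cz (a i) ≠ 0) (C0 C2 : ℝ) (hC0 : 1 ≤ C0) :
    ∃ C : ℝ, 0 < C ∧ ∀ B : ℝ, 1 ≤ B → ∀ T : Finset (HeightOneSpectrum (𝓞 K)), ∀ e : Pl K → Fin r → ℕ,
      (∀ p, Prof (fun i => cz (a i)) (e p)) →
      (∑ p ∈ (univ : Finset (InfinitePlace K)).disjSum T, (mx (e p) : ℝ) * Lu p ≤ Real.log B + C2) →
      ∀ A : Finset (Fin (n + 1) → 𝓞 K),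
        (∀ y ∈ A, cz y ≠ 0 ∧ (∀ i, lin (cz (a i)) (cz y) ≠ 0) ∧
          (∀ w : InfinitePlace K, ∀ j, w (cz y j) ≤ C0 * B ^ (1 / (Module.finrank ℚ K : ℝ))) ∧
          ∀ p ∈ (univ : Finset (InfinitePlace K)).disjSum T, ∀ i, e p i ≠ 0 →
            (e p i : ℝ) * Lu p ≤ lamP p (cz (a i)) (cz y)) →
        (A.card : ℝ) ≤ C * Real.exp ((n + 1) * Real.log B -
          ∑ p ∈ (univ : Finset (InfinitePlace K)).disjSum T, Lu p * ∑ i, (e p i : ℝ)) := by
  classical
  obtain ⟨𝒥, c, hc, hcard, hext⟩ := basis_data a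
  obtain ⟨CA, hCA1, hCA⟩ := exists_CA a
  obtain ⟨C, hC, hcount⟩ := count (al a) 𝒥 c hc hcard ((n + 1) * CA * C0) C2 (by positivity)
  refine ⟨C, hC, ?_⟩
  intro B hB T e he hM A hA
  have hd : (0 : ℝ) < (Module.finrank ℚ K : ℝ) := by exact_mod_cast Module.finrank_pos
  have hB0 : 0 < B := by linarith
  set R : ℝ := B ^ (1 / (Module.finrank ℚ K : ℝ)) with hR
  have hR0 : 0 < R := Real.rpow_pos_of_pos hB0 _
  have hlogR : (Module.finrank ℚ K : ℝ) * Real.log R = Real.log B := by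
    rw [hR, Real.log_rpow hB0]
    field_simp
  have hJ : ∀ p : Pl K, ∃ J ∈ 𝒥, ∀ i ∉ J, Sum.elim (e p) (fun _ : Fin (n + 1) => 0) i = 0 := by
    intro p
    obtain ⟨I, hI, hI0⟩ := he p
    obtain ⟨J, hJ, hJ2⟩ := hext I hI
    refine ⟨J, hJ, fun i hi => ?_⟩
    rcases i with i | j
    · show e p i = 0
      apply hI0
      intro hiI
      exact hi (hJ2 (Finset.mem_image_of_mem _ hiI))
    · rfl
  choose J hJ𝒥 hJ0 using hJ
  have hsumJ : ∀ p : Pl K, ∑ i ∈ J p, ((Sum.elim (e p) (fun _ : Fin (n + 1) => 0) i : ℕ) : ℝ) =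
      ∑ i, (e p i : ℝ) := by
    intro p
    rw [Finset.sum_subset (Finset.subset_univ (J p)) fun i _ hi => by rw [hJ0 p i hi]; simp,
      Fintype.sum_sum_type]
    simp
  have hw : ∀ x ∈ A, ∀ w : InfinitePlace K, ∀ i, w ((linZ (al a i) x : 𝓞 K) : K) ≤
      (n + 1) * CA * C0 * R *
        Real.exp (-((Sum.elim (e (Sum.inl w)) (fun _ : Fin (n + 1) => 0) i : ℕ) : ℝ) / w.mult) := by
    intro y hy w i
    obtain ⟨hy0, hyl, hyB, hyp⟩ := hA y hy
    have hCA0 : 0 ≤ CA := by linarith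
    have hn1 : (1 : ℝ) ≤ (n : ℝ) + 1 := by
      have : (0 : ℝ) ≤ n := Nat.cast_nonneg n
      linarith
    have hmono : ∀ {z : ℝ}, 0 ≤ z → z ≤ C0 * R → z ≤ (n + 1) * CA * C0 * R := by
      intro z hz hz2
      calc z ≤ C0 * R := hz2
        _ = 1 * 1 * (C0 * R) := by ring
        _ ≤ (n + 1) * CA * (C0 * R) := by
            have : 0 ≤ C0 * R := hz.trans hz2
            gcongr
        _ = _ := by ring
    rcases i with i | j
    · show w ((linZ (a i) y : 𝓞 K) : K) ≤ (n + 1) * CA * C0 * R * Real.exp (-((e (Sum.inl w) i : ℕ) : ℝ) / w.mult)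
      rw [linZ_cz]
      have haj : ∀ j, w (cz (a i) j) ≤ CA := fun j => (sup_le_of w.1 (cz (a i)) j).trans (hCA w i)
      by_cases h0 : e (Sum.inl w) i = 0
      · rw [h0]
        simp only [Nat.cast_zero, neg_zero, zero_div, Real.exp_zero, mul_one]
        have := w_lin_le w (cz (a i)) (cz y) hCA0 haj (hyB w)
        linarith
      · have h1 := hyp (Sum.inl w) (Finset.mem_disjSum.mpr (Or.inl ⟨w, Finset.mem_univ _, rfl⟩)) i h0
        have h2 : ((e (Sum.inl w) i : ℕ) : ℝ) * 1 ≤ (w.mult : ℝ) * lam w.1 (cz (a i)) (cz y) := h1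
        have hm : (0 : ℝ) < w.mult := by exact_mod_cast InfinitePlace.mult_pos
        have h3 : ((e (Sum.inl w) i : ℕ) : ℝ) / w.mult ≤ lam w.1 (cz (a i)) (cz y) := by
          rw [div_le_iff₀ hm]; linarith
        have hp1 := sup_pos w.1 (ha i)
        have hp2 := sup_pos w.1 hy0
        have hp3 := w.1.pos (hyl i)
        unfold lam at h3
        rw [Real.le_log_iff_exp_le (div_pos (mul_pos hp1 hp2) hp3), le_div_iff₀ hp3] at h3
        have h4 : (⨆ j, w.1 (cz (a i) j)) * (⨆ j, w.1 (cz y j)) ≤ CA * (C0 * R) :=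
          mul_le_mul (hCA w i) (ciSup_le fun j => hyB w j) hp2.le hCA0
        have h5 : w (lin (cz (a i)) (cz y)) ≤ CA * (C0 * R) *
            Real.exp (-((e (Sum.inl w) i : ℕ) : ℝ) / w.mult) := by
          have h6 : Real.exp (-((e (Sum.inl w) i : ℕ) : ℝ) / w.mult) =
              (Real.exp (((e (Sum.inl w) i : ℕ) : ℝ) / w.mult))⁻¹ := by
            rw [neg_div, Real.exp_neg]
          rw [h6, ← div_eq_mul_inv, le_div_iff₀ (Real.exp_pos _), mul_comm]
          exact h3.trans h4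
        refine h5.trans ?_
        have h7 : CA * (C0 * R) ≤ (n + 1) * CA * C0 * R := by
          have : 0 ≤ CA * (C0 * R) := by positivity
          nlinarith
        exact mul_le_mul_of_nonneg_right h7 (Real.exp_pos _).le
    · show w ((linZ (Pi.single j 1) y : 𝓞 K) : K) ≤ (n + 1) * CA * C0 * R * Real.exp (-((0 : ℕ) : ℝ) / w.mult)
      rw [linZ_single]
      simp only [Nat.cast_zero, neg_zero, zero_div, Real.exp_zero, mul_one]
      exact hmono (apply_nonneg w _) (hyB w j)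
  have hv : ∀ x ∈ A, ∀ v ∈ T, ∀ i, linZ (al a i) x ∈
      v.asIdeal ^ (Sum.elim (e (Sum.inr v)) (fun _ : Fin (n + 1) => 0) i) := by
    intro y hy v hv i
    obtain ⟨hy0, hyl, hyB, hyp⟩ := hA y hy
    rcases i with i | j
    · show linZ (a i) y ∈ v.asIdeal ^ (e (Sum.inr v) i)
      by_cases h0 : e (Sum.inr v) i = 0
      · rw [h0]; simp
      · have h1 := hyp (Sum.inr v) (Finset.mem_disjSum.mpr (Or.inr ⟨v, hv, rfl⟩)) i h0
        exact lin_mem v (ha i) hy0 (hyl i) h1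
    · simp
  have key := hcount R hR0 T (fun w => J (Sum.inl w)) (fun w => hJ𝒥 _) (fun v => J (Sum.inr v))
    (fun v => hJ𝒥 _) (fun w => Sum.elim (e (Sum.inl w)) (fun _ => 0)) (fun w => mx (e (Sum.inl w)))
    (fun v => Sum.elim (e (Sum.inr v)) (fun _ => 0)) (fun v => mx (e (Sum.inr v)))
    (by
      intro w i
      rcases i with i | j
      · exact le_mx _ i
      · exact Nat.zero_le _)
    (by
      intro v i
      rcases i with i | j
      · exact le_mx _ i
      · exact Nat.zero_le _)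
    (by
      rw [hlogR]
      rw [Finset.sum_disjSum] at hM
      have e1 : ∑ w : InfinitePlace K, (mx (e (Sum.inl w)) : ℝ) * Lu (Sum.inl w : Pl K) =
          ∑ w : InfinitePlace K, (mx (e (Sum.inl w)) : ℝ) :=
        Finset.sum_congr rfl fun w _ => mul_one _
      rw [e1] at hM
      exact hM)
    A hw hv
  refine key.trans (le_of_eq ?_)
  rw [hlogR, Finset.sum_disjSum]
  congr 2
  have e1 : ∑ w : InfinitePlace K, Lu (Sum.inl w : Pl K) * ∑ i, (e (Sum.inl w) i : ℝ) =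
      ∑ w : InfinitePlace K, ∑ i ∈ J (Sum.inl w),
        ((Sum.elim (e (Sum.inl w)) (fun _ : Fin (n + 1) => 0) i : ℕ) : ℝ) :=
    Finset.sum_congr rfl fun w _ => by rw [hsumJ]; exact one_mul _
  have e2 : ∑ v ∈ T, Lu (Sum.inr v : Pl K) * ∑ i, (e (Sum.inr v) i : ℝ) =
      ∑ v ∈ T, (∑ i ∈ J (Sum.inr v),
        ((Sum.elim (e (Sum.inr v)) (fun _ : Fin (n + 1) => 0) i : ℕ) : ℝ)) * Real.log (Nv v) :=
    Finset.sum_congr rfl fun v _ => by rw [hsumJ, mul_comm]; rfl
  rw [e1, e2]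
  ring

end Pool.Agent.W232.VA
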