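import Pool.Agent.W232.VA.H

set_option autoImplicit false
set_option linter.unusedSectionVars false

/-!
Arrangements, part I: selection of places, sums over profiles.
-/

namespace Pool.Agent.W232.VA

open NumberField IsDedekindDomain Finset Pool.Agent.H691R3 Height

variable {K : Type*} [Field K] [NumberField K] {n r : ℕ}

/-- a minimal subset with large sum -/
lemma select {ι : Type*} [DecidableEq ι] (V : Finset ι) (s : ι → ℝ) (hs : ∀ p ∈ V, 0 ≤ s p) {Θ : ℝ}
    (h : Θ ≤ ∑ p ∈ V, s p) :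
    ∃ V' ⊆ V, Θ ≤ ∑ p ∈ V', s p ∧ (∀ p ∈ V', 0 < s p) ∧ (V'.card ≤ 1 ∨ ∑ p ∈ V', s p ≤ 2 * Θ) := by
  classical
  set P : Finset (Finset ι) := V.powerset.filter fun W => Θ ≤ ∑ p ∈ W, s p with hP
  have hne : P.Nonempty := ⟨V, by rw [hP, Finset.mem_filter]; exact ⟨Finset.mem_powerset_self V, h⟩⟩
  obtain ⟨V', hV', hmin⟩ := Finset.exists_min_image P (fun W => W.card) hne
  rw [hP, Finset.mem_filter, Finset.mem_powerset] at hV'
  have hkey : ∀ p ∈ V', ∑ q ∈ V', s q - s p < Θ := by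
    intro p hp
    by_contra hcon
    rw [not_lt] at hcon
    have h1 : V'.erase p ∈ P := by
      rw [hP, Finset.mem_filter, Finset.mem_powerset]
      refine ⟨(Finset.erase_subset _ _).trans hV'.1, ?_⟩
      rw [Finset.sum_erase_eq_sub hp]
      exact hcon
    have h2 := hmin _ h1
    have h3 := Finset.card_erase_lt_of_mem hp
    omega
  refine ⟨V', hV'.1, hV'.2, fun p hp => by linarith [hkey p hp, hV'.2], ?_⟩
  by_cases hc : V'.card ≤ 1
  · exact Or.inl hc
  · right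
    rw [not_le, Finset.one_lt_card_iff] at hc
    obtain ⟨p, q, hp, hq, hpq⟩ := hc
    have h1 := hkey p hp
    have h2 := hkey q hq
    have h3 : s p + s q ≤ ∑ x ∈ V', s x := by
      have : ∑ x ∈ ({p, q} : Finset ι), s x ≤ ∑ x ∈ V', s x := by
        refine Finset.sum_le_sum_of_subset_of_nonneg ?_ fun x hx _ => hs x (hV'.1 hx)
        intro x hx
        rcases Finset.mem_insert.mp hx with rfl | hx
        · exact hp
        · rw [Finset.mem_singleton] at hx; rw [hx]; exact hq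
      rwa [Finset.sum_pair hpq] at this
    linarith

open Classical in
/-- the cost of a place in the truncated counting function -/
noncomputable def cost (S : Finset (HeightOneSpectrum (𝓞 K))) (p : Pl K) (e : Fin r → ℕ) : ℝ :=
  Sum.elim (fun _ : InfinitePlace K => (0 : ℝ))
    (fun v : HeightOneSpectrum (𝓞 K) => if v ∉ S ∧ e ≠ 0 then Real.log (Nv v) else 0) p

/-- the saving at a place -/
noncomputable def sav (S : Finset (HeightOneSpectrum (𝓞 K))) (p : Pl K) (e : Fin r → ℕ) : ℝ :=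
  Lu p * ∑ i, (e i : ℝ) - cost S p e

lemma cost_nonneg (S : Finset (HeightOneSpectrum (𝓞 K))) (p : Pl K) (e : Fin r → ℕ) : 0 ≤ cost S p e := by
  unfold cost
  rcases p with w | v
  · exact le_rfl
  · simp only [Sum.elim_inr]
    split_ifs
    · exact (log_Nv_pos v).le
    · exact le_rfl

lemma mx_le_sum (e : Fin r → ℕ) : mx e ≤ ∑ i, e i :=
  Finset.sup_le fun i _ => Finset.single_le_sum (f := e) (fun i _ => Nat.zero_le _) (Finset.mem_univ i)

lemma sum_pos_of_ne {e : Fin r → ℕ} (he : e ≠ 0) : 1 ≤ ∑ i, e i := by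
  obtain ⟨i, hi⟩ := Function.ne_iff.mp he
  have := Finset.single_le_sum (f := e) (fun _ _ => Nat.zero_le _) (Finset.mem_univ i)
  have h2 : e i ≠ 0 := hi
  omega

lemma sum_le_mul_mx (e : Fin r → ℕ) : ∑ i, e i ≤ r * mx e := by
  have h := Finset.sum_le_card_nsmul (univ : Finset (Fin r)) e (mx e) (fun i _ => le_mx e i)
  simpa using h

lemma sav_nonneg (S : Finset (HeightOneSpectrum (𝓞 K))) (p : Pl K) (e : Fin r → ℕ) : 0 ≤ sav S p e := by
  unfold sav cost
  have h0 : (0 : ℝ) ≤ ∑ i, (e i : ℝ) := Finset.sum_nonneg fun i _ => Nat.cast_nonneg _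
  rcases p with w | v
  · simp only [Sum.elim_inl, sub_zero]
    exact mul_nonneg (Lu_pos _).le h0
  · simp only [Sum.elim_inr]
    split_ifs with h
    · have h1 : (1 : ℝ) ≤ ∑ i, (e i : ℝ) := by exact_mod_cast sum_pos_of_ne h.2
      have h2 := log_Nv_pos v
      show 0 ≤ Real.log (Nv v) * ∑ i, (e i : ℝ) - Real.log (Nv v)
      nlinarith
    · rw [sub_zero]
      exact mul_nonneg (Lu_pos _).le h0

lemma mx_le_sav (S : Finset (HeightOneSpectrum (𝓞 K))) (p : Pl K) (e : Fin r → ℕ) (h : 0 < sav S p e) :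
    (mx e : ℝ) * Lu p ≤ 2 * sav S p e := by
  have h0 : (mx e : ℝ) ≤ ∑ i, (e i : ℝ) := by exact_mod_cast mx_le_sum e
  have hm : (0 : ℝ) ≤ mx e := Nat.cast_nonneg _
  unfold sav cost at *
  rcases p with w | v
  · simp only [Sum.elim_inl, sub_zero] at *
    have h2 := Lu_pos (Sum.inl w : Pl K)
    nlinarith
  · simp only [Sum.elim_inr] at *
    have h2 : 0 < Real.log (Nv v) := log_Nv_pos v
    split_ifs at * with h1
    · change 0 < Real.log (Nv v) * ∑ i, (e i : ℝ) - Real.log (Nv v) at h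
      show (mx e : ℝ) * Real.log (Nv v) ≤ 2 * (Real.log (Nv v) * ∑ i, (e i : ℝ) - Real.log (Nv v))
      have h4 : 1 < ∑ i, (e i : ℝ) := by
        by_contra hcon
        rw [not_lt] at hcon
        nlinarith
      have h5 : (2 : ℝ) ≤ ∑ i, (e i : ℝ) := by
        have h6 : 1 < ∑ i, e i := by exact_mod_cast h4
        have h7 : 2 ≤ ∑ i, e i := h6
        exact_mod_cast h7
      nlinarith
    · change 0 < Real.log (Nv v) * ∑ i, (e i : ℝ) - 0 at h
      show (mx e : ℝ) * Real.log (Nv v) ≤ 2 * (Real.log (Nv v) * ∑ i, (e i : ℝ) - 0)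
      nlinarith

lemma cost_zero (S : Finset (HeightOneSpectrum (𝓞 K))) (p : Pl K) : cost S p (0 : Fin r → ℕ) = 0 := by
  unfold cost
  rcases p with w | v
  · rfl
  · simp

lemma sav_zero (S : Finset (HeightOneSpectrum (𝓞 K))) (p : Pl K) : sav S p (0 : Fin r → ℕ) = 0 := by
  unfold sav
  rw [cost_zero]
  simp

lemma mx_zero : mx (0 : Fin r → ℕ) = 0 := by
  unfold mx
  have : (univ : Finset (Fin r)).sup (0 : Fin r → ℕ) ≤ 0 := Finset.sup_le fun i _ => le_rfl
  omega

lemma select' (S : Finset (HeightOneSpectrum (𝓞 K))) (P0 : Finset (Pl K)) (e : Pl K → Fin r → ℕ) {Θ Λ : ℝ}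
    (h1 : Θ ≤ ∑ p ∈ P0, sav S p (e p)) (h4 : 4 * Θ ≤ Λ) (hΛ : 0 ≤ Λ)
    (h2 : ∀ p ∈ P0, (mx (e p) : ℝ) * Lu p ≤ Λ) :
    ∃ e' : Pl K → Fin r → ℕ, (∀ p, e' p = e p ∨ e' p = 0) ∧ (∀ p ∉ P0, e' p = 0) ∧
      Θ ≤ ∑ p ∈ P0, sav S p (e' p) ∧ ∑ p ∈ P0, (mx (e' p) : ℝ) * Lu p ≤ Λ := by
  classical
  obtain ⟨V', hV', h3, hpos, hor⟩ := select P0 (fun p => sav S p (e p)) (fun p _ => sav_nonneg S p _) h1
  have hsum : ∀ f : Pl K → (Fin r → ℕ) → ℝ, (∀ p, f p 0 = 0) →
      ∑ p ∈ P0, f p (if p ∈ V' then e p else 0) = ∑ p ∈ V', f p (e p) := by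
    intro f hf
    rw [← Finset.sum_subset hV' (f := fun p => f p (if p ∈ V' then e p else 0))]
    · exact Finset.sum_congr rfl fun p hp => by rw [if_pos hp]
    · intro p _ hp
      simp only [if_neg hp, hf]
  refine ⟨fun p => if p ∈ V' then e p else 0, fun p => ?_, fun p hp => ?_, ?_, ?_⟩
  · by_cases hp : p ∈ V'
    · left; simp [hp]
    · right; simp [hp]
  · exact if_neg fun h => hp (hV' h)
  · rw [hsum (fun p e => sav S p e) (fun p => sav_zero S p)]
    exact h3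
  · rw [hsum (fun p e => (mx e : ℝ) * Lu p) (fun p => by rw [mx_zero]; simp)]
    rcases hor with hc | hc
    · rcases Finset.card_le_one_iff_subset_singleton.mp hc with ⟨q, hq⟩
      rcases Finset.subset_singleton_iff.mp hq with h | h
      · rw [h]; simpa using hΛ
      · rw [h, Finset.sum_singleton]
        exact h2 q (hV' (by rw [h]; exact Finset.mem_singleton_self q))
    · calc ∑ p ∈ V', (mx (e p) : ℝ) * Lu p ≤ ∑ p ∈ V', 2 * sav S p (e p) :=
            Finset.sum_le_sum fun p hp => mx_le_sav S p _ (hpos p hp)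
        _ = 2 * ∑ p ∈ V', sav S p (e p) := by rw [Finset.mul_sum]
        _ ≤ Λ := by linarith

/-- the box of profiles -/
def box (r E : ℕ) : Finset (Fin r → ℕ) := Fintype.piFinset fun _ => Finset.range (E + 1)

lemma mem_box {E : ℕ} {e : Fin r → ℕ} : e ∈ box r E ↔ ∀ i, e i ≤ E := by
  unfold box
  simp [Fintype.mem_piFinset]

lemma box_sum (r E : ℕ) {q : ℝ} (h0 : 0 ≤ q) (h1 : q < 1) :
    ∑ e ∈ box r E, q ^ (∑ i, e i) ≤ (1 / (1 - q)) ^ r := by
  have e1 : ∀ e : Fin r → ℕ, q ^ (∑ i, e i) = ∏ i, q ^ (e i) := fun e =>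
    (Finset.prod_pow_eq_pow_sum _ _ _).symm
  have e2 : ∑ e ∈ box r E, q ^ (∑ i, e i) = ∏ _i : Fin r, ∑ k ∈ Finset.range (E + 1), q ^ k := by
    rw [Finset.prod_univ_sum]
    exact Finset.sum_congr rfl fun e _ => e1 e
  rw [e2, Finset.prod_const, Finset.card_univ, Fintype.card_fin]
  refine pow_le_pow_left₀ (Finset.sum_nonneg fun k _ => pow_nonneg h0 k) ?_ r
  have hpos : 0 < 1 - q := by linarith
  rw [le_div_iff₀ hpos]
  have := geom_sum_mul_neg q (E + 1)
  rw [this]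
  have : 0 ≤ q ^ (E + 1) := pow_nonneg h0 _
  linarith

lemma box_sum_ne (r E : ℕ) {q q0 : ℝ} (h0 : 0 ≤ q) (hq : q ≤ q0) (h1 : q0 < 1) :
    ∑ e ∈ (box r E).erase 0, q ^ (∑ i, e i) ≤ (r * (1 / (1 - q0)) ^ r) * q := by
  have hq1 : q < 1 := lt_of_le_of_lt hq h1
  have hmem : (0 : Fin r → ℕ) ∈ box r E := mem_box.mpr fun i => Nat.zero_le _
  have e1 := Finset.add_sum_erase (box r E) (fun e : Fin r → ℕ => q ^ (∑ i, e i)) hmem
  have e2 := box_sum r E h0 hq1
  have e3 : q ^ (∑ i, (0 : Fin r → ℕ) i) = 1 := by simp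
  simp only [e3] at e1
  have hpos : 0 < 1 - q := by linarith
  have hpos0 : 0 < 1 - q0 := by linarith
  have e4 : 1 - (r : ℝ) * q ≤ (1 - q) ^ r := by
    have := one_add_mul_le_pow (a := -q) (by linarith) r
    have e5 : (1 : ℝ) + r * -q = 1 - r * q := by ring
    have e6 : (1 : ℝ) + -q = 1 - q := by ring
    rwa [e5, e6] at this
  have e7 : (1 / (1 - q)) ^ r - 1 ≤ (1 / (1 - q)) ^ r * (r * q) := by
    have h2 : (1 / (1 - q)) ^ r * (1 - q) ^ r = 1 := by
      rw [← mul_pow]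
      rw [one_div_mul_cancel hpos.ne', one_pow]
    have h3 : 0 < (1 / (1 - q)) ^ r := by positivity
    nlinarith
  have e8 : (1 / (1 - q)) ^ r ≤ (1 / (1 - q0)) ^ r := by
    refine pow_le_pow_left₀ (by positivity) ?_ r
    exact one_div_le_one_div_of_le hpos0 (by linarith)
  have e9 : (1 / (1 - q)) ^ r * (r * q) ≤ (1 / (1 - q0)) ^ r * (r * q) :=
    mul_le_mul_of_nonneg_right e8 (by positivity)
  linarith

end Pool.Agent.W232.VA
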