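import Pool.Agent.W232.VA.I
import Pool.Agent.H691R3.PrimeSum

set_option autoImplicit false
set_option linter.unusedSectionVars false

/-!
Arrangements, part J: the union bound over profiles.
-/

namespace Pool.Agent.W232.VA

open NumberField IsDedekindDomain Finset Pool.Agent.H691R3 Height

variable {K : Type*} [Field K] [NumberField K] {n r : ℕ}

lemma fin_places (L : ℝ) : {v : HeightOneSpectrum (𝓞 K) | Real.log (Nv v) ≤ L}.Finite := by
  have h := Ideal.finite_setOfPred_absNorm_le (S := 𝓞 K) ⌊Real.exp L⌋₊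
  refine Set.Finite.subset (h.preimage (f := fun v : HeightOneSpectrum (𝓞 K) => v.asIdeal)
    (fun v _ v' _ hvv => HeightOneSpectrum.ext hvv)) ?_
  intro v hv
  have hN : (0 : ℝ) < Nv v := by linarith [two_le_Nv v]
  have hv' : Real.log (Nv v) ≤ L := hv
  have h1 : Nv v ≤ Real.exp L := (Real.log_le_iff_le_exp hN).1 hv'
  show Ideal.absNorm v.asIdeal ≤ ⌊Real.exp L⌋₊
  exact Nat.le_floor h1

lemma log_two_le_Lu (p : Pl K) : Real.log 2 ≤ Lu p := by
  rcases p with w | v
  · show Real.log 2 ≤ 1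
    have := Real.log_two_lt_d9
    linarith
  · exact log_two_le_log_Nv v

/-- the weight of a profile at a place -/
noncomputable def fw (S : Finset (HeightOneSpectrum (𝓞 K))) (δ : ℝ) (p : Pl K) (e : Fin r → ℕ) : ℝ :=
  Real.exp (-(cost S p e) - δ * (Lu p * ∑ i, (e i : ℝ)))

open Classical in
/-- the total weight of a place -/
noncomputable def gw (S : Finset (HeightOneSpectrum (𝓞 K))) (δ : ℝ) (p : Pl K) : ℝ :=
  Sum.elim (fun _ : InfinitePlace K => (1 : ℝ))
    (fun v : HeightOneSpectrum (𝓞 K) => if v ∈ S then 1 else (nm v : ℝ) ^ (-(1 + δ))) p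

lemma gw_nonneg (S : Finset (HeightOneSpectrum (𝓞 K))) (δ : ℝ) (p : Pl K) : 0 ≤ gw S δ p := by
  unfold gw
  rcases p with w | v
  · exact zero_le_one
  · simp only [Sum.elim_inr]
    split_ifs
    · exact zero_le_one
    · positivity

/-- the constant in the bound for a place -/
noncomputable def Cd (r : ℕ) (δ : ℝ) : ℝ := r * (1 / (1 - Real.exp (-(δ * Real.log 2)))) ^ r

lemma Cd_nonneg (r : ℕ) {δ : ℝ} (hδ : 0 < δ) : 0 ≤ Cd r δ := by
  unfold Cd
  have h : Real.exp (-(δ * Real.log 2)) < 1 := by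
    rw [Real.exp_lt_one_iff]
    have := Real.log_pos (by norm_num : (1 : ℝ) < 2)
    nlinarith
  have : 0 < 1 - Real.exp (-(δ * Real.log 2)) := by linarith
  positivity

lemma fw_sum (S : Finset (HeightOneSpectrum (𝓞 K))) {δ : ℝ} (hδ : 0 < δ) (p : Pl K) (E : ℕ) :
    ∑ e ∈ box r E, fw S δ p e ≤ 1 + Cd r δ * gw S δ p := by
  classical
  have hmem : (0 : Fin r → ℕ) ∈ box r E := mem_box.mpr fun i => Nat.zero_le _
  rw [← Finset.add_sum_erase _ _ hmem]
  have h0 : fw S δ p (0 : Fin r → ℕ) = 1 := by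
    unfold fw
    rw [cost_zero]
    simp
  rw [h0]
  set q : ℝ := Real.exp (-(δ * Lu p)) with hq
  set g : ℝ := Sum.elim (fun _ : InfinitePlace K => (1 : ℝ))
    (fun v : HeightOneSpectrum (𝓞 K) => if v ∈ S then 1 else Real.exp (-Real.log (Nv v))) p with hg
  have hg0 : 0 ≤ g := by
    rw [hg]
    rcases p with w | v
    · exact zero_le_one
    · simp only [Sum.elim_inr]
      split_ifs
      · exact zero_le_one
      · exact (Real.exp_pos _).le
  have h1 : ∀ e ∈ (box r E).erase 0, fw S δ p e = g * q ^ (∑ i, e i) := by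
    intro e he
    have hne := (Finset.mem_erase.mp he).1
    have e1 : q ^ (∑ i, e i) = Real.exp (- (δ * (Lu p * ∑ i, (e i : ℝ)))) := by
      rw [hq, ← Real.exp_nat_mul]
      congr 1
      push_cast
      ring
    have e2 : g = Real.exp (-(cost S p e)) := by
      rw [hg]
      unfold cost
      rcases p with w | v
      · simp
      · simp only [Sum.elim_inr]
        by_cases hv : v ∈ S
        · simp [hv]
        · simp [hv, hne]
    rw [e1, e2, ← Real.exp_add]
    unfold fw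
    congr 1
  rw [Finset.sum_congr rfl h1, ← Finset.mul_sum]
  have hq0 : 0 ≤ q := (Real.exp_pos _).le
  have hqle : q ≤ Real.exp (-(δ * Real.log 2)) := by
    rw [hq]
    refine Real.exp_le_exp.mpr ?_
    have := log_two_le_Lu p
    nlinarith
  have hlt : Real.exp (-(δ * Real.log 2)) < 1 := by
    rw [Real.exp_lt_one_iff]
    have := Real.log_pos (by norm_num : (1 : ℝ) < 2)
    nlinarith
  have h2 := box_sum_ne r E hq0 hqle hlt
  have h3 : g * q ≤ gw S δ p := by
    have hq1 : q ≤ 1 := hqle.trans hlt.le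
    rw [hg]
    unfold gw
    rcases p with w | v
    · simpa using hq1
    · simp only [Sum.elim_inr]
      by_cases hv : v ∈ S
      · simpa [hv] using hq1
      · simp only [if_neg hv]
        rw [hq, ← Real.exp_add]
        have hN : (0 : ℝ) < Nv v := by linarith [two_le_Nv v]
        have hNn : ((nm v : ℕ) : ℝ) = Nv v := rfl
        rw [hNn, Real.rpow_def_of_pos hN]
        refine Real.exp_le_exp.mpr (le_of_eq ?_)
        show -Real.log (Nv v) + -(δ * Real.log (Nv v)) = Real.log (Nv v) * -(1 + δ)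
        ring
  have h4 : g * ∑ e ∈ (box r E).erase 0, q ^ (∑ i, e i) ≤ Cd r δ * (g * q) := by
    calc g * ∑ e ∈ (box r E).erase 0, q ^ (∑ i, e i) ≤ g * (Cd r δ * q) :=
          mul_le_mul_of_nonneg_left h2 hg0
      _ = _ := by ring
  have h5 := mul_le_mul_of_nonneg_left h3 (Cd_nonneg r hδ)
  linarith

lemma gw_sum (S : Finset (HeightOneSpectrum (𝓞 K))) {δ : ℝ} (hδ : 0 < δ) :
    ∃ H : ℝ, ∀ T : Finset (HeightOneSpectrum (𝓞 K)),
      ∑ p ∈ (univ : Finset (InfinitePlace K)).disjSum T, gw S δ p ≤ H := by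
  classical
  have hs := nm_summable (K := K) (x := 1 + δ) (by linarith)
  refine ⟨∑ _w : InfinitePlace K, (1 : ℝ) + ((S.card : ℝ) + ∑' v : HeightOneSpectrum (𝓞 K), (nm v : ℝ) ^ (-(1 + δ))),
    fun T => ?_⟩
  rw [Finset.sum_disjSum]
  refine add_le_add le_rfl ?_
  have h1 : ∀ v ∈ T, gw S δ (Sum.inr v) ≤ (if v ∈ S then (1 : ℝ) else 0) + (nm v : ℝ) ^ (-(1 + δ)) := by
    intro v _
    unfold gw
    simp only [Sum.elim_inr]
    have : (0 : ℝ) ≤ (nm v : ℝ) ^ (-(1 + δ)) := by positivity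
    split_ifs
    · linarith
    · linarith
  refine (Finset.sum_le_sum h1).trans ?_
  rw [Finset.sum_add_distrib]
  refine add_le_add ?_ (hs.sum_le_tsum T fun v _ => by positivity)
  rw [Finset.sum_ite_mem, Finset.sum_const, nsmul_eq_mul, mul_one]
  exact_mod_cast Finset.card_le_card Finset.inter_subset_right

lemma sum_prod_le {ι β : Type*} [DecidableEq ι] (P0 : Finset ι) (b : Finset β) (b0 : β)
    (Φ : Finset (ι → β)) (f : ι → β → ℝ) (hf : ∀ p x, 0 ≤ f p x)
    (hΦ : ∀ e ∈ Φ, (∀ p ∈ P0, e p ∈ b) ∧ ∀ p ∉ P0, e p = b0) :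
    ∑ e ∈ Φ, ∏ p ∈ P0, f p (e p) ≤ ∏ p ∈ P0, ∑ x ∈ b, f p x := by
  classical
  rw [Finset.prod_sum]
  have h1 : ∀ e ∈ Φ, ∏ p ∈ P0, f p (e p) =
      ∏ x ∈ P0.attach, f x.1 ((fun (p : ι) (_ : p ∈ P0) => e p) x.1 x.2) := fun e _ =>
    (Finset.prod_attach P0 (fun p => f p (e p))).symm
  rw [Finset.sum_congr rfl h1]
  have hinj : Set.InjOn (fun (e : ι → β) (p : ι) (_ : p ∈ P0) => e p) (Φ : Set (ι → β)) := by
    intro e he e' he' h
    ext p
    by_cases hp : p ∈ P0
    · exact congrFun (congrFun h p) hp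
    · rw [(hΦ e he).2 p hp, (hΦ e' he').2 p hp]
  have h2 : ∑ e ∈ Φ, ∏ x ∈ P0.attach, f x.1 ((fun (p : ι) (_ : p ∈ P0) => e p) x.1 x.2) =
      ∑ π ∈ Φ.image (fun (e : ι → β) (p : ι) (_ : p ∈ P0) => e p), ∏ x ∈ P0.attach, f x.1 (π x.1 x.2) :=
    (Finset.sum_image (f := fun π : (∀ p : ι, p ∈ P0 → β) => ∏ x ∈ P0.attach, f x.1 (π x.1 x.2)) hinj).symm
  rw [h2]
  refine Finset.sum_le_sum_of_subset_of_nonneg ?_ fun π _ _ => Finset.prod_nonneg fun x _ => hf _ _
  intro π hπ
  obtain ⟨e, he, rfl⟩ := Finset.mem_image.mp hπ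
  rw [Finset.mem_pi]
  intro p hp
  exact (hΦ e he).1 p hp

end Pool.Agent.W232.VA
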