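import Pool.Agent.W232.VA.J

set_option autoImplicit false
set_option linter.unusedSectionVars false

/-!
Arrangements, part K: the bound for integral points with large savings.
-/

namespace Pool.Agent.W232.VA

open NumberField IsDedekindDomain Finset Pool.Agent.H691R3 Height

variable {K : Type*} [Field K] [NumberField K] {n r : ℕ}

lemma sav_le_of_subset (S : Finset (HeightOneSpectrum (𝓞 K))) (e : Pl K → Fin r → ℕ)
    (T T' : Finset (HeightOneSpectrum (𝓞 K))) (h : ∀ v, e (Sum.inr v) ≠ 0 → v ∈ T') :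
    ∑ p ∈ (univ : Finset (InfinitePlace K)).disjSum T, sav S p (e p) ≤
      ∑ p ∈ (univ : Finset (InfinitePlace K)).disjSum T', sav S p (e p) := by
  classical
  rw [Finset.sum_disjSum, Finset.sum_disjSum]
  refine add_le_add le_rfl ?_
  have h1 : ∑ v ∈ T, sav S (Sum.inr v) (e (Sum.inr v)) =
      ∑ v ∈ T.filter (· ∈ T'), sav S (Sum.inr v) (e (Sum.inr v)) := by
    symm
    refine Finset.sum_subset (Finset.filter_subset _ _) fun v hv hv' => ?_
    have h2 : v ∉ T' := fun h3 => hv' (Finset.mem_filter.mpr ⟨hv, h3⟩)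
    have h3 : e (Sum.inr v) = 0 := by
      by_contra hne
      exact h2 (h v hne)
    rw [h3, sav_zero]
  rw [h1]
  refine Finset.sum_le_sum_of_subset_of_nonneg ?_ fun v _ _ => sav_nonneg S _ _
  intro v hv
  exact (Finset.mem_filter.mp hv).2

lemma prof_zero' (a : Fin r → Fin (n + 1) → K) : Prof a (0 : Fin r → ℕ) :=
  ⟨∅, linearIndependent_empty_type, fun _ _ => rfl⟩

theorem shell (a : Fin r → Fin (n + 1) → 𝓞 K) (ha : ∀ i, cz (a i) ≠ 0)
    (S : Finset (HeightOneSpectrum (𝓞 K))) (C0 C2 c κ δ : ℝ) (hC0 : 1 ≤ C0) (hC2 : 0 ≤ C2)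
    (hκ : κ ≤ 1 / 4) (hc : 0 ≤ c) (hδ : 0 < δ) :
    ∃ M : ℝ, 0 < M ∧ ∀ B : ℝ, 1 ≤ B → ∀ A : Finset (Fin (n + 1) → 𝓞 K),
      (∀ y ∈ A, cz y ≠ 0 ∧ (∀ i, lin (cz (a i)) (cz y) ≠ 0) ∧
        (∀ w : InfinitePlace K, ∀ j, w (cz y j) ≤ C0 * B ^ (1 / (Module.finrank ℚ K : ℝ))) ∧
        (∀ p i, lamP p (cz (a i)) (cz y) ≤ Real.log B + C2) ∧
        ∃ e : Pl K → Fin r → ℕ, (∀ p, Prof (fun i => cz (a i)) (e p)) ∧
          (∀ p i, e p i ≠ 0 → (e p i : ℝ) * Lu p ≤ lamP p (cz (a i)) (cz y)) ∧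
          ∃ T : Finset (HeightOneSpectrum (𝓞 K)),
            κ * Real.log B - c ≤ ∑ p ∈ (univ : Finset (InfinitePlace K)).disjSum T, sav S p (e p)) →
      (A.card : ℝ) ≤ M * B ^ ((n : ℝ) + 1 - κ + δ) := by
  classical
  obtain ⟨C, hC, hcount⟩ := count_prof a ha C0 C2 hC0
  set δ' : ℝ := δ / (r + 1) with hδ'
  have hr1 : (0 : ℝ) < (r : ℝ) + 1 := by positivity
  have hδ'0 : 0 < δ' := by positivity
  have hδ'r : δ' * r ≤ δ := by
    rw [hδ', div_mul_eq_mul_div, div_le_iff₀ hr1]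
    nlinarith
  obtain ⟨H, hH⟩ := gw_sum (K := K) S hδ'0
  refine ⟨C * Real.exp (c + δ * C2) * Real.exp (Cd r δ' * H), by positivity, ?_⟩
  intro B hB A hA
  have hB0 : 0 < B := by linarith
  have hlogB : 0 ≤ Real.log B := Real.log_nonneg hB
  set Λ : ℝ := Real.log B + C2 with hΛ
  have hΛ0 : 0 ≤ Λ := by linarith
  set T0 : Finset (HeightOneSpectrum (𝓞 K)) := (fin_places Λ).toFinset with hT0
  set P0 : Finset (Pl K) := (univ : Finset (InfinitePlace K)).disjSum T0 with hP0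
  set Θ : ℝ := κ * Real.log B - c with hΘ
  have hlog2 : 0 < Real.log 2 := Real.log_pos (by norm_num)
  set E : ℕ := ⌊Λ / Real.log 2⌋₊ with hE
  -- the truncated profiles
  have hex : ∀ y : Fin (n + 1) → 𝓞 K, ∃ e : Pl K → Fin r → ℕ, y ∈ A →
      (∀ p, Prof (fun i => cz (a i)) (e p)) ∧
      (∀ p i, e p i ≠ 0 → (e p i : ℝ) * Lu p ≤ lamP p (cz (a i)) (cz y)) ∧
      (∀ p ∉ P0, e p = 0) ∧ Θ ≤ ∑ p ∈ P0, sav S p (e p) ∧
      ∑ p ∈ P0, (mx (e p) : ℝ) * Lu p ≤ Λ ∧ ∀ p, e p ∈ box r E := by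
    intro y
    by_cases hy : y ∈ A
    · obtain ⟨hy0, hyl, hyB, hyL, e, he1, he2, T, he3⟩ := hA y hy
      have hle : ∀ p i, (e p i : ℝ) * Lu p ≤ Λ := by
        intro p i
        by_cases h0 : e p i = 0
        · rw [h0]; simpa using hΛ0
        · exact (he2 p i h0).trans (hyL p i)
      have hmem : ∀ v, e (Sum.inr v) ≠ 0 → v ∈ T0 := by
        intro v hv
        rw [hT0, Set.Finite.mem_toFinset]
        obtain ⟨i, hi⟩ := Function.ne_iff.mp hv
        have h1 := hle (Sum.inr v) i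
        have h2 : (1 : ℝ) ≤ e (Sum.inr v) i := by exact_mod_cast Nat.one_le_iff_ne_zero.mpr hi
        have h3 := Lu_pos (Sum.inr v : Pl K)
        show Real.log (Nv v) ≤ Λ
        have h4 : Lu (Sum.inr v : Pl K) = Real.log (Nv v) := rfl
        rw [← h4]
        nlinarith
      have h1 : Θ ≤ ∑ p ∈ P0, sav S p (e p) := he3.trans (sav_le_of_subset S e T T0 hmem)
      have hmx : ∀ p, (mx (e p) : ℝ) * Lu p ≤ Λ := by
        intro p
        rcases Nat.eq_zero_or_pos (mx (e p)) with h0 | h0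
        · rw [h0]; simpa using hΛ0
        · have hr0 : (univ : Finset (Fin r)).Nonempty := by
            by_contra hne
            rw [Finset.not_nonempty_iff_eq_empty] at hne
            have : mx (e p) = 0 := by unfold mx; rw [hne]; rfl
            omega
          obtain ⟨i, _, hi⟩ := Finset.exists_mem_eq_sup univ hr0 (e p)
          have : mx (e p) = e p i := hi
          rw [this]
          exact hle p i
      have h4Θ : 4 * Θ ≤ Λ := by
        have : κ * Real.log B ≤ 1 / 4 * Real.log B := mul_le_mul_of_nonneg_right hκ hlogB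
        rw [hΘ, hΛ]
        linarith
      obtain ⟨e', g1, g2, g3, g4⟩ := select' S P0 e h1 h4Θ hΛ0 (fun p _ => hmx p)
      refine ⟨e', fun _ => ⟨fun p => ?_, fun p i hi => ?_, g2, g3, g4, fun p => ?_⟩⟩
      · rcases g1 p with h | h
        · rw [h]; exact he1 p
        · rw [h]; exact prof_zero' _
      · rcases g1 p with h | h
        · rw [h] at hi ⊢; exact he2 p i hi
        · rw [h] at hi; exact absurd rfl hi
      · rw [mem_box]
        intro i
        rcases g1 p with h | h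
        · rw [h]
          refine Nat.le_floor ?_
          rw [le_div_iff₀ hlog2]
          have h5 := log_two_le_Lu p
          have h6 := hle p i
          have h7 : (0 : ℝ) ≤ e p i := Nat.cast_nonneg _
          nlinarith
        · rw [h]; exact Nat.zero_le _
    · exact ⟨fun _ => 0, fun h => absurd h hy⟩
  choose ε hε using hex
  set Φ : Finset (Pl K → Fin r → ℕ) := A.image ε with hΦ
  have hcard : A.card = ∑ e ∈ Φ, (A.filter fun y => ε y = e).card :=
    Finset.card_eq_sum_card_fiberwise fun y hy => Finset.mem_image_of_mem _ hy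
  -- the bound for one profile
  have hone : ∀ e ∈ Φ, ((A.filter fun y => ε y = e).card : ℝ) ≤
      C * Real.exp ((n + 1) * Real.log B - Θ + δ' * (r * Λ)) * ∏ p ∈ P0, fw S δ' p (e p) := by
    intro e he
    obtain ⟨y0, hy0, rfl⟩ := Finset.mem_image.mp he
    obtain ⟨k1, k2, k3, k4, k5, k6⟩ := hε y0 hy0
    have h1 := hcount B hB T0 (ε y0) k1 (by rw [← hP0]; exact k5) (A.filter fun y => ε y = ε y0) (by
      intro y hy
      rw [Finset.mem_filter] at hy
      obtain ⟨f1, f2, f3, f4, f5⟩ := hA y hy.1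
      obtain ⟨g1, g2, g3, g4, g5, g6⟩ := hε y hy.1
      refine ⟨f1, f2, f3, fun p _ i hi => ?_⟩
      rw [← hy.2] at hi ⊢
      exact g2 p i hi)
    refine h1.trans ?_
    rw [mul_assoc C]
    refine mul_le_mul_of_nonneg_left ?_ hC.le
    have e1 : ∏ p ∈ P0, fw S δ' p (ε y0 p) =
        Real.exp (∑ p ∈ P0, (-(cost S p (ε y0 p)) - δ' * (Lu p * ∑ i, (ε y0 p i : ℝ)))) := by
      rw [Real.exp_sum]
      rfl
    rw [e1, ← Real.exp_add, ← hP0]
    refine Real.exp_le_exp.mpr ?_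
    have e2 : ∑ p ∈ P0, sav S p (ε y0 p) =
        ∑ p ∈ P0, Lu p * ∑ i, (ε y0 p i : ℝ) - ∑ p ∈ P0, cost S p (ε y0 p) := by
      unfold sav
      rw [Finset.sum_sub_distrib]
    have e3 : ∑ p ∈ P0, (-(cost S p (ε y0 p)) - δ' * (Lu p * ∑ i, (ε y0 p i : ℝ))) =
        -∑ p ∈ P0, cost S p (ε y0 p) - δ' * ∑ p ∈ P0, Lu p * ∑ i, (ε y0 p i : ℝ) := by
      rw [Finset.sum_sub_distrib, Finset.sum_neg_distrib, Finset.mul_sum]
    have e4 : ∑ p ∈ P0, Lu p * ∑ i, (ε y0 p i : ℝ) ≤ r * Λ := by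
      calc ∑ p ∈ P0, Lu p * ∑ i, (ε y0 p i : ℝ) ≤ ∑ p ∈ P0, r * ((mx (ε y0 p) : ℝ) * Lu p) := by
            refine Finset.sum_le_sum fun p _ => ?_
            have f1 : (∑ i, (ε y0 p i : ℝ)) ≤ r * mx (ε y0 p) := by
              exact_mod_cast sum_le_mul_mx (ε y0 p)
            have f2 := mul_le_mul_of_nonneg_left f1 (Lu_pos p).le
            linarith
        _ = r * ∑ p ∈ P0, (mx (ε y0 p) : ℝ) * Lu p := by rw [Finset.mul_sum]
        _ ≤ r * Λ := mul_le_mul_of_nonneg_left k5 (Nat.cast_nonneg _)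
    rw [e3]
    rw [e2] at k4
    have e5 := mul_le_mul_of_nonneg_left e4 hδ'0.le
    linarith
  have hsum : ∑ e ∈ Φ, ∏ p ∈ P0, fw S δ' p (e p) ≤ Real.exp (Cd r δ' * H) := by
    refine (sum_prod_le P0 (box r E) 0 Φ (fun p e => fw S δ' p e)
      (fun p e => (Real.exp_pos _).le) ?_).trans ?_
    · intro e he
      obtain ⟨y0, hy0, rfl⟩ := Finset.mem_image.mp he
      obtain ⟨k1, k2, k3, k4, k5, k6⟩ := hε y0 hy0
      exact ⟨fun p _ => k6 p, k3⟩
    · calc ∏ p ∈ P0, ∑ e ∈ box r E, fw S δ' p e ≤ ∏ p ∈ P0, Real.exp (Cd r δ' * gw S δ' p) := by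
            refine Finset.prod_le_prod (fun p _ => Finset.sum_nonneg fun e _ => (Real.exp_pos _).le)
              fun p _ => ?_
            refine (fw_sum S hδ'0 p E).trans ?_
            have := Real.add_one_le_exp (Cd r δ' * gw S δ' p)
            linarith
        _ = Real.exp (Cd r δ' * ∑ p ∈ P0, gw S δ' p) := by
            rw [Finset.mul_sum, Real.exp_sum]
        _ ≤ Real.exp (Cd r δ' * H) :=
            Real.exp_le_exp.mpr (mul_le_mul_of_nonneg_left (hH T0) (Cd_nonneg r hδ'0))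
  have hfin : (A.card : ℝ) ≤ C * Real.exp ((n + 1) * Real.log B - Θ + δ' * (r * Λ)) *
      Real.exp (Cd r δ' * H) := by
    rw [hcard]
    push_cast
    refine (Finset.sum_le_sum hone).trans ?_
    rw [← Finset.mul_sum]
    exact mul_le_mul_of_nonneg_left hsum (by positivity)
  refine hfin.trans ?_
  have hexp : Real.exp ((n + 1) * Real.log B - Θ + δ' * (r * Λ)) ≤
      Real.exp (c + δ * C2) * B ^ ((n : ℝ) + 1 - κ + δ) := by
    rw [Real.rpow_def_of_pos hB0, ← Real.exp_add]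
    refine Real.exp_le_exp.mpr ?_
    have h1 : δ' * (r * Λ) ≤ δ * Λ := by
      have := mul_le_mul_of_nonneg_right hδ'r hΛ0
      linarith
    rw [hΘ]
    rw [hΛ] at h1 ⊢
    linarith
  calc C * Real.exp ((n + 1) * Real.log B - Θ + δ' * (r * Λ)) * Real.exp (Cd r δ' * H)
      ≤ C * (Real.exp (c + δ * C2) * B ^ ((n : ℝ) + 1 - κ + δ)) * Real.exp (Cd r δ' * H) := by
        gcongr
    _ = _ := by ring

end Pool.Agent.W232.VA
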