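import Pool.Agent.W232.VA.K
import Pool.Agent.H57R3.VJ.L

set_option autoImplicit false
set_option linter.unusedSectionVars false

/-!
Arrangements, part L: from points of projective space to integral points.
-/

namespace Pool.Agent.W232.VA

open NumberField IsDedekindDomain Finset Pool.Agent.H691R3 Height LinearAlgebra.Projectivization

variable {K : Type*} [Field K] [NumberField K] {n r : ℕ}

/-- the height with respect to the arrangement: the sum of the local heights `wt` over all places -/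
noncomputable def hW (a : Fin r → Fin (n + 1) → K) (x : Fin (n + 1) → K) : ℝ :=
  ∑ w : InfinitePlace K, (w.mult : ℝ) * wt w.1 a x + ∑ᶠ v : HeightOneSpectrum (𝓞 K), wt (fv v) a x

open Classical in
/-- the truncated counting function of the arrangement, primes outside `S` -/
noncomputable def N1 (S : Finset (HeightOneSpectrum (𝓞 K))) (a : Fin r → Fin (n + 1) → K)
    (x : Fin (n + 1) → K) : ℝ :=
  ∑ᶠ v : HeightOneSpectrum (𝓞 K), if v ∉ S ∧ ∃ i, 0 < lam (fv v) (a i) x then Real.log (Nv v) else 0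

/-- points of height at most `B` off the arrangement at which the counting function is small -/
def Exc (S : Finset (HeightOneSpectrum (𝓞 K))) (a : Fin r → Fin (n + 1) → K) (κ c B : ℝ) :
    Set (ℙ K (Fin (n + 1) → K)) :=
  {P | (∀ i, lin (a i) P.rep ≠ 0) ∧ P.mulHeight ≤ B ∧
    N1 S a P.rep ≤ hW a P.rep - κ * Real.log P.mulHeight + c}

lemma lam_congr (f : AbsoluteValue K ℝ) {s t : K} (hs : s ≠ 0) (ht : t ≠ 0) {a a' x x' : Fin (n + 1) → K}
    (h1 : a' = s • a) (h2 : x' = t • x) : lam f a' x' = lam f a x := by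
  rw [h1, h2, lam_smul_left f hs, lam_smul_right f ht]

lemma wt_congr (f : AbsoluteValue K ℝ) {a a' : Fin r → Fin (n + 1) → K} {x x' : Fin (n + 1) → K}
    (h : ∀ i, lam f (a' i) x' = lam f (a i) x)
    (hl : ∀ I : Finset (Fin r), LinearIndependent K (fun i : I => a' i) ↔
      LinearIndependent K (fun i : I => a i)) : wt f a' x' = wt f a x := by
  apply le_antisymm
  · obtain ⟨I, hI, he⟩ := wt_att f a' x'
    rw [he, Finset.sum_congr rfl fun i _ => h i]
    exact le_wt f a x I ((hl I).mp hI)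
  · obtain ⟨I, hI, he⟩ := wt_att f a x
    rw [he, ← Finset.sum_congr rfl fun i _ => h i]
    exact le_wt f a' x' I ((hl I).mpr hI)

lemma exists_scale (a : Fin r → Fin (n + 1) → K) :
    ∃ s : K, s ≠ 0 ∧ ∃ b : Fin r → Fin (n + 1) → 𝓞 K, ∀ i, cz (b i) = s • a i := by
  obtain ⟨s, hs⟩ := IsLocalization.exist_integer_multiples_of_finite (nonZeroDivisors (𝓞 K))
    (fun q : Fin r × Fin (n + 1) => a q.1 q.2)
  choose b hb using fun q => hs q
  refine ⟨((s : 𝓞 K) : K), ?_, fun i j => b (i, j), fun i => ?_⟩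
  · exact RingOfIntegers.coe_ne_zero_iff.mpr (nonZeroDivisors.ne_zero s.2)
  · ext j
    have := hb (i, j)
    unfold cz
    rw [Pi.smul_apply, smul_eq_mul]
    rw [Algebra.smul_def] at this
    exact this

lemma indep_smul (a : Fin r → Fin (n + 1) → K) {s : K} (hs : s ≠ 0) (I : Finset (Fin r)) :
    LinearIndependent K (fun i : I => s • a i) ↔ LinearIndependent K (fun i : I => a i) := by
  have h := LinearIndependent.units_smul_iff (R := K) (v := fun i : I => a i) (w := fun _ : I => Units.mk0 s hs)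
  exact h

/-- the finite set of primes with nonzero local heights -/
lemma exists_T {a : Fin r → Fin (n + 1) → K} (ha : ∀ i, a i ≠ 0) {x : Fin (n + 1) → K} (hx : x ≠ 0)
    (hl : ∀ i, lin (a i) x ≠ 0) :
    ∃ T : Finset (HeightOneSpectrum (𝓞 K)), ∀ v ∉ T, ∀ i, lam (fv v) (a i) x = 0 := by
  classical
  have hf : (⋃ i : Fin r, {v : HeightOneSpectrum (𝓞 K) | lam (fv v) (a i) x ≠ 0}).Finite :=
    Set.finite_iUnion fun i => lam_support (ha i) hx (hl i)
  refine ⟨hf.toFinset, fun v hv i => ?_⟩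
  by_contra hne
  apply hv
  rw [Set.Finite.mem_toFinset, Set.mem_iUnion]
  exact ⟨i, hne⟩

lemma wt_zero {f : AbsoluteValue K ℝ} {a : Fin r → Fin (n + 1) → K} {x : Fin (n + 1) → K}
    (h : ∀ i, lam f (a i) x = 0) : wt f a x = 0 := by
  obtain ⟨I, _, he⟩ := wt_att f a x
  rw [he]
  exact Finset.sum_eq_zero fun i _ => h i

lemma hW_eq {a : Fin r → Fin (n + 1) → K} {x : Fin (n + 1) → K} {T : Finset (HeightOneSpectrum (𝓞 K))}
    (hT : ∀ v ∉ T, ∀ i, lam (fv v) (a i) x = 0) :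
    hW a x = ∑ p ∈ (univ : Finset (InfinitePlace K)).disjSum T, wtP p a x := by
  rw [Finset.sum_disjSum]
  unfold hW
  congr 1
  rw [finsum_eq_sum_of_support_subset (s := T)]
  · rfl
  · intro v hv
    by_contra hne
    exact hv (wt_zero (hT v hne))

lemma cost_le_N1 (S : Finset (HeightOneSpectrum (𝓞 K))) {a : Fin r → Fin (n + 1) → K} {x : Fin (n + 1) → K}
    {T : Finset (HeightOneSpectrum (𝓞 K))} (hT : ∀ v ∉ T, ∀ i, lam (fv v) (a i) x = 0)
    {e : Pl K → Fin r → ℕ} (he : ∀ p i, e p i ≠ 0 → (e p i : ℝ) * Lu p ≤ lamP p (a i) x) :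
    ∑ p ∈ (univ : Finset (InfinitePlace K)).disjSum T, cost S p (e p) ≤ N1 S a x := by
  classical
  have h1 : N1 S a x = ∑ v ∈ T, if v ∉ S ∧ ∃ i, 0 < lam (fv v) (a i) x then Real.log (Nv v) else 0 := by
    unfold N1
    rw [finsum_eq_sum_of_support_subset (s := T)]
    intro v hv
    by_contra hne
    rw [Function.mem_support] at hv
    apply hv
    rw [if_neg]
    rintro ⟨_, i, hi⟩
    rw [hT v hne i] at hi
    exact lt_irrefl _ hi
  rw [h1, Finset.sum_disjSum]
  have h2 : ∑ w : InfinitePlace K, cost S (Sum.inl w) (e (Sum.inl w)) = 0 :=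
    Finset.sum_eq_zero fun w _ => rfl
  rw [h2, zero_add]
  refine Finset.sum_le_sum fun v _ => ?_
  unfold cost
  simp only [Sum.elim_inr]
  by_cases h : v ∉ S ∧ e (Sum.inr v) ≠ 0
  · rw [if_pos h]
    obtain ⟨i, hi⟩ := Function.ne_iff.mp h.2
    have h3 := he (Sum.inr v) i hi
    have h4 : (0 : ℝ) < e (Sum.inr v) i := by exact_mod_cast Nat.pos_of_ne_zero hi
    have h5 := mul_pos h4 (Lu_pos (Sum.inr v : Pl K))
    have h6 : lamP (Sum.inr v : Pl K) (a i) x = lam (fv v) (a i) x := rfl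
    rw [h6] at h3
    rw [if_pos ⟨h.1, i, by linarith⟩]
  · rw [if_neg h]
    split_ifs
    · exact (log_Nv_pos v).le
    · exact le_rfl

theorem shell_proj (a : Fin r → Fin (n + 1) → K) (ha : ∀ i, a i ≠ 0)
    (S : Finset (HeightOneSpectrum (𝓞 K))) (κ c δ : ℝ) (hκ0 : 0 ≤ κ) (hκ : κ ≤ 1 / 4) (hδ : 0 < δ) :
    ∃ M : ℝ, 0 < M ∧ ∀ B : ℝ, 1 ≤ B → ∀ F : Finset (ℙ K (Fin (n + 1) → K)),
      (∀ P ∈ F, P ∈ Exc S a κ c B ∧ B / 2 ≤ P.mulHeight) →
      (F.card : ℝ) ≤ M * B ^ ((n : ℝ) + 1 - κ + δ) := by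
  classical
  obtain ⟨s, hs, b, hb⟩ := exists_scale a
  obtain ⟨CR0, hCR0, hrep⟩ := rep K (n := n)
  obtain ⟨CA, hCA1, hCA⟩ := exists_CA b
  set CR : ℝ := max CR0 1 with hCR
  have hCR1 : 1 ≤ CR := le_max_right _ _
  have hb0 : ∀ i, cz (b i) ≠ 0 := fun i => by
    rw [hb i]; exact smul_ne_zero hs (ha i)
  have hn1 : (1 : ℝ) ≤ (n : ℝ) + 1 := by
    have : (0 : ℝ) ≤ n := Nat.cast_nonneg n
    linarith
  set X0 : ℝ := (n + 1) * CA * CR with hX0
  have hX01 : 1 ≤ X0 := by
    have h1 : 1 ≤ (n + 1) * CA := one_le_mul_of_one_le_of_one_le hn1 hCA1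
    exact one_le_mul_of_one_le_of_one_le h1 hCR1
  have hd : (0 : ℝ) < (Module.finrank ℚ K : ℝ) := by exact_mod_cast Module.finrank_pos
  set c1 : ℝ := Real.log 2 + |c| + ∑ _w : InfinitePlace K, (r : ℝ) with hc1
  have hlog2 : 0 ≤ Real.log 2 := Real.log_nonneg (by norm_num)
  have hc10 : 0 ≤ c1 := by positivity
  obtain ⟨M, hM, hshell⟩ := shell b hb0 S CR ((Module.finrank ℚ K : ℝ) * Real.log X0) c1 κ δ hCR1
    (mul_nonneg hd.le (Real.log_nonneg hX01)) hκ hc10 hδ
  refine ⟨M, hM, ?_⟩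
  intro B hB F hF
  have hB0 : 0 < B := by linarith
  have hex : ∀ P : ℙ K (Fin (n + 1) → K), ∃ (t : K) (y : Fin (n + 1) → 𝓞 K), t ≠ 0 ∧ cz y = t • P.rep ∧
      ∀ (w : InfinitePlace K) (j : Fin (n + 1)), w (cz y j) ≤
        CR * mulHeight P.rep ^ (1 / (Module.finrank ℚ K : ℝ)) := by
    intro P
    obtain ⟨t, ht, y, hy, hyw⟩ := hrep P.rep P.rep_nonzero
    refine ⟨t, y, ht, ?_, fun w j => (hyw w j).trans ?_⟩
    · ext j
      exact hy j
    · exact mul_le_mul_of_nonneg_right (le_max_left _ _) (Real.rpow_nonneg (by positivity) _)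
  choose t y ht hty hyw using hex
  have hinj : Set.InjOn y (F : Set (ℙ K (Fin (n + 1) → K))) := by
    intro P _ Q _ hPQ
    have h1 : t P • P.rep = t Q • Q.rep := by rw [← hty, ← hty, hPQ]
    rw [← P.mk_rep, ← Q.mk_rep]
    refine (Projectivization.mk_eq_mk_iff' K _ _ P.rep_nonzero Q.rep_nonzero).mpr ⟨(t P)⁻¹ * t Q, ?_⟩
    rw [mul_smul, ← h1, smul_smul, inv_mul_cancel₀ (ht P), one_smul]
  rw [← Finset.card_image_of_injOn hinj]
  refine hshell B hB _ ?_
  intro z hz
  obtain ⟨P, hP, rfl⟩ := Finset.mem_image.mp hz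
  obtain ⟨⟨hlin, hHB, hbad⟩, hHB2⟩ := hF P hP
  have hmh : P.mulHeight = mulHeight P.rep := by
    conv_lhs => rw [← P.mk_rep]
    rw [Projectivization.mulHeight_mk]
  have hH1 : 1 ≤ mulHeight P.rep := one_le_mulHeight P.rep
  have hR : mulHeight P.rep ^ (1 / (Module.finrank ℚ K : ℝ)) ≤ B ^ (1 / (Module.finrank ℚ K : ℝ)) := by
    refine Real.rpow_le_rpow (by positivity) ?_ (by positivity)
    rw [← hmh]; exact hHB
  have hyB : ∀ (w : InfinitePlace K) (j : Fin (n + 1)), w (cz (y P) j) ≤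
      CR * B ^ (1 / (Module.finrank ℚ K : ℝ)) := fun w j =>
    (hyw P w j).trans (mul_le_mul_of_nonneg_left hR (by linarith))
  have hlam : ∀ (f : AbsoluteValue K ℝ) i, lam f (cz (b i)) (cz (y P)) = lam f (a i) P.rep := fun f i =>
    lam_congr f hs (ht P) (hb i) (hty P)
  have hindep : ∀ I : Finset (Fin r), LinearIndependent K (fun i : I => cz (b i)) ↔
      LinearIndependent K (fun i : I => a i) := by
    intro I
    have : (fun i : I => cz (b i)) = fun i : I => s • a i := funext fun i => hb i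
    rw [this]
    exact indep_smul a hs I
  have hy0 : cz (y P) ≠ 0 := by
    rw [hty]; exact smul_ne_zero (ht P) P.rep_nonzero
  have hyl : ∀ i, lin (cz (b i)) (cz (y P)) ≠ 0 := by
    intro i
    rw [hb, hty, lin_smul_left, lin_smul_right]
    exact mul_ne_zero hs (mul_ne_zero (ht P) (hlin i))
  have hCA0 : 0 ≤ CA := by linarith
  have hRpos : 0 < B ^ (1 / (Module.finrank ℚ K : ℝ)) := Real.rpow_pos_of_pos hB0 _
  have hR1 : 1 ≤ B ^ (1 / (Module.finrank ℚ K : ℝ)) := Real.one_le_rpow hB (by positivity)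
  refine ⟨hy0, hyl, hyB, ?_, ?_⟩
  · intro p i
    have h1 := lamP_le (hb0 i) hy0 (hyl i) (X := X0 * B ^ (1 / (Module.finrank ℚ K : ℝ)))
      (one_le_mul_of_one_le_of_one_le hX01 hR1)
      (fun w => by
        have := w_lin_le w (cz (b i)) (cz (y P)) hCA0
          (fun j => (sup_le_of w.1 (cz (b i)) j).trans (hCA w i)) (hyB w)
        rw [hX0]
        linarith)
      (fun w => by
        have h2 : (⨆ j, w (cz (b i) j)) * (⨆ j, w (cz (y P) j)) ≤
            CA * (CR * B ^ (1 / (Module.finrank ℚ K : ℝ))) :=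
          mul_le_mul (hCA w i) (ciSup_le fun j => hyB w j) (sup_pos w.1 hy0).le hCA0
        refine h2.trans ?_
        rw [hX0]
        have h3 : 0 ≤ CA * (CR * B ^ (1 / (Module.finrank ℚ K : ℝ))) := by positivity
        nlinarith) p
    refine h1.trans (le_of_eq ?_)
    rw [Real.log_mul (by linarith) hRpos.ne', Real.log_rpow hB0]
    field_simp
    ring
  · choose e he1 he2 he3 using fun p => prof hb0 hy0 hyl p
    obtain ⟨T, hT⟩ := exists_T hb0 hy0 hyl
    refine ⟨e, he1, fun p i => he2 p i, T, ?_⟩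
    have hcost := cost_le_N1 S hT (fun p i => he2 p i)
    have hWeq := hW_eq hT
    have hNeq : N1 S (fun i => cz (b i)) (cz (y P)) = N1 S a P.rep := by
      unfold N1
      simp only [hlam]
    have hWeq2 : hW (fun i => cz (b i)) (cz (y P)) = hW a P.rep := by
      unfold hW
      have : ∀ f : AbsoluteValue K ℝ, wt f (fun i => cz (b i)) (cz (y P)) = wt f a P.rep := fun f =>
        wt_congr f (fun i => hlam f i) hindep
      simp only [this]
    have hsum : ∑ p ∈ (univ : Finset (InfinitePlace K)).disjSum T, wtP p (fun i => cz (b i)) (cz (y P)) ≤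
        ∑ p ∈ (univ : Finset (InfinitePlace K)).disjSum T, Lu p * ∑ i, (e p i : ℝ) +
          ∑ _w : InfinitePlace K, (r : ℝ) := by
      refine (Finset.sum_le_sum fun p _ => he3 p).trans ?_
      rw [Finset.sum_add_distrib]
      refine add_le_add le_rfl ?_
      rw [Finset.sum_disjSum]
      have : ∑ v ∈ T, ls r (Sum.inr v : Pl K) = 0 := Finset.sum_eq_zero fun v _ => rfl
      rw [this, add_zero]
      exact le_rfl
    have hsav : ∑ p ∈ (univ : Finset (InfinitePlace K)).disjSum T, sav S p (e p) =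
        ∑ p ∈ (univ : Finset (InfinitePlace K)).disjSum T, Lu p * ∑ i, (e p i : ℝ) -
          ∑ p ∈ (univ : Finset (InfinitePlace K)).disjSum T, cost S p (e p) := by
      unfold sav
      rw [Finset.sum_sub_distrib]
    rw [hsav]
    rw [← hNeq, ← hWeq2] at hbad
    have hlogH : Real.log B - Real.log 2 ≤ Real.log P.mulHeight := by
      rw [← Real.log_div hB0.ne' (by norm_num)]
      exact Real.log_le_log (by positivity) hHB2
    have h1 := mul_le_mul_of_nonneg_left hlogH hκ0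
    have h2 : κ * Real.log 2 ≤ Real.log 2 := by nlinarith
    have h3 := le_abs_self c
    rw [hc1]
    rw [hWeq] at hbad
    linarith

/-- geometric sum -/
lemma geom_le {x : ℝ} (hx : 1 < x) (m : ℕ) : ∑ k ∈ Finset.range m, x ^ k ≤ x ^ m / (x - 1) := by
  have h : 0 < x - 1 := by linarith
  rw [geom_sum_eq hx.ne', div_le_div_iff_of_pos_right h]
  linarith

theorem main (a : Fin r → Fin (n + 1) → K) (ha : ∀ i, a i ≠ 0)
    (S : Finset (HeightOneSpectrum (𝓞 K))) (κ c δ : ℝ) (hκ0 : 0 ≤ κ) (hκ : κ ≤ 1 / 4) (hδ : 0 < δ) :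
    ∃ M : ℝ, ∀ B : ℝ, 1 ≤ B →
      (Exc S a κ c B).Finite ∧ ((Exc S a κ c B).ncard : ℝ) ≤ M * B ^ ((n : ℝ) + 1 - κ + δ) := by
  classical
  obtain ⟨M, hM, hshell⟩ := shell_proj a ha S κ c δ hκ0 hκ hδ
  set s : ℝ := (n : ℝ) + 1 - κ + δ with hs
  have hn0 : (0 : ℝ) ≤ n := Nat.cast_nonneg n
  have hs0 : 0 < s := by rw [hs]; linarith
  set x : ℝ := (2 : ℝ) ^ s with hx
  have hx1 : 1 < x := Real.one_lt_rpow (by norm_num) hs0
  have hx0 : 0 < x := by linarith
  refine ⟨M * x * (x / (x - 1)), fun B hB => ?_⟩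
  have hB0 : 0 < B := by linarith
  apply Pool.Agent.H57R3.VJ.fin_of_bdd
  intro F hF
  -- number of dyadic shells
  set m : ℕ := ⌊Real.logb 2 B⌋₊ with hm
  have hlogb : 0 ≤ Real.logb 2 B := Real.logb_nonneg (by norm_num) hB
  have hm1 : (2 : ℝ) ^ m ≤ B := by
    have h1 : ((m : ℕ) : ℝ) ≤ Real.logb 2 B := Nat.floor_le hlogb
    rw [Real.le_logb_iff_rpow_le (by norm_num) hB0, Real.rpow_natCast] at h1
    exact h1
  have hm2 : B < (2 : ℝ) ^ (m + 1) := by
    have h1 : Real.logb 2 B < ((m + 1 : ℕ) : ℝ) := by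
      push_cast
      exact Nat.lt_floor_add_one _
    rw [Real.logb_lt_iff_lt_rpow (by norm_num) hB0, Real.rpow_natCast] at h1
    exact h1
  have hH1 : ∀ P : ℙ K (Fin (n + 1) → K), 1 ≤ P.mulHeight := by
    intro P
    have hmh : P.mulHeight = mulHeight P.rep := by
      conv_lhs => rw [← P.mk_rep]
      rw [Projectivization.mulHeight_mk]
    rw [hmh]
    exact one_le_mulHeight P.rep
  have hcover : F ⊆ (Finset.range (m + 1)).biUnion fun k =>
      F.filter fun P => (2 : ℝ) ^ k ≤ P.mulHeight ∧ P.mulHeight ≤ (2 : ℝ) ^ (k + 1) := by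
    intro P hP
    rw [Finset.mem_biUnion]
    have hPB : P.mulHeight ≤ B := (hF hP).2.1
    have hP1 := hH1 P
    have hP0 : 0 < P.mulHeight := by linarith
    have hl0 : 0 ≤ Real.logb 2 P.mulHeight := Real.logb_nonneg (by norm_num) hP1
    refine ⟨⌊Real.logb 2 P.mulHeight⌋₊, ?_, ?_⟩
    · rw [Finset.mem_range, Nat.lt_add_one_iff]
      refine Nat.floor_le_floor ?_
      exact Real.logb_le_logb_of_le (by norm_num) hP0 hPB
    · rw [Finset.mem_filter]
      refine ⟨hP, ?_, ?_⟩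
      · have h1 := Nat.floor_le hl0
        rw [Real.le_logb_iff_rpow_le (by norm_num) hP0, Real.rpow_natCast] at h1
        exact h1
      · have h1 : Real.logb 2 P.mulHeight < ((⌊Real.logb 2 P.mulHeight⌋₊ + 1 : ℕ) : ℝ) := by
          push_cast
          exact Nat.lt_floor_add_one _
        rw [Real.logb_lt_iff_lt_rpow (by norm_num) hP0, Real.rpow_natCast] at h1
        exact h1.le
  have h1 : (F.card : ℝ) ≤ ∑ k ∈ Finset.range (m + 1), M * (x * x ^ k) := by
    have h2 : F.card ≤ ∑ k ∈ Finset.range (m + 1),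
        (F.filter fun P => (2 : ℝ) ^ k ≤ P.mulHeight ∧ P.mulHeight ≤ (2 : ℝ) ^ (k + 1)).card :=
      (Finset.card_le_card hcover).trans Finset.card_biUnion_le
    have h3 : (F.card : ℝ) ≤ ∑ k ∈ Finset.range (m + 1),
        ((F.filter fun P => (2 : ℝ) ^ k ≤ P.mulHeight ∧ P.mulHeight ≤ (2 : ℝ) ^ (k + 1)).card : ℝ) := by
      exact_mod_cast h2
    refine h3.trans (Finset.sum_le_sum fun k _ => ?_)
    have h4 := hshell ((2 : ℝ) ^ (k + 1)) (one_le_pow₀ (by norm_num))
      (F.filter fun P => (2 : ℝ) ^ k ≤ P.mulHeight ∧ P.mulHeight ≤ (2 : ℝ) ^ (k + 1)) (by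
        intro P hP
        rw [Finset.mem_filter] at hP
        obtain ⟨g1, g2, g3⟩ := hF hP.1
        refine ⟨⟨g1, hP.2.2, g3⟩, ?_⟩
        rw [pow_succ]
        linarith [hP.2.1])
    refine h4.trans (le_of_eq ?_)
    congr 1
    rw [hx, ← pow_succ', ← Real.rpow_natCast, ← Real.rpow_natCast, ← Real.rpow_mul (by norm_num),
      ← Real.rpow_mul (by norm_num)]
    congr 1
    push_cast
    ring
  refine h1.trans ?_
  rw [← Finset.mul_sum, ← Finset.mul_sum]
  have h5 := geom_le hx1 (m + 1)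
  have h6 : x ^ m ≤ B ^ s := by
    rw [hx, ← Real.rpow_natCast, ← Real.rpow_mul (by norm_num), mul_comm, Real.rpow_mul (by norm_num),
      Real.rpow_natCast]
    exact Real.rpow_le_rpow (by positivity) hm1 hs0.le
  have hx2 : 0 < x - 1 := by linarith
  calc M * (x * ∑ k ∈ Finset.range (m + 1), x ^ k) ≤ M * (x * (x ^ (m + 1) / (x - 1))) := by
        gcongr
    _ = M * x * (x / (x - 1)) * x ^ m := by
        rw [pow_succ]; ring
    _ ≤ M * x * (x / (x - 1)) * B ^ s := by gcongr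

end Pool.Agent.W232.VA
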