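import Pool.Agent.W232.VA.M

set_option autoImplicit false
set_option linter.unusedSectionVars false

/-!
Arrangements, second version, part B: counting with a separate modulus for one of the forms.
-/

namespace Pool.Agent.W232.VA

open NumberField IsDedekindDomain Finset Pool.Agent.H691R3

variable {K : Type*} [Field K] [NumberField K] {n : ℕ} {ι : Type*}

/-- number of nonzero integers with divisibility and size conditions -/
theorem count1 (C1 : ℝ) (hC1 : 0 < C1) :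
    ∃ C : ℝ, 0 < C ∧ ∀ R : ℝ, 0 < R → ∀ T : Finset (HeightOneSpectrum (𝓞 K)),
      ∀ (tw : InfinitePlace K → ℕ) (tv : HeightOneSpectrum (𝓞 K) → ℕ) (V : Finset (𝓞 K)),
        (∀ z ∈ V, z ≠ 0) →
        (∀ z ∈ V, ∀ w : InfinitePlace K, w ((z : 𝓞 K) : K) ≤ C1 * R * Real.exp (-(tw w : ℝ) / w.mult)) →
        (∀ z ∈ V, ∀ v ∈ T, z ∈ v.asIdeal ^ tv v) →
        (V.card : ℝ) ≤ C * Real.exp (Module.finrank ℚ K * Real.log R - ∑ w, (tw w : ℝ) -
          ∑ v ∈ T, (tv v : ℝ) * Real.log (Nv v)) := by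
  classical
  obtain ⟨C, hC, h⟩ := count (K := K) (n := 0) (ι := Unit) (fun _ _ => 1) {univ} (fun _ _ _ => 1)
    (by
      intro J hJ z j
      rw [Finset.mem_singleton] at hJ
      subst hJ
      have h0 : j = 0 := by
        ext
        have := j.2
        simp only [Fin.val_zero]
        omega
      subst h0
      simp [linZ])
    (by
      intro J hJ
      rw [Finset.mem_singleton] at hJ
      subst hJ
      simp) C1 ((Module.finrank ℚ K : ℝ) * Real.log C1) hC1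
  refine ⟨C, hC, ?_⟩
  intro R hR T tw tv V hV0 hVw hVv
  rcases V.eq_empty_or_nonempty with rfl | ⟨z0, hz0⟩
  · rw [Finset.card_empty, Nat.cast_zero]
    positivity
  have hinj : Function.Injective (fun (z : 𝓞 K) (_ : Fin (0 + 1)) => z) := fun z z' hzz => congrFun hzz 0
  have hlin : ∀ z : 𝓞 K, linZ (fun _ : Fin (0 + 1) => (1 : 𝓞 K)) (fun _ => z) = z := by
    intro z
    unfold linZ
    simp
  have key := h R hR T (fun _ => univ) (fun _ => Finset.mem_singleton_self _) (fun _ => univ)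
    (fun _ => Finset.mem_singleton_self _) (fun w _ => tw w) tw (fun v _ => tv v) tv
    (fun w _ => le_rfl) (fun v _ => le_rfl) (by
      have h1 := norm_ineq (hV0 z0 hz0) T tv (fun v hv => hVv z0 hz0 v hv)
      have h2 : ∑ w : InfinitePlace K, (w.mult : ℝ) * Real.log (w ((z0 : 𝓞 K) : K)) ≤
          ∑ w : InfinitePlace K, ((w.mult : ℝ) * (Real.log C1 + Real.log R) - tw w) := by
        refine Finset.sum_le_sum fun w _ => ?_
        have hm : (0 : ℝ) < w.mult := by exact_mod_cast InfinitePlace.mult_pos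
        have h3 := Real.log_le_log (InfinitePlace.pos_iff.mpr
          (RingOfIntegers.coe_ne_zero_iff.mpr (hV0 z0 hz0))) (hVw z0 hz0 w)
        rw [Real.log_mul (by positivity) (Real.exp_ne_zero _), Real.log_mul hC1.ne' hR.ne',
          Real.log_exp] at h3
        have h4 := mul_le_mul_of_nonneg_left h3 hm.le
        have h5 : (w.mult : ℝ) * (Real.log C1 + Real.log R + -(tw w : ℝ) / w.mult) =
            (w.mult : ℝ) * (Real.log C1 + Real.log R) - tw w := by
          field_simp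
          ring
        rw [h5] at h4
        exact h4
      rw [Finset.sum_sub_distrib, ← Finset.sum_mul, sum_mult_real] at h2
      linarith) (V.image (fun (z : 𝓞 K) (_ : Fin (0 + 1)) => z)) (by
      intro x hx w i
      obtain ⟨z, hz, rfl⟩ := Finset.mem_image.mp hx
      rw [hlin]
      exact hVw z hz w) (by
      intro x hx v hv i
      obtain ⟨z, hz, rfl⟩ := Finset.mem_image.mp hx
      rw [hlin]
      exact hVv z hz v hv)
  rw [Finset.card_image_of_injective _ hinj] at key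
  refine key.trans (le_of_eq ?_)
  congr 2
  simp

theorem count2 [Fintype ι] (α : ι → Fin (n + 1) → 𝓞 K) (𝒥 : Finset (Finset ι))
    (c : Finset ι → Fin (n + 1) → ι → K) (hc : ∀ J ∈ 𝒥, IsInv α J (c J))
    (hcard : ∀ J ∈ 𝒥, J.card = n + 1) (C1 C2 : ℝ) (hC1 : 0 < C1) :
    ∃ C : ℝ, 0 < C ∧ ∀ R : ℝ, 0 < R → ∀ i1 : ι, ∀ T : Finset (HeightOneSpectrum (𝓞 K)),
      ∀ Jw : InfinitePlace K → Finset ι, (∀ w, Jw w ∈ 𝒥) → (∀ w, i1 ∈ Jw w) →
      ∀ Jv : HeightOneSpectrum (𝓞 K) → Finset ι, (∀ v, Jv v ∈ 𝒥) → (∀ v, i1 ∈ Jv v) →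
      ∀ (ew : InfinitePlace K → ι → ℕ) (mw : InfinitePlace K → ℕ)
        (ev : HeightOneSpectrum (𝓞 K) → ι → ℕ) (mv : HeightOneSpectrum (𝓞 K) → ℕ),
      (∀ w, ∀ i ∈ Jw w, i ≠ i1 → ew w i ≤ mw w) → (∀ v, ∀ i ∈ Jv v, i ≠ i1 → ev v i ≤ mv v) →
      (∑ w, (mw w : ℝ) + ∑ v ∈ T, (mv v : ℝ) * Real.log (Nv v) ≤
        Module.finrank ℚ K * Real.log R + C2) →
      ∀ A : Finset (Fin (n + 1) → 𝓞 K),
        (∀ x ∈ A, linZ (α i1) x ≠ 0) →
        (∀ x ∈ A, ∀ w : InfinitePlace K, ∀ i ∈ Jw w, w ((linZ (α i) x : 𝓞 K) : K) ≤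
          C1 * R * Real.exp (-(ew w i : ℝ) / w.mult)) →
        (∀ x ∈ A, ∀ v ∈ T, ∀ i ∈ Jv v, linZ (α i) x ∈ v.asIdeal ^ ev v i) →
        (A.card : ℝ) ≤ C * Real.exp ((n + 1) * (Module.finrank ℚ K * Real.log R) -
          ∑ w, ∑ i ∈ Jw w, (ew w i : ℝ) - ∑ v ∈ T, (∑ i ∈ Jv v, (ev v i : ℝ)) * Real.log (Nv v)) := by
  classical
  obtain ⟨Ca, hCa, ha⟩ := countZ n α 𝒥 c hc C1 C2 hC1
  obtain ⟨Cb, hCb, hb⟩ := count1 (K := K) C1 hC1
  refine ⟨Ca * Cb, mul_pos hCa hCb, ?_⟩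
  intro R hR i1 T Jw hJw hJw1 Jv hJv hJv1 ew mw ev mv hew hev hM A hA0 hA1 hA2
  have hsd : ∀ J : Finset ι, J \ {i1} = J.erase i1 := fun J => Finset.sdiff_singleton_eq_erase i1 J
  have hcd : ∀ J ∈ 𝒥, i1 ∈ J → (J \ {i1}).card = n := by
    intro J hJ hi
    rw [hsd, Finset.card_erase_of_mem hi, hcard J hJ]
    rfl
  set E2 : ℝ := n * (Module.finrank ℚ K * Real.log R) - ∑ w, ∑ i ∈ Jw w \ {i1}, (ew w i : ℝ) -
    ∑ v ∈ T, (∑ i ∈ Jv v \ {i1}, (ev v i : ℝ)) * Real.log (Nv v) with hE2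
  have hfib : ∀ z ∈ A.image (fun x => linZ (α i1) x),
      ((A.filter fun x => linZ (α i1) x = z).card : ℝ) ≤ Ca * Real.exp E2 := by
    intro z _
    refine ha R hR {i1} T Jw hJw (fun w => hcd _ (hJw w) (hJw1 w)) Jv hJv
      (fun v => hcd _ (hJv v) (hJv1 v)) ew mw ev mv ?_ ?_ hM _ ?_ ?_ ?_
    · intro w i hi
      rw [Finset.mem_sdiff, Finset.mem_singleton] at hi
      exact hew w i hi.1 hi.2
    · intro v i hi
      rw [Finset.mem_sdiff, Finset.mem_singleton] at hi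
      exact hev v i hi.1 hi.2
    · intro x hx w i hi
      exact hA1 x (Finset.mem_filter.mp hx).1 w i (Finset.mem_sdiff.mp hi).1
    · intro x hx v hv i hi
      exact hA2 x (Finset.mem_filter.mp hx).1 v hv i (Finset.mem_sdiff.mp hi).1
    · intro x hx y hy i hi
      rw [Finset.mem_singleton] at hi
      subst hi
      rw [(Finset.mem_filter.mp hx).2, (Finset.mem_filter.mp hy).2]
  have hV := hb R hR T (fun w => ew w i1) (fun v => ev v i1) (A.image (fun x => linZ (α i1) x)) (by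
      intro z hz
      obtain ⟨x, hx, rfl⟩ := Finset.mem_image.mp hz
      exact hA0 x hx) (by
      intro z hz w
      obtain ⟨x, hx, rfl⟩ := Finset.mem_image.mp hz
      exact hA1 x hx w i1 (hJw1 w)) (by
      intro z hz v hv
      obtain ⟨x, hx, rfl⟩ := Finset.mem_image.mp hz
      exact hA2 x hx v hv i1 (hJv1 v))
  have hcardA : (A.card : ℝ) = ∑ z ∈ A.image (fun x => linZ (α i1) x),
      ((A.filter fun x => linZ (α i1) x = z).card : ℝ) := by
    exact_mod_cast Finset.card_eq_sum_card_fiberwise fun y hy => Finset.mem_image_of_mem _ hy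
  rw [hcardA]
  refine (Finset.sum_le_sum hfib).trans ?_
  rw [Finset.sum_const, nsmul_eq_mul]
  calc ((A.image (fun x => linZ (α i1) x)).card : ℝ) * (Ca * Real.exp E2)
      ≤ (Cb * Real.exp (Module.finrank ℚ K * Real.log R - ∑ w, (ew w i1 : ℝ) -
          ∑ v ∈ T, (ev v i1 : ℝ) * Real.log (Nv v))) * (Ca * Real.exp E2) := by
        refine mul_le_mul_of_nonneg_right hV (by positivity)
    _ = Ca * Cb * Real.exp ((Module.finrank ℚ K * Real.log R - ∑ w, (ew w i1 : ℝ) -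
          ∑ v ∈ T, (ev v i1 : ℝ) * Real.log (Nv v)) + E2) := by
        rw [Real.exp_add]; ring
    _ = _ := by
        congr 2
        have e1 : ∀ w : InfinitePlace K, ∑ i ∈ Jw w, (ew w i : ℝ) =
            ew w i1 + ∑ i ∈ Jw w \ {i1}, (ew w i : ℝ) := fun w => by
          rw [hsd, Finset.add_sum_erase _ (fun i => (ew w i : ℝ)) (hJw1 w)]
        have e2 : ∀ v : HeightOneSpectrum (𝓞 K), (∑ i ∈ Jv v, (ev v i : ℝ)) * Real.log (Nv v) =
            (ev v i1 : ℝ) * Real.log (Nv v) + (∑ i ∈ Jv v \ {i1}, (ev v i : ℝ)) * Real.log (Nv v) := fun v => by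
          rw [hsd, ← add_mul, Finset.add_sum_erase _ (fun i => (ev v i : ℝ)) (hJv1 v)]
        rw [Finset.sum_congr rfl fun w _ => e1 w, Finset.sum_congr rfl fun v _ => e2 v,
          Finset.sum_add_distrib, Finset.sum_add_distrib, hE2]
        ring

end Pool.Agent.W232.VA
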