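import Pool.Agent.W232.VA.N

set_option autoImplicit false
set_option linter.unusedSectionVars false

/-!
Arrangements, second version, part C: the exchange argument.
-/

namespace Pool.Agent.W232.VA

open NumberField IsDedekindDomain Finset Pool.Agent.H691R3

variable {K : Type*} [Field K] [NumberField K] {n r : ℕ} {ι : Type*}

/-- coefficients of the form `i1` in the basis `J` -/
noncomputable def cf (α : ι → Fin (n + 1) → 𝓞 K) (c : Fin (n + 1) → ι → K) (i1 i : ι) : K :=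
  ∑ j, ((α i1 j : 𝓞 K) : K) * c j i

lemma cf_eq {α : ι → Fin (n + 1) → 𝓞 K} {J : Finset ι} {c : Fin (n + 1) → ι → K} (h : IsInv α J c)
    (i1 : ι) (x : Fin (n + 1) → 𝓞 K) :
    ((linZ (α i1) x : 𝓞 K) : K) = ∑ i ∈ J, cf α c i1 i * ((linZ (α i) x : 𝓞 K) : K) := by
  rw [linZ_coe (α i1) x]
  unfold lin cf
  have h1 : ∀ j : Fin (n + 1), ((α i1 j : 𝓞 K) : K) * ((x j : 𝓞 K) : K) =
      ∑ i ∈ J, ((α i1 j : 𝓞 K) : K) * c j i * ((linZ (α i) x : 𝓞 K) : K) := by
    intro j
    rw [h x j, Finset.mul_sum]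
    exact Finset.sum_congr rfl fun i _ => by ring
  rw [Finset.sum_congr rfl fun j _ => h1 j, Finset.sum_comm]
  exact Finset.sum_congr rfl fun i _ => by rw [Finset.sum_mul]

lemma exch_inv [DecidableEq ι] {α : ι → Fin (n + 1) → 𝓞 K} {J : Finset ι} {c : Fin (n + 1) → ι → K}
    (h : IsInv α J c) {i1 i0 : ι} (h1 : i1 ∉ J) (h0 : i0 ∈ J) (hne : cf α c i1 i0 ≠ 0) :
    ∃ c', IsInv α (insert i1 (J.erase i0)) c' := by
  refine ⟨fun j i => if i = i1 then c j i0 / cf α c i1 i0 else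
    c j i - c j i0 * cf α c i1 i / cf α c i1 i0, fun z j => ?_⟩
  have hn : i1 ∉ J.erase i0 := fun hh => h1 (Finset.mem_of_mem_erase hh)
  rw [Finset.sum_insert hn]
  simp only [if_true]
  have e1 : ∀ i ∈ J.erase i0, (if i = i1 then c j i0 / cf α c i1 i0 else
      c j i - c j i0 * cf α c i1 i / cf α c i1 i0) * ((linZ (α i) z : 𝓞 K) : K) =
      c j i * ((linZ (α i) z : 𝓞 K) : K) -
        c j i0 / cf α c i1 i0 * (cf α c i1 i * ((linZ (α i) z : 𝓞 K) : K)) := by
    intro i hi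
    have : i ≠ i1 := fun hh => hn (hh ▸ hi)
    rw [if_neg this]
    ring
  rw [Finset.sum_congr rfl e1, Finset.sum_sub_distrib, ← Finset.mul_sum]
  have e2 := Finset.add_sum_erase J (fun i => c j i * ((linZ (α i) z : 𝓞 K) : K)) h0
  have e3 := Finset.add_sum_erase J (fun i => cf α c i1 i * ((linZ (α i) z : 𝓞 K) : K)) h0
  rw [← cf_eq h i1 z] at e3
  rw [h z j, ← e2, ← e3]
  field_simp
  ring

lemma exch_place [DecidableEq ι] {α : ι → Fin (n + 1) → 𝓞 K} {𝒥 : Finset (Finset ι)}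
    (hcard : ∀ J ∈ 𝒥, J.card = n + 1)
    (hmem : ∀ J : Finset ι, J.card = n + 1 → (∃ c, IsInv α J c) → J ∈ 𝒥)
    {J : Finset ι} {c : Fin (n + 1) → ι → K} (hJ : J ∈ 𝒥) (h : IsInv α J c) {i1 : ι}
    {x : Fin (n + 1) → 𝓞 K} (hx : linZ (α i1) x ≠ 0) (e : ι → ℕ) :
    ∃ J' ∈ 𝒥, i1 ∈ J' ∧ ∃ t : ℕ, ((i1 ∈ J ∧ t = e i1) ∨ ∀ i ∈ J, cf α c i1 i ≠ 0 → t ≤ e i) ∧
      ∑ i ∈ J, e i = t + ∑ i ∈ J'.erase i1, e i := by
  classical
  by_cases hi : i1 ∈ J
  · exact ⟨J, hJ, hi, e i1, Or.inl ⟨hi, rfl⟩, (Finset.add_sum_erase J e hi).symm⟩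
  · have hne : (J.filter fun i => cf α c i1 i ≠ 0).Nonempty := by
      by_contra hcon
      rw [Finset.not_nonempty_iff_eq_empty] at hcon
      have hz : ∀ i ∈ J, cf α c i1 i = 0 := by
        intro i hiJ
        by_contra h0
        have : i ∈ J.filter fun i => cf α c i1 i ≠ 0 := Finset.mem_filter.mpr ⟨hiJ, h0⟩
        rw [hcon] at this
        exact absurd this (Finset.notMem_empty _)
      have h1 := cf_eq h i1 x
      rw [Finset.sum_eq_zero fun i hiJ => by rw [hz i hiJ, zero_mul]] at h1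
      exact hx (RingOfIntegers.coe_eq_zero_iff.mp h1)
    obtain ⟨i0, hi0, hmin⟩ := Finset.exists_min_image _ e hne
    rw [Finset.mem_filter] at hi0
    have hn : i1 ∉ J.erase i0 := fun hh => hi (Finset.mem_of_mem_erase hh)
    refine ⟨insert i1 (J.erase i0), hmem _ ?_ (exch_inv h hi hi0.1 hi0.2), Finset.mem_insert_self _ _,
      e i0, Or.inr fun i hiJ hci => hmin i (Finset.mem_filter.mpr ⟨hiJ, hci⟩), ?_⟩
    · rw [Finset.card_insert_of_notMem hn, Finset.card_erase_of_mem hi0.1, hcard J hJ]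
      rfl
    · rw [Finset.erase_insert hn]
      exact (Finset.add_sum_erase J e hi0.1).symm

theorem count_ex [Fintype ι] [DecidableEq ι] (α : ι → Fin (n + 1) → 𝓞 K) (𝒥 : Finset (Finset ι))
    (c : Finset ι → Fin (n + 1) → ι → K) (hc : ∀ J ∈ 𝒥, IsInv α J (c J))
    (hcard : ∀ J ∈ 𝒥, J.card = n + 1)
    (hmem : ∀ J : Finset ι, J.card = n + 1 → (∃ c, IsInv α J c) → J ∈ 𝒥) (C1 C2 : ℝ) (hC1 : 0 < C1) :
    ∃ C : ℝ, 0 < C ∧ ∀ R : ℝ, 0 < R → ∀ i1 : ι, ∀ T : Finset (HeightOneSpectrum (𝓞 K)),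
      ∀ Jw : InfinitePlace K → Finset ι, (∀ w, Jw w ∈ 𝒥) →
      ∀ Jv : HeightOneSpectrum (𝓞 K) → Finset ι, (∀ v, Jv v ∈ 𝒥) →
      ∀ (ew : InfinitePlace K → ι → ℕ) (mw : InfinitePlace K → ℕ)
        (ev : HeightOneSpectrum (𝓞 K) → ι → ℕ) (mv : HeightOneSpectrum (𝓞 K) → ℕ),
      (∀ w i, i ≠ i1 → ew w i ≤ mw w) → (∀ v i, i ≠ i1 → ev v i ≤ mv v) →
      (∑ w, (mw w : ℝ) + ∑ v ∈ T, (mv v : ℝ) * Real.log (Nv v) ≤
        Module.finrank ℚ K * Real.log R + C2) →
      ∀ A : Finset (Fin (n + 1) → 𝓞 K),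
        (∀ x ∈ A, linZ (α i1) x ≠ 0) →
        (∀ x ∈ A, ∀ w : InfinitePlace K, ∀ i, w ((linZ (α i) x : 𝓞 K) : K) ≤
          C1 * R * Real.exp (-(ew w i : ℝ) / w.mult)) →
        (∀ x ∈ A, ∀ v ∈ T, ∀ i, linZ (α i) x ∈ v.asIdeal ^ ev v i) →
        (A.card : ℝ) ≤ C * Real.exp ((n + 1) * (Module.finrank ℚ K * Real.log R) -
          ∑ w, ∑ i ∈ Jw w, (ew w i : ℝ) - ∑ v ∈ T, (∑ i ∈ Jv v, (ev v i : ℝ)) * Real.log (Nv v)) := by
  classical
  obtain ⟨cv, S0, hcv0, hcv⟩ := exists_cv 𝒥 c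
  obtain ⟨D, hD1, hD⟩ := exists_D 𝒥 c
  set AA : ℝ := 1 + ∑ w : InfinitePlace K, ∑ i : ι, ∑ j, w ((α i j : 𝓞 K) : K) with hAA
  have hAA0 : 0 ≤ ∑ w : InfinitePlace K, ∑ i : ι, ∑ j, w ((α i j : 𝓞 K) : K) :=
    Finset.sum_nonneg fun w _ => Finset.sum_nonneg fun i _ => Finset.sum_nonneg fun j _ => apply_nonneg w _
  have hAA1 : 1 ≤ AA := by linarith
  have hAAle : ∀ (w : InfinitePlace K) (i : ι), ∑ j, w ((α i j : 𝓞 K) : K) ≤ AA := by
    intro w i
    have h1 : ∑ j, w ((α i j : 𝓞 K) : K) ≤ ∑ i : ι, ∑ j, w ((α i j : 𝓞 K) : K) :=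
      Finset.single_le_sum (f := fun i => ∑ j, w ((α i j : 𝓞 K) : K))
        (fun i _ => Finset.sum_nonneg fun j _ => apply_nonneg w _) (Finset.mem_univ i)
    have h2 : ∑ i : ι, ∑ j, w ((α i j : 𝓞 K) : K) ≤
        ∑ w : InfinitePlace K, ∑ i : ι, ∑ j, w ((α i j : 𝓞 K) : K) :=
      Finset.single_le_sum (f := fun w : InfinitePlace K => ∑ i : ι, ∑ j, w ((α i j : 𝓞 K) : K))
        (fun w _ => Finset.sum_nonneg fun i _ => Finset.sum_nonneg fun j _ => apply_nonneg w _)
        (Finset.mem_univ w)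
    linarith
  have hC1' : 0 < C1 * (D * AA) := by positivity
  obtain ⟨C, hC, hcount⟩ := count2 α 𝒥 c hc hcard (C1 * (D * AA)) C2 hC1'
  set K0 : ℝ := ∑ v ∈ S0, (cv v : ℝ) * Real.log (Nv v) with hK0
  refine ⟨C * Real.exp K0, by positivity, ?_⟩
  intro R hR i1 T Jw hJw Jv hJv ew mw ev mv hew hev hM A hA0 hA1 hA2
  rcases A.eq_empty_or_nonempty with rfl | ⟨x0, hx0⟩
  · rw [Finset.card_empty, Nat.cast_zero]
    positivity
  choose Jw' hJw' hJw1 tw htw hsw using fun w => exch_place hcard hmem (hJw w) (hc _ (hJw w))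
    (hA0 x0 hx0) (ew w)
  choose Jv' hJv' hJv1 tv htv hsv using fun v => exch_place hcard hmem (hJv v) (hc _ (hJv v))
    (hA0 x0 hx0) (ev v)
  have hDAA : 1 ≤ D * AA := one_le_mul_of_one_le_of_one_le hD1 hAA1
  have hcoefw : ∀ w : InfinitePlace K, ∑ i ∈ Jw w, w (cf α (c (Jw w)) i1 i) ≤ D * AA := by
    intro w
    have h1 : ∀ i ∈ Jw w, w (cf α (c (Jw w)) i1 i) ≤
        ∑ j, w ((α i1 j : 𝓞 K) : K) * w (c (Jw w) j i) := by
      intro i _
      unfold cf
      refine (w.1.sum_le _ _).trans (le_of_eq ?_)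
      exact Finset.sum_congr rfl fun j _ => map_mul w _ _
    refine (Finset.sum_le_sum h1).trans ?_
    rw [Finset.sum_comm]
    calc ∑ j, ∑ i ∈ Jw w, w ((α i1 j : 𝓞 K) : K) * w (c (Jw w) j i)
        ≤ ∑ j, w ((α i1 j : 𝓞 K) : K) * D := by
          refine Finset.sum_le_sum fun j _ => ?_
          rw [← Finset.mul_sum]
          exact mul_le_mul_of_nonneg_left (hD w _ (hJw w) j) (apply_nonneg w _)
      _ = (∑ j, w ((α i1 j : 𝓞 K) : K)) * D := by rw [Finset.sum_mul]
      _ ≤ AA * D := mul_le_mul_of_nonneg_right (hAAle w i1) (by linarith)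
      _ = _ := mul_comm _ _
  have key := hcount R hR i1 T Jw' hJw' hJw1 Jv' hJv' hJv1
    (fun w i => if i = i1 then tw w else ew w i) mw
    (fun v i => if i = i1 then tv v - cv v else ev v i) mv
    (fun w i _ hi => by simp only [if_neg hi]; exact hew w i hi)
    (fun v i _ hi => by simp only [if_neg hi]; exact hev v i hi) hM A hA0
    (by
      intro x hx w i _
      have hmono : ∀ t : ℝ, C1 * R * Real.exp t ≤ C1 * (D * AA) * R * Real.exp t := by
        intro t
        have : 0 < C1 * R * Real.exp t := by positivity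
        nlinarith
      by_cases hi : i = i1
      · simp only [if_pos hi]
        rw [hi]
        rcases htw w with ⟨_, h2⟩ | h2
        · rw [h2]
          exact (hA1 x hx w i1).trans (hmono _)
        · rw [cf_eq (hc _ (hJw w)) i1 x]
          calc w (∑ i ∈ Jw w, cf α (c (Jw w)) i1 i * ((linZ (α i) x : 𝓞 K) : K))
              ≤ ∑ i ∈ Jw w, w (cf α (c (Jw w)) i1 i * ((linZ (α i) x : 𝓞 K) : K)) := w.1.sum_le _ _
            _ ≤ ∑ i ∈ Jw w, w (cf α (c (Jw w)) i1 i) *
                (C1 * R * Real.exp (-(tw w : ℝ) / w.mult)) := by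
                refine Finset.sum_le_sum fun i hi => ?_
                rw [map_mul]
                by_cases h0 : cf α (c (Jw w)) i1 i = 0
                · rw [h0, map_zero, zero_mul, zero_mul]
                · refine mul_le_mul_of_nonneg_left ((hA1 x hx w i).trans ?_) (apply_nonneg w _)
                  have h3 : (tw w : ℝ) ≤ ew w i := by exact_mod_cast h2 i hi h0
                  have hm : (0 : ℝ) < w.mult := by exact_mod_cast InfinitePlace.mult_pos
                  have h4 : Real.exp (-(ew w i : ℝ) / w.mult) ≤ Real.exp (-(tw w : ℝ) / w.mult) := by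
                    refine Real.exp_le_exp.mpr ?_
                    rw [div_le_div_iff_of_pos_right hm]
                    linarith
                  exact mul_le_mul_of_nonneg_left h4 (by positivity)
            _ = (∑ i ∈ Jw w, w (cf α (c (Jw w)) i1 i)) *
                (C1 * R * Real.exp (-(tw w : ℝ) / w.mult)) := by rw [Finset.sum_mul]
            _ ≤ D * AA * (C1 * R * Real.exp (-(tw w : ℝ) / w.mult)) :=
                mul_le_mul_of_nonneg_right (hcoefw w) (by positivity)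
            _ = _ := by ring
      · simp only [if_neg hi]
        exact (hA1 x hx w i).trans (hmono _))
    (by
      intro x hx v hv i _
      by_cases hi : i = i1
      · simp only [if_pos hi]
        rw [hi]
        rcases htv v with ⟨_, h2⟩ | h2
        · rw [h2]
          exact Ideal.pow_le_pow_right (Nat.sub_le _ _) (hA2 x hx v hv i1)
        · rcases Nat.lt_or_ge (tv v) (cv v) with hlt | hge
          · rw [Nat.sub_eq_zero_of_le hlt.le, pow_zero]
            simp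
          rw [← fv_le_pow_iff, cf_eq (hc _ (hJv v)) i1 x]
          have hN : (0 : ℝ) < Nv v := by linarith [two_le_Nv v]
          have hN1 : (1 : ℝ) ≤ Nv v := by linarith [two_le_Nv v]
          refine fv_sum_le v _ _ (by positivity) fun i hi => ?_
          rw [map_mul]
          by_cases h0 : cf α (c (Jv v)) i1 i = 0
          · rw [h0, map_zero, zero_mul]
            positivity
          · have h3 := (fv_le_pow_iff v _ _).mpr (hA2 x hx v hv i)
            have h4 : fv v (cf α (c (Jv v)) i1 i) ≤ Nv v ^ cv v := by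
              unfold cf
              refine fv_sum_le v _ _ (by positivity) fun j _ => ?_
              rw [map_mul]
              calc fv v ((α i1 j : 𝓞 K) : K) * fv v (c (Jv v) j i) ≤ 1 * Nv v ^ cv v :=
                    mul_le_mul (fv_int_le_one v _) (hcv v _ (hJv v) j i) ((fv v).nonneg _) zero_le_one
                _ = _ := one_mul _
            have h5 : Nv v ^ (-(ev v i : ℤ)) ≤ Nv v ^ (-(tv v : ℤ)) := by
              refine zpow_le_zpow_right₀ hN1 ?_
              have : tv v ≤ ev v i := h2 i hi h0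
              omega
            calc fv v (cf α (c (Jv v)) i1 i) * fv v ((linZ (α i) x : 𝓞 K) : K)
                ≤ Nv v ^ cv v * Nv v ^ (-(tv v : ℤ)) :=
                  mul_le_mul h4 (h3.trans h5) ((fv v).nonneg _) (by positivity)
              _ = Nv v ^ (-((tv v - cv v : ℕ) : ℤ)) := by
                  rw [← zpow_natCast, ← zpow_add₀ hN.ne']
                  congr 1
                  rw [Nat.cast_sub hge]
                  ring
      · simp only [if_neg hi]
        exact hA2 x hx v hv i)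
  refine key.trans ?_
  rw [mul_assoc, ← Real.exp_add]
  refine mul_le_mul_of_nonneg_left (Real.exp_le_exp.mpr ?_) hC.le
  have g1 : ∀ w : InfinitePlace K, ∑ i ∈ Jw' w, ((if i = i1 then tw w else ew w i : ℕ) : ℝ) =
      ∑ i ∈ Jw w, (ew w i : ℝ) := by
    intro w
    rw [← Finset.add_sum_erase _ _ (hJw1 w), if_pos rfl]
    have h1 : ∑ i ∈ (Jw' w).erase i1, ((if i = i1 then tw w else ew w i : ℕ) : ℝ) =
        ∑ i ∈ (Jw' w).erase i1, (ew w i : ℝ) :=
      Finset.sum_congr rfl fun i hi => by rw [if_neg (Finset.ne_of_mem_erase hi)]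
    rw [h1]
    have h2 := hsw w
    exact_mod_cast h2.symm
  have g2 : ∀ v : HeightOneSpectrum (𝓞 K), ∑ i ∈ Jv v, (ev v i : ℝ) ≤
      ∑ i ∈ Jv' v, ((if i = i1 then tv v - cv v else ev v i : ℕ) : ℝ) + cv v := by
    intro v
    rw [← Finset.add_sum_erase (Jv' v) _ (hJv1 v), if_pos rfl]
    have h1 : ∑ i ∈ (Jv' v).erase i1, ((if i = i1 then tv v - cv v else ev v i : ℕ) : ℝ) =
        ∑ i ∈ (Jv' v).erase i1, (ev v i : ℝ) :=
      Finset.sum_congr rfl fun i hi => by rw [if_neg (Finset.ne_of_mem_erase hi)]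
    rw [h1]
    have h2 : ∑ i ∈ Jv v, (ev v i : ℝ) = tv v + ∑ i ∈ (Jv' v).erase i1, (ev v i : ℝ) := by
      exact_mod_cast hsv v
    have h3 : (tv v : ℝ) ≤ ((tv v - cv v : ℕ) : ℝ) + cv v := by
      have : tv v ≤ (tv v - cv v) + cv v := by omega
      exact_mod_cast this
    linarith
  have g3 : ∑ v ∈ T, (∑ i ∈ Jv v, (ev v i : ℝ)) * Real.log (Nv v) ≤
      ∑ v ∈ T, (∑ i ∈ Jv' v, ((if i = i1 then tv v - cv v else ev v i : ℕ) : ℝ)) * Real.log (Nv v) +
        ∑ v ∈ T, (cv v : ℝ) * Real.log (Nv v) := by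
    rw [← Finset.sum_add_distrib]
    refine Finset.sum_le_sum fun v _ => ?_
    rw [← add_mul]
    exact mul_le_mul_of_nonneg_right (g2 v) (log_Nv_pos v).le
  have g4 : ∑ v ∈ T, (cv v : ℝ) * Real.log (Nv v) ≤ K0 := by
    have hnn : ∀ v : HeightOneSpectrum (𝓞 K), 0 ≤ (cv v : ℝ) * Real.log (Nv v) := fun v =>
      mul_nonneg (Nat.cast_nonneg _) (log_Nv_pos v).le
    have e1 : ∑ v ∈ T, (cv v : ℝ) * Real.log (Nv v) =
        ∑ v ∈ T.filter (· ∈ S0), (cv v : ℝ) * Real.log (Nv v) := by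
      symm
      refine Finset.sum_subset (Finset.filter_subset _ _) fun v hv hv' => ?_
      rw [Finset.mem_filter, not_and] at hv'
      rw [hcv0 v (hv' hv)]
      simp
    rw [e1, hK0]
    refine Finset.sum_le_sum_of_subset_of_nonneg ?_ fun v _ _ => hnn v
    intro v hv
    exact (Finset.mem_filter.mp hv).2
  rw [Finset.sum_congr rfl fun w _ => g1 w]
  linarith

end Pool.Agent.W232.VA
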