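import Pool.Agent.W232.VA.O

set_option autoImplicit false
set_option linter.unusedSectionVars false

/-!
Arrangements, second version, part D: the number of points with a given profile, selection of places.
-/

namespace Pool.Agent.W232.VA

open NumberField IsDedekindDomain Finset Pool.Agent.H691R3 Height

variable {K : Type*} [Field K] [NumberField K] {n r : ℕ}

lemma basis_data2 (a : Fin r → Fin (n + 1) → 𝓞 K) :
    ∃ (𝒥 : Finset (Finset (Fin r ⊕ Fin (n + 1)))) (c : Finset (Fin r ⊕ Fin (n + 1)) → Fin (n + 1) →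
      Fin r ⊕ Fin (n + 1) → K), (∀ J ∈ 𝒥, IsInv (al a) J (c J)) ∧ (∀ J ∈ 𝒥, J.card = n + 1) ∧
      (∀ J : Finset (Fin r ⊕ Fin (n + 1)), J.card = n + 1 → (∃ c, IsInv (K := K) (al a) J c) → J ∈ 𝒥) ∧
      ∀ I : Finset (Fin r), LinearIndependent K (fun i : I => cz (a i)) →
        ∃ J ∈ 𝒥, I.image Sum.inl ⊆ J := by
  classical
  obtain ⟨𝒥0, c0, h1, h2, h3⟩ := basis_data a
  set 𝒥 : Finset (Finset (Fin r ⊕ Fin (n + 1))) := univ.filter fun J =>
    J.card = n + 1 ∧ ∃ c, IsInv (K := K) (al a) J c with h𝒥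
  have hmem : ∀ J, J ∈ 𝒥 ↔ J.card = n + 1 ∧ ∃ c, IsInv (K := K) (al a) J c := by
    intro J
    rw [h𝒥, Finset.mem_filter]
    simp
  have hex : ∀ J : Finset (Fin r ⊕ Fin (n + 1)), ∃ c : Fin (n + 1) → Fin r ⊕ Fin (n + 1) → K,
      J ∈ 𝒥 → IsInv (al a) J c := by
    intro J
    by_cases hJ : J ∈ 𝒥
    · obtain ⟨c, hc⟩ := ((hmem J).mp hJ).2
      exact ⟨c, fun _ => hc⟩
    · exact ⟨fun _ _ => 0, fun h => absurd h hJ⟩
  choose c hc using hex
  refine ⟨𝒥, c, fun J hJ => hc J hJ, fun J hJ => ((hmem J).mp hJ).1, fun J g1 g2 => (hmem J).mpr ⟨g1, g2⟩, ?_⟩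
  intro I hI
  obtain ⟨J, hJ, hIJ⟩ := h3 I hI
  exact ⟨J, (hmem J).mpr ⟨h2 J hJ, _, h1 J hJ⟩, hIJ⟩

/-- the largest exponent away from `i1` -/
def mx1 (i1 : Fin r) (e : Fin r → ℕ) : ℕ := (univ.erase i1).sup e

lemma le_mx1 (i1 : Fin r) (e : Fin r → ℕ) {i : Fin r} (h : i ≠ i1) : e i ≤ mx1 i1 e :=
  Finset.le_sup (f := e) (Finset.mem_erase.mpr ⟨h, Finset.mem_univ i⟩)

lemma mx1_le_mx (i1 : Fin r) (e : Fin r → ℕ) : mx1 i1 e ≤ mx e :=
  Finset.sup_mono (Finset.erase_subset _ _)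

theorem count_prof2 (a : Fin r → Fin (n + 1) → 𝓞 K) (ha : ∀ i, cz (a i) ≠ 0) (C0 C2 : ℝ) (hC0 : 1 ≤ C0) :
    ∃ C : ℝ, 0 < C ∧ ∀ B : ℝ, 1 ≤ B → ∀ T : Finset (HeightOneSpectrum (𝓞 K)), ∀ e : Pl K → Fin r → ℕ,
      (∀ p, Prof (fun i => cz (a i)) (e p)) → ∀ i1 : Fin r,
      (∑ p ∈ (univ : Finset (InfinitePlace K)).disjSum T, (mx1 i1 (e p) : ℝ) * Lu p ≤ Real.log B + C2) →
      ∀ A : Finset (Fin (n + 1) → 𝓞 K),
        (∀ y ∈ A, cz y ≠ 0 ∧ (∀ i, lin (cz (a i)) (cz y) ≠ 0) ∧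
          (∀ w : InfinitePlace K, ∀ j, w (cz y j) ≤ C0 * B ^ (1 / (Module.finrank ℚ K : ℝ))) ∧
          ∀ p ∈ (univ : Finset (InfinitePlace K)).disjSum T, ∀ i, e p i ≠ 0 →
            (e p i : ℝ) * Lu p ≤ lamP p (cz (a i)) (cz y)) →
        (A.card : ℝ) ≤ C * Real.exp ((n + 1) * Real.log B -
          ∑ p ∈ (univ : Finset (InfinitePlace K)).disjSum T, Lu p * ∑ i, (e p i : ℝ)) := by
  classical
  obtain ⟨𝒥, c, hc, hcard, hmem, hext⟩ := basis_data2 a
  obtain ⟨CA, hCA1, hCA⟩ := exists_CA a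
  obtain ⟨C, hC, hcount⟩ := count_ex (al a) 𝒥 c hc hcard hmem ((n + 1) * CA * C0) C2 (by positivity)
  refine ⟨C, hC, ?_⟩
  intro B hB T e he i1 hM A hA
  have hd : (0 : ℝ) < (Module.finrank ℚ K : ℝ) := by exact_mod_cast Module.finrank_pos
  have hB0 : 0 < B := by linarith
  set R : ℝ := B ^ (1 / (Module.finrank ℚ K : ℝ)) with hR
  have hR0 : 0 < R := Real.rpow_pos_of_pos hB0 _
  have hlogR : (Module.finrank ℚ K : ℝ) * Real.log R = Real.log B := by
    rw [hR, Real.log_rpow hB0]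
    field_simp
  have hJ : ∀ p : Pl K, ∃ J ∈ 𝒥, ∀ i ∉ J, Sum.elim (e p) (fun _ : Fin (n + 1) => 0) i = 0 := by
    intro p
    obtain ⟨I, hI, hI0⟩ := he p
    obtain ⟨J, hJ, hJ2⟩ := hext I hI
    refine ⟨J, hJ, fun i hi => ?_⟩
    rcases i with i | j
    · show e p i = 0
      apply hI0
      intro hiI
      exact hi (hJ2 (Finset.mem_image_of_mem _ hiI))
    · rfl
  choose J hJ𝒥 hJ0 using hJ
  have hsumJ : ∀ p : Pl K, ∑ i ∈ J p, ((Sum.elim (e p) (fun _ : Fin (n + 1) => 0) i : ℕ) : ℝ) =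
      ∑ i, (e p i : ℝ) := by
    intro p
    rw [Finset.sum_subset (Finset.subset_univ (J p)) fun i _ hi => by rw [hJ0 p i hi]; simp,
      Fintype.sum_sum_type]
    simp
  have hw : ∀ x ∈ A, ∀ w : InfinitePlace K, ∀ i, w ((linZ (al a i) x : 𝓞 K) : K) ≤
      (n + 1) * CA * C0 * R *
        Real.exp (-((Sum.elim (e (Sum.inl w)) (fun _ : Fin (n + 1) => 0) i : ℕ) : ℝ) / w.mult) := by
    intro y hy w i
    obtain ⟨hy0, hyl, hyB, hyp⟩ := hA y hy
    have hCA0 : 0 ≤ CA := by linarith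
    have hn1 : (1 : ℝ) ≤ (n : ℝ) + 1 := by
      have : (0 : ℝ) ≤ n := Nat.cast_nonneg n
      linarith
    have hmono : ∀ {z : ℝ}, 0 ≤ z → z ≤ C0 * R → z ≤ (n + 1) * CA * C0 * R := by
      intro z hz hz2
      calc z ≤ C0 * R := hz2
        _ = 1 * 1 * (C0 * R) := by ring
        _ ≤ (n + 1) * CA * (C0 * R) := by
            have : 0 ≤ C0 * R := hz.trans hz2
            gcongr
        _ = _ := by ring
    rcases i with i | j
    · show w ((linZ (a i) y : 𝓞 K) : K) ≤ (n + 1) * CA * C0 * R * Real.exp (-((e (Sum.inl w) i : ℕ) : ℝ) / w.mult)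
      rw [linZ_cz]
      have haj : ∀ j, w (cz (a i) j) ≤ CA := fun j => (sup_le_of w.1 (cz (a i)) j).trans (hCA w i)
      by_cases h0 : e (Sum.inl w) i = 0
      · rw [h0]
        simp only [Nat.cast_zero, neg_zero, zero_div, Real.exp_zero, mul_one]
        have := w_lin_le w (cz (a i)) (cz y) hCA0 haj (hyB w)
        linarith
      · have h1 := hyp (Sum.inl w) (Finset.mem_disjSum.mpr (Or.inl ⟨w, Finset.mem_univ _, rfl⟩)) i h0
        have h2 : ((e (Sum.inl w) i : ℕ) : ℝ) * 1 ≤ (w.mult : ℝ) * lam w.1 (cz (a i)) (cz y) := h1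
        have hm : (0 : ℝ) < w.mult := by exact_mod_cast InfinitePlace.mult_pos
        have h3 : ((e (Sum.inl w) i : ℕ) : ℝ) / w.mult ≤ lam w.1 (cz (a i)) (cz y) := by
          rw [div_le_iff₀ hm]; linarith
        have hp1 := sup_pos w.1 (ha i)
        have hp2 := sup_pos w.1 hy0
        have hp3 := w.1.pos (hyl i)
        unfold lam at h3
        rw [Real.le_log_iff_exp_le (div_pos (mul_pos hp1 hp2) hp3), le_div_iff₀ hp3] at h3
        have h4 : (⨆ j, w.1 (cz (a i) j)) * (⨆ j, w.1 (cz y j)) ≤ CA * (C0 * R) :=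
          mul_le_mul (hCA w i) (ciSup_le fun j => hyB w j) hp2.le hCA0
        have h5 : w (lin (cz (a i)) (cz y)) ≤ CA * (C0 * R) *
            Real.exp (-((e (Sum.inl w) i : ℕ) : ℝ) / w.mult) := by
          have h6 : Real.exp (-((e (Sum.inl w) i : ℕ) : ℝ) / w.mult) =
              (Real.exp (((e (Sum.inl w) i : ℕ) : ℝ) / w.mult))⁻¹ := by
            rw [neg_div, Real.exp_neg]
          rw [h6, ← div_eq_mul_inv, le_div_iff₀ (Real.exp_pos _), mul_comm]
          exact h3.trans h4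
        refine h5.trans ?_
        have h7 : CA * (C0 * R) ≤ (n + 1) * CA * C0 * R := by
          have : 0 ≤ CA * (C0 * R) := by positivity
          nlinarith
        exact mul_le_mul_of_nonneg_right h7 (Real.exp_pos _).le
    · show w ((linZ (Pi.single j 1) y : 𝓞 K) : K) ≤ (n + 1) * CA * C0 * R * Real.exp (-((0 : ℕ) : ℝ) / w.mult)
      rw [linZ_single]
      simp only [Nat.cast_zero, neg_zero, zero_div, Real.exp_zero, mul_one]
      exact hmono (apply_nonneg w _) (hyB w j)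
  have hv : ∀ x ∈ A, ∀ v ∈ T, ∀ i, linZ (al a i) x ∈
      v.asIdeal ^ (Sum.elim (e (Sum.inr v)) (fun _ : Fin (n + 1) => 0) i) := by
    intro y hy v hv i
    obtain ⟨hy0, hyl, hyB, hyp⟩ := hA y hy
    rcases i with i | j
    · show linZ (a i) y ∈ v.asIdeal ^ (e (Sum.inr v) i)
      by_cases h0 : e (Sum.inr v) i = 0
      · rw [h0]; simp
      · have h1 := hyp (Sum.inr v) (Finset.mem_disjSum.mpr (Or.inr ⟨v, hv, rfl⟩)) i h0
        exact lin_mem v (ha i) hy0 (hyl i) h1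
    · simp
  have key := hcount R hR0 (Sum.inl i1) T (fun w => J (Sum.inl w)) (fun w => hJ𝒥 _)
    (fun v => J (Sum.inr v))
    (fun v => hJ𝒥 _) (fun w => Sum.elim (e (Sum.inl w)) (fun _ => 0)) (fun w => mx1 i1 (e (Sum.inl w)))
    (fun v => Sum.elim (e (Sum.inr v)) (fun _ => 0)) (fun v => mx1 i1 (e (Sum.inr v)))
    (by
      intro w i hi
      rcases i with i | j
      · exact le_mx1 i1 _ (fun h => hi (by rw [h]))
      · exact Nat.zero_le _)
    (by
      intro v i hi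
      rcases i with i | j
      · exact le_mx1 i1 _ (fun h => hi (by rw [h]))
      · exact Nat.zero_le _)
    (by
      rw [hlogR]
      rw [Finset.sum_disjSum] at hM
      have e1 : ∑ w : InfinitePlace K, (mx1 i1 (e (Sum.inl w)) : ℝ) * Lu (Sum.inl w : Pl K) =
          ∑ w : InfinitePlace K, (mx1 i1 (e (Sum.inl w)) : ℝ) :=
        Finset.sum_congr rfl fun w _ => mul_one _
      rw [e1] at hM
      exact hM)
    A (by
      intro x hx
      have h1 := (hA x hx).2.1 i1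
      rw [← linZ_cz] at h1
      exact RingOfIntegers.coe_ne_zero_iff.mp h1) hw hv
  refine key.trans (le_of_eq ?_)
  rw [hlogR, Finset.sum_disjSum]
  congr 2
  have e1 : ∑ w : InfinitePlace K, Lu (Sum.inl w : Pl K) * ∑ i, (e (Sum.inl w) i : ℝ) =
      ∑ w : InfinitePlace K, ∑ i ∈ J (Sum.inl w),
        ((Sum.elim (e (Sum.inl w)) (fun _ : Fin (n + 1) => 0) i : ℕ) : ℝ) :=
    Finset.sum_congr rfl fun w _ => by rw [hsumJ]; exact one_mul _
  have e2 : ∑ v ∈ T, Lu (Sum.inr v : Pl K) * ∑ i, (e (Sum.inr v) i : ℝ) =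
      ∑ v ∈ T, (∑ i ∈ J (Sum.inr v),
        ((Sum.elim (e (Sum.inr v)) (fun _ : Fin (n + 1) => 0) i : ℕ) : ℝ)) * Real.log (Nv v) :=
    Finset.sum_congr rfl fun v _ => by rw [hsumJ, mul_comm]; rfl
  rw [e1, e2]
  ring

/-- bound for sums of local heights over all places -/
lemma sumlam_le {a x : Fin (n + 1) → 𝓞 K} (ha : cz a ≠ 0) (hx : cz x ≠ 0)
    (hl : lin (cz a) (cz x) ≠ 0) {X : ℝ}
    (h1 : ∀ w : InfinitePlace K, w (lin (cz a) (cz x)) ≤ X)
    (h2 : ∀ w : InfinitePlace K, (⨆ j, w (cz a j)) * (⨆ j, w (cz x j)) ≤ X)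
    (T : Finset (HeightOneSpectrum (𝓞 K))) :
    ∑ p ∈ (univ : Finset (InfinitePlace K)).disjSum T, max 0 (lamP p (cz a) (cz x)) ≤
      Module.finrank ℚ K * Real.log X := by
  classical
  have hpf := log_product_formula hl
  have hlog : ∀ w : InfinitePlace K, Real.log (w (lin (cz a) (cz x))) ≤ Real.log X := fun w =>
    Real.log_le_log ((InfinitePlace.pos_iff).2 hl) (h1 w)
  have hv0 : ∀ v : HeightOneSpectrum (𝓞 K), 0 ≤ -Real.log (fv v (lin (cz a) (cz x))) := by
    intro v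
    rw [neg_nonneg]
    refine Real.log_nonpos ((fv v).nonneg _) ?_
    rw [← linZ_cz]
    exact fv_int_le_one v _
  have hfin : (Function.support fun v : HeightOneSpectrum (𝓞 K) =>
      -Real.log (fv v (lin (cz a) (cz x)))).Finite := by
    refine (log_fv_support_finite hl).subset ?_
    intro v hv
    rw [Function.mem_support] at hv ⊢
    exact fun h => hv (by rw [h, neg_zero])
  have hneg : ∑ᶠ v : HeightOneSpectrum (𝓞 K), -Real.log (fv v (lin (cz a) (cz x))) =
      ∑ w : InfinitePlace K, (w.mult : ℝ) * Real.log (w (lin (cz a) (cz x))) := by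
    rw [finsum_neg_distrib]
    linarith
  rw [Finset.sum_disjSum]
  have hinf : ∑ w : InfinitePlace K, max 0 (lamP (Sum.inl w : Pl K) (cz a) (cz x)) ≤
      ∑ w : InfinitePlace K, ((w.mult : ℝ) * Real.log X - (w.mult : ℝ) * Real.log (w (lin (cz a) (cz x)))) := by
    refine Finset.sum_le_sum fun w _ => ?_
    have hm : (0 : ℝ) ≤ w.mult := Nat.cast_nonneg _
    have hp1 := sup_pos w.1 ha
    have hp2 := sup_pos w.1 hx
    have hp3 := w.1.pos hl
    have e1 : lam w.1 (cz a) (cz x) = Real.log ((⨆ j, w.1 (cz a j)) * (⨆ j, w.1 (cz x j))) -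
        Real.log (w (lin (cz a) (cz x))) := by
      unfold lam
      rw [Real.log_div (mul_pos hp1 hp2).ne' hp3.ne']
      rfl
    have e2 : Real.log ((⨆ j, w.1 (cz a j)) * (⨆ j, w.1 (cz x j))) ≤ Real.log X :=
      Real.log_le_log (mul_pos hp1 hp2) (h2 w)
    rw [← mul_sub]
    refine max_le (mul_nonneg hm (by linarith [hlog w])) ?_
    show (w.mult : ℝ) * lam w.1 (cz a) (cz x) ≤ _
    rw [e1]
    exact mul_le_mul_of_nonneg_left (by linarith) hm
  have hfi : ∑ v ∈ T, max 0 (lamP (Sum.inr v : Pl K) (cz a) (cz x)) ≤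
      ∑ᶠ v : HeightOneSpectrum (𝓞 K), -Real.log (fv v (lin (cz a) (cz x))) := by
    have g1 : ∑ v ∈ T, max 0 (lamP (Sum.inr v : Pl K) (cz a) (cz x)) ≤
        ∑ v ∈ T, -Real.log (fv v (lin (cz a) (cz x))) := by
      refine Finset.sum_le_sum fun v _ => max_le (hv0 v) ?_
      show lam (fv v) (cz a) (cz x) ≤ _
      have hp1 := sup_pos (fv v) ha
      have hp2 := sup_pos (fv v) hx
      have hp3 := (fv v).pos hl
      have hle : ∀ z : Fin (n + 1) → 𝓞 K, (⨆ j, fv v (cz z j)) ≤ 1 := fun z =>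
        ciSup_le fun j => fv_int_le_one v (z j)
      unfold lam
      rw [Real.log_div (mul_pos hp1 hp2).ne' hp3.ne']
      have : Real.log ((⨆ j, fv v (cz a j)) * (⨆ j, fv v (cz x j))) ≤ 0 := by
        refine Real.log_nonpos (mul_pos hp1 hp2).le ?_
        have := mul_le_mul (hle a) (hle x) hp2.le zero_le_one
        simpa using this
      linarith
    refine g1.trans ?_
    set F := hfin.toFinset with hF
    have g2 : ∑ᶠ v : HeightOneSpectrum (𝓞 K), -Real.log (fv v (lin (cz a) (cz x))) =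
        ∑ v ∈ F ∪ T, -Real.log (fv v (lin (cz a) (cz x))) := by
      refine finsum_eq_sum_of_support_subset _ ?_
      intro v hv
      rw [Finset.coe_union]
      left
      rw [hF, Set.Finite.coe_toFinset]
      exact hv
    rw [g2]
    exact Finset.sum_le_sum_of_subset_of_nonneg Finset.subset_union_right fun v _ _ => hv0 v
  rw [Finset.sum_sub_distrib, ← Finset.sum_mul, sum_mult_real] at hinf
  linarith

lemma selectK {ι : Type*} [DecidableEq ι] (V : Finset ι) (s : ι → ℝ) (hs : ∀ p ∈ V, 0 ≤ s p) {Θ : ℝ}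
    (h : Θ ≤ ∑ p ∈ V, s p) :
    ∃ V' ⊆ V, Θ ≤ ∑ p ∈ V', s p ∧ (∀ p ∈ V', ∑ q ∈ V', s q - s p < Θ) ∧
      (V'.card ≤ 1 ∨ ∑ p ∈ V', s p ≤ 2 * Θ) := by
  classical
  set P : Finset (Finset ι) := V.powerset.filter fun W => Θ ≤ ∑ p ∈ W, s p with hP
  have hne : P.Nonempty := ⟨V, by rw [hP, Finset.mem_filter]; exact ⟨Finset.mem_powerset_self V, h⟩⟩
  obtain ⟨V', hV', hmin⟩ := Finset.exists_min_image P (fun W => W.card) hne
  rw [hP, Finset.mem_filter, Finset.mem_powerset] at hV'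
  have hkey : ∀ p ∈ V', ∑ q ∈ V', s q - s p < Θ := by
    intro p hp
    by_contra hcon
    rw [not_lt] at hcon
    have h1 : V'.erase p ∈ P := by
      rw [hP, Finset.mem_filter, Finset.mem_powerset]
      refine ⟨(Finset.erase_subset _ _).trans hV'.1, ?_⟩
      rw [Finset.sum_erase_eq_sub hp]
      exact hcon
    have h2 := hmin _ h1
    have h3 := Finset.card_erase_lt_of_mem hp
    omega
  refine ⟨V', hV'.1, hV'.2, hkey, ?_⟩
  by_cases hc : V'.card ≤ 1
  · exact Or.inl hc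
  · right
    rw [not_le, Finset.one_lt_card_iff] at hc
    obtain ⟨p, q, hp, hq, hpq⟩ := hc
    have h1 := hkey p hp
    have h2 := hkey q hq
    have h3 : s p + s q ≤ ∑ x ∈ V', s x := by
      have : ∑ x ∈ ({p, q} : Finset ι), s x ≤ ∑ x ∈ V', s x := by
        refine Finset.sum_le_sum_of_subset_of_nonneg ?_ fun x hx _ => hs x (hV'.1 hx)
        intro x hx
        rcases Finset.mem_insert.mp hx with rfl | hx
        · exact hp
        · rw [Finset.mem_singleton] at hx; rw [hx]; exact hq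
      rwa [Finset.sum_pair hpq] at this
    linarith

lemma mx_le_sav' (S : Finset (HeightOneSpectrum (𝓞 K))) (p : Pl K) (e : Fin r → ℕ)
    (h : ¬ ∃ i1, ∀ i, i ≠ i1 → e i = 0) : (mx e : ℝ) * Lu p ≤ sav S p e := by
  have hL := Lu_pos p
  rcases Nat.eq_zero_or_pos (mx e) with h0 | h0
  · rw [h0, Nat.cast_zero, zero_mul]
    exact sav_nonneg S p e
  · have hr0 : (univ : Finset (Fin r)).Nonempty := by
      by_contra hne
      rw [Finset.not_nonempty_iff_eq_empty] at hne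
      have : mx e = 0 := by unfold mx; rw [hne]; rfl
      omega
    obtain ⟨i0, _, hi0⟩ := Finset.exists_mem_eq_sup univ hr0 e
    have hmx : mx e = e i0 := hi0
    have h1 : mx e + 1 ≤ ∑ i, e i := by
      by_contra hcon
      apply h
      refine ⟨i0, fun i hi => ?_⟩
      by_contra hne
      apply hcon
      have h2 := Finset.add_sum_erase univ e (Finset.mem_univ i0)
      have h3 := Finset.single_le_sum (f := e) (fun _ _ => Nat.zero_le _)
        (Finset.mem_erase.mpr ⟨hi, Finset.mem_univ i⟩)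
      omega
    have h2 : (mx e : ℝ) + 1 ≤ ∑ i, (e i : ℝ) := by exact_mod_cast h1
    have h3 : cost S p e ≤ Lu p := by
      unfold cost
      rcases p with w | v
      · simp only [Sum.elim_inl]; exact hL.le
      · simp only [Sum.elim_inr]
        split_ifs
        · exact le_rfl
        · exact hL.le
    unfold sav
    nlinarith

lemma select2 (S : Finset (HeightOneSpectrum (𝓞 K))) (P0 : Finset (Pl K)) (e : Pl K → Fin r → ℕ) {Θ Λ : ℝ}
    (h1 : Θ ≤ ∑ p ∈ P0, sav S p (e p)) (h4 : 2 * Θ ≤ Λ) (hΛ : 0 ≤ Λ)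
    (h2 : ∀ p ∈ P0, (mx (e p) : ℝ) * Lu p ≤ Λ) :
    ∃ e' : Pl K → Fin r → ℕ, (∀ p, e' p = e p ∨ e' p = 0) ∧ (∀ p ∉ P0, e' p = 0) ∧
      Θ ≤ ∑ p ∈ P0, sav S p (e' p) ∧ (∑ p ∈ P0, (mx (e' p) : ℝ) * Lu p ≤ Λ ∨
        ∃ i1, ∑ p ∈ P0, (mx1 i1 (e' p) : ℝ) * Lu p ≤ Λ) := by
  classical
  obtain ⟨V', hV', h3, hkey, hor⟩ := selectK P0 (fun p => sav S p (e p)) (fun p _ => sav_nonneg S p _) h1
  have hpos : ∀ p ∈ V', 0 < sav S p (e p) := fun p hp => by linarith [hkey p hp, h3]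
  have hsum : ∀ f : Pl K → (Fin r → ℕ) → ℝ, (∀ p, f p 0 = 0) →
      ∑ p ∈ P0, f p (if p ∈ V' then e p else 0) = ∑ p ∈ V', f p (e p) := by
    intro f hf
    rw [← Finset.sum_subset hV' (f := fun p => f p (if p ∈ V' then e p else 0))]
    · exact Finset.sum_congr rfl fun p hp => by rw [if_pos hp]
    · intro p _ hp
      simp only [if_neg hp, hf]
  refine ⟨fun p => if p ∈ V' then e p else 0, fun p => ?_, fun p hp => ?_, ?_, ?_⟩
  · by_cases hp : p ∈ V'
    · left; simp [hp]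
    · right; simp [hp]
  · exact if_neg fun h => hp (hV' h)
  · rw [hsum (fun p e => sav S p e) (fun p => sav_zero S p)]
    exact h3
  · by_cases hs : ∃ p1 ∈ V', ∃ i1, ∀ i, i ≠ i1 → e p1 i = 0
    · right
      obtain ⟨p1, hp1, i1, hi1⟩ := hs
      refine ⟨i1, ?_⟩
      rw [hsum (fun p e => (mx1 i1 e : ℝ) * Lu p) (fun p => by
        have : mx1 i1 (0 : Fin r → ℕ) = 0 := by
          have := mx1_le_mx i1 (0 : Fin r → ℕ)
          rw [mx_zero] at this
          omega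
        rw [this]; simp)]
      have h0 : mx1 i1 (e p1) = 0 := by
        have : mx1 i1 (e p1) ≤ 0 := Finset.sup_le fun i hi => by
          rw [hi1 i (Finset.ne_of_mem_erase hi)]
        omega
      rw [← Finset.add_sum_erase _ _ hp1, h0, Nat.cast_zero, zero_mul, zero_add]
      have h5 : ∑ p ∈ V'.erase p1, (mx1 i1 (e p) : ℝ) * Lu p ≤ ∑ p ∈ V'.erase p1, 2 * sav S p (e p) := by
        refine Finset.sum_le_sum fun p hp => ?_
        have h6 := mx_le_sav S p (e p) (hpos p (Finset.mem_of_mem_erase hp))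
        have h7 : (mx1 i1 (e p) : ℝ) ≤ mx (e p) := by exact_mod_cast mx1_le_mx i1 (e p)
        have h8 := mul_le_mul_of_nonneg_right h7 (Lu_pos p).le
        linarith
      refine h5.trans ?_
      rw [← Finset.mul_sum, Finset.sum_erase_eq_sub hp1]
      have := hkey p1 hp1
      linarith
    · left
      rw [hsum (fun p e => (mx e : ℝ) * Lu p) (fun p => by rw [mx_zero]; simp)]
      rcases hor with hc | hc
      · rcases Finset.card_le_one_iff_subset_singleton.mp hc with ⟨q, hq⟩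
        rcases Finset.subset_singleton_iff.mp hq with h | h
        · rw [h]; simpa using hΛ
        · rw [h, Finset.sum_singleton]
          exact h2 q (hV' (by rw [h]; exact Finset.mem_singleton_self q))
      · calc ∑ p ∈ V', (mx (e p) : ℝ) * Lu p ≤ ∑ p ∈ V', sav S p (e p) :=
              Finset.sum_le_sum fun p hp => mx_le_sav' S p _ fun hh => hs ⟨p, hp, hh⟩
          _ ≤ Λ := by linarith

end Pool.Agent.W232.VA
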