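import Pool.Agent.W232.VA.P

set_option autoImplicit false
set_option linter.unusedSectionVars false

/-!
Arrangements, second version, part E: the bound for integral points with large savings.
-/

namespace Pool.Agent.W232.VA

open NumberField IsDedekindDomain Finset Pool.Agent.H691R3 Height LinearAlgebra.Projectivization

variable {K : Type*} [Field K] [NumberField K] {n r : ℕ}

theorem shell2 (a : Fin r → Fin (n + 1) → 𝓞 K) (ha : ∀ i, cz (a i) ≠ 0)
    (S : Finset (HeightOneSpectrum (𝓞 K))) (C0 C2 c κ δ : ℝ) (hC0 : 1 ≤ C0) (hC2 : 0 ≤ C2)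
    (hκ : κ ≤ 1 / 2) (hc : 0 ≤ c) (hδ : 0 < δ) :
    ∃ M : ℝ, 0 < M ∧ ∀ B : ℝ, 1 ≤ B → ∀ A : Finset (Fin (n + 1) → 𝓞 K),
      (∀ y ∈ A, cz y ≠ 0 ∧ (∀ i, lin (cz (a i)) (cz y) ≠ 0) ∧
        (∀ w : InfinitePlace K, ∀ j, w (cz y j) ≤ C0 * B ^ (1 / (Module.finrank ℚ K : ℝ))) ∧
        (∀ (T : Finset (HeightOneSpectrum (𝓞 K))) (i : Fin r),
          ∑ p ∈ (univ : Finset (InfinitePlace K)).disjSum T, max 0 (lamP p (cz (a i)) (cz y)) ≤
            Real.log B + C2) ∧
        ∃ e : Pl K → Fin r → ℕ, (∀ p, Prof (fun i => cz (a i)) (e p)) ∧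
          (∀ p i, e p i ≠ 0 → (e p i : ℝ) * Lu p ≤ lamP p (cz (a i)) (cz y)) ∧
          ∃ T : Finset (HeightOneSpectrum (𝓞 K)),
            κ * Real.log B - c ≤ ∑ p ∈ (univ : Finset (InfinitePlace K)).disjSum T, sav S p (e p)) →
      (A.card : ℝ) ≤ M * B ^ ((n : ℝ) + 1 - κ + δ) := by
  classical
  obtain ⟨Ca, hCa, hcounta⟩ := count_prof a ha C0 C2 hC0
  obtain ⟨Cb, hCb, hcountb⟩ := count_prof2 a ha C0 C2 hC0
  set C : ℝ := max Ca Cb with hCdef
  have hC : 0 < C := lt_max_of_lt_left hCa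
  set δ' : ℝ := δ / (r + 1) with hδ'
  have hr1 : (0 : ℝ) < (r : ℝ) + 1 := by positivity
  have hδ'0 : 0 < δ' := by positivity
  have hδ'r : δ' * r ≤ δ := by
    rw [hδ', div_mul_eq_mul_div, div_le_iff₀ hr1]
    nlinarith
  obtain ⟨H, hH⟩ := gw_sum (K := K) S hδ'0
  refine ⟨C * Real.exp (c + δ * C2) * Real.exp (Cd r δ' * H), by positivity, ?_⟩
  intro B hB A hA
  have hB0 : 0 < B := by linarith
  have hlogB : 0 ≤ Real.log B := Real.log_nonneg hB
  set Λ : ℝ := Real.log B + C2 with hΛ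
  have hΛ0 : 0 ≤ Λ := by linarith
  set T0 : Finset (HeightOneSpectrum (𝓞 K)) := (fin_places Λ).toFinset with hT0
  set P0 : Finset (Pl K) := (univ : Finset (InfinitePlace K)).disjSum T0 with hP0
  set Θ : ℝ := κ * Real.log B - c with hΘ
  have hlog2 : 0 < Real.log 2 := Real.log_pos (by norm_num)
  set E : ℕ := ⌊Λ / Real.log 2⌋₊ with hE
  -- the truncated profiles
  have hex : ∀ y : Fin (n + 1) → 𝓞 K, ∃ e : Pl K → Fin r → ℕ, y ∈ A →
      (∀ p, Prof (fun i => cz (a i)) (e p)) ∧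
      (∀ p i, e p i ≠ 0 → (e p i : ℝ) * Lu p ≤ lamP p (cz (a i)) (cz y)) ∧
      (∀ p ∉ P0, e p = 0) ∧ Θ ≤ ∑ p ∈ P0, sav S p (e p) ∧
      (∑ p ∈ P0, (mx (e p) : ℝ) * Lu p ≤ Λ ∨ ∃ i1, ∑ p ∈ P0, (mx1 i1 (e p) : ℝ) * Lu p ≤ Λ) ∧
      ∀ p, e p ∈ box r E := by
    intro y
    by_cases hy : y ∈ A
    · obtain ⟨hy0, hyl, hyB, hyL, e, he1, he2, T, he3⟩ := hA y hy
      have hle : ∀ p i, (e p i : ℝ) * Lu p ≤ Λ := by
        intro p i
        by_cases h0 : e p i = 0
        · rw [h0]; simpa using hΛ0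
        · refine (he2 p i h0).trans ?_
          have hnn : ∀ q : Pl K, 0 ≤ max 0 (lamP q (cz (a i)) (cz y)) := fun q => le_max_left _ _
          rcases p with w | v
          · refine (le_max_right 0 _).trans (le_trans ?_ (hyL ∅ i))
            exact Finset.single_le_sum (f := fun q => max 0 (lamP q (cz (a i)) (cz y)))
              (fun q _ => hnn q) (Finset.mem_disjSum.mpr (Or.inl ⟨w, Finset.mem_univ _, rfl⟩))
          · refine (le_max_right 0 _).trans (le_trans ?_ (hyL {v} i))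
            exact Finset.single_le_sum (f := fun q => max 0 (lamP q (cz (a i)) (cz y)))
              (fun q _ => hnn q) (Finset.mem_disjSum.mpr (Or.inr ⟨v, Finset.mem_singleton_self v, rfl⟩))
      have hmem : ∀ v, e (Sum.inr v) ≠ 0 → v ∈ T0 := by
        intro v hv
        rw [hT0, Set.Finite.mem_toFinset]
        obtain ⟨i, hi⟩ := Function.ne_iff.mp hv
        have h1 := hle (Sum.inr v) i
        have h2 : (1 : ℝ) ≤ e (Sum.inr v) i := by exact_mod_cast Nat.one_le_iff_ne_zero.mpr hi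
        have h3 := Lu_pos (Sum.inr v : Pl K)
        show Real.log (Nv v) ≤ Λ
        have h4 : Lu (Sum.inr v : Pl K) = Real.log (Nv v) := rfl
        rw [← h4]
        nlinarith
      have h1 : Θ ≤ ∑ p ∈ P0, sav S p (e p) := he3.trans (sav_le_of_subset S e T T0 hmem)
      have hmx : ∀ p, (mx (e p) : ℝ) * Lu p ≤ Λ := by
        intro p
        rcases Nat.eq_zero_or_pos (mx (e p)) with h0 | h0
        · rw [h0]; simpa using hΛ0
        · have hr0 : (univ : Finset (Fin r)).Nonempty := by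
            by_contra hne
            rw [Finset.not_nonempty_iff_eq_empty] at hne
            have : mx (e p) = 0 := by unfold mx; rw [hne]; rfl
            omega
          obtain ⟨i, _, hi⟩ := Finset.exists_mem_eq_sup univ hr0 (e p)
          have : mx (e p) = e p i := hi
          rw [this]
          exact hle p i
      have h4Θ : 2 * Θ ≤ Λ := by
        have : κ * Real.log B ≤ 1 / 2 * Real.log B := mul_le_mul_of_nonneg_right hκ hlogB
        rw [hΘ, hΛ]
        linarith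
      obtain ⟨e', g1, g2, g3, g4⟩ := select2 S P0 e h1 h4Θ hΛ0 (fun p _ => hmx p)
      refine ⟨e', fun _ => ⟨fun p => ?_, fun p i hi => ?_, g2, g3, g4, fun p => ?_⟩⟩
      · rcases g1 p with h | h
        · rw [h]; exact he1 p
        · rw [h]; exact prof_zero' _
      · rcases g1 p with h | h
        · rw [h] at hi ⊢; exact he2 p i hi
        · rw [h] at hi; exact absurd rfl hi
      · rw [mem_box]
        intro i
        rcases g1 p with h | h
        · rw [h]
          refine Nat.le_floor ?_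
          rw [le_div_iff₀ hlog2]
          have h5 := log_two_le_Lu p
          have h6 := hle p i
          have h7 : (0 : ℝ) ≤ e p i := Nat.cast_nonneg _
          nlinarith
        · rw [h]; exact Nat.zero_le _
    · exact ⟨fun _ => 0, fun h => absurd h hy⟩
  choose ε hε using hex
  set Φ : Finset (Pl K → Fin r → ℕ) := A.image ε with hΦ
  have hcard : A.card = ∑ e ∈ Φ, (A.filter fun y => ε y = e).card :=
    Finset.card_eq_sum_card_fiberwise fun y hy => Finset.mem_image_of_mem _ hy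
  -- the bound for one profile
  have hone : ∀ e ∈ Φ, ((A.filter fun y => ε y = e).card : ℝ) ≤
      C * Real.exp ((n + 1) * Real.log B - Θ + δ' * (r * Λ)) * ∏ p ∈ P0, fw S δ' p (e p) := by
    intro e he
    obtain ⟨y0, hy0, rfl⟩ := Finset.mem_image.mp he
    obtain ⟨k1, k2, k3, k4, k5, k6⟩ := hε y0 hy0
    have hfil : ∀ y ∈ A.filter fun y => ε y = ε y0, cz y ≠ 0 ∧ (∀ i, lin (cz (a i)) (cz y) ≠ 0) ∧
        (∀ w : InfinitePlace K, ∀ j, w (cz y j) ≤ C0 * B ^ (1 / (Module.finrank ℚ K : ℝ))) ∧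
        ∀ p ∈ (univ : Finset (InfinitePlace K)).disjSum T0, ∀ i, ε y0 p i ≠ 0 →
          (ε y0 p i : ℝ) * Lu p ≤ lamP p (cz (a i)) (cz y) := by
      intro y hy
      rw [Finset.mem_filter] at hy
      obtain ⟨f1, f2, f3, f4, f5⟩ := hA y hy.1
      obtain ⟨g1, g2, g3, g4, g5, g6⟩ := hε y hy.1
      refine ⟨f1, f2, f3, fun p _ i hi => ?_⟩
      rw [← hy.2] at hi ⊢
      exact g2 p i hi
    have h1 : ((A.filter fun y => ε y = ε y0).card : ℝ) ≤ C * Real.exp ((n + 1) * Real.log B -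
        ∑ p ∈ (univ : Finset (InfinitePlace K)).disjSum T0, Lu p * ∑ i, (ε y0 p i : ℝ)) := by
      rcases k5 with k5 | ⟨i1, k5⟩
      · refine (hcounta B hB T0 (ε y0) k1 (by rw [← hP0]; exact k5) _ hfil).trans ?_
        exact mul_le_mul_of_nonneg_right (le_max_left _ _) (Real.exp_pos _).le
      · refine (hcountb B hB T0 (ε y0) k1 i1 (by rw [← hP0]; exact k5) _ hfil).trans ?_
        exact mul_le_mul_of_nonneg_right (le_max_right _ _) (Real.exp_pos _).le
    refine h1.trans ?_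
    rw [mul_assoc C]
    refine mul_le_mul_of_nonneg_left ?_ hC.le
    have e1 : ∏ p ∈ P0, fw S δ' p (ε y0 p) =
        Real.exp (∑ p ∈ P0, (-(cost S p (ε y0 p)) - δ' * (Lu p * ∑ i, (ε y0 p i : ℝ)))) := by
      rw [Real.exp_sum]
      rfl
    rw [e1, ← Real.exp_add, ← hP0]
    refine Real.exp_le_exp.mpr ?_
    have e2 : ∑ p ∈ P0, sav S p (ε y0 p) =
        ∑ p ∈ P0, Lu p * ∑ i, (ε y0 p i : ℝ) - ∑ p ∈ P0, cost S p (ε y0 p) := by
      unfold sav
      rw [Finset.sum_sub_distrib]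
    have e3 : ∑ p ∈ P0, (-(cost S p (ε y0 p)) - δ' * (Lu p * ∑ i, (ε y0 p i : ℝ))) =
        -∑ p ∈ P0, cost S p (ε y0 p) - δ' * ∑ p ∈ P0, Lu p * ∑ i, (ε y0 p i : ℝ) := by
      rw [Finset.sum_sub_distrib, Finset.sum_neg_distrib, Finset.mul_sum]
    have e4 : ∑ p ∈ P0, Lu p * ∑ i, (ε y0 p i : ℝ) ≤ r * Λ := by
      obtain ⟨f1, f2, f3, f4, f5⟩ := hA y0 hy0
      calc ∑ p ∈ P0, Lu p * ∑ i, (ε y0 p i : ℝ) = ∑ i, ∑ p ∈ P0, (ε y0 p i : ℝ) * Lu p := by
            rw [Finset.sum_comm]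
            exact Finset.sum_congr rfl fun p _ => by rw [Finset.mul_sum]; exact Finset.sum_congr rfl fun i _ => mul_comm _ _
        _ ≤ ∑ i, ∑ p ∈ P0, max 0 (lamP p (cz (a i)) (cz y0)) := by
            refine Finset.sum_le_sum fun i _ => Finset.sum_le_sum fun p _ => ?_
            by_cases h0 : ε y0 p i = 0
            · rw [h0, Nat.cast_zero, zero_mul]
              exact le_max_left _ _
            · exact (k2 p i h0).trans (le_max_right _ _)
        _ ≤ ∑ _i : Fin r, Λ := Finset.sum_le_sum fun i _ => f4 T0 i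
        _ = r * Λ := by
            rw [Finset.sum_const, Finset.card_univ, Fintype.card_fin, nsmul_eq_mul]
    rw [e3]
    rw [e2] at k4
    have e5 := mul_le_mul_of_nonneg_left e4 hδ'0.le
    linarith
  have hsum : ∑ e ∈ Φ, ∏ p ∈ P0, fw S δ' p (e p) ≤ Real.exp (Cd r δ' * H) := by
    refine (sum_prod_le P0 (box r E) 0 Φ (fun p e => fw S δ' p e)
      (fun p e => (Real.exp_pos _).le) ?_).trans ?_
    · intro e he
      obtain ⟨y0, hy0, rfl⟩ := Finset.mem_image.mp he
      obtain ⟨k1, k2, k3, k4, k5, k6⟩ := hε y0 hy0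
      exact ⟨fun p _ => k6 p, k3⟩
    · calc ∏ p ∈ P0, ∑ e ∈ box r E, fw S δ' p e ≤ ∏ p ∈ P0, Real.exp (Cd r δ' * gw S δ' p) := by
            refine Finset.prod_le_prod (fun p _ => Finset.sum_nonneg fun e _ => (Real.exp_pos _).le)
              fun p _ => ?_
            refine (fw_sum S hδ'0 p E).trans ?_
            have := Real.add_one_le_exp (Cd r δ' * gw S δ' p)
            linarith
        _ = Real.exp (Cd r δ' * ∑ p ∈ P0, gw S δ' p) := by
            rw [Finset.mul_sum, Real.exp_sum]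
        _ ≤ Real.exp (Cd r δ' * H) :=
            Real.exp_le_exp.mpr (mul_le_mul_of_nonneg_left (hH T0) (Cd_nonneg r hδ'0))
  have hfin : (A.card : ℝ) ≤ C * Real.exp ((n + 1) * Real.log B - Θ + δ' * (r * Λ)) *
      Real.exp (Cd r δ' * H) := by
    rw [hcard]
    push_cast
    refine (Finset.sum_le_sum hone).trans ?_
    rw [← Finset.mul_sum]
    exact mul_le_mul_of_nonneg_left hsum (by positivity)
  refine hfin.trans ?_
  have hexp : Real.exp ((n + 1) * Real.log B - Θ + δ' * (r * Λ)) ≤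
      Real.exp (c + δ * C2) * B ^ ((n : ℝ) + 1 - κ + δ) := by
    rw [Real.rpow_def_of_pos hB0, ← Real.exp_add]
    refine Real.exp_le_exp.mpr ?_
    have h1 : δ' * (r * Λ) ≤ δ * Λ := by
      have := mul_le_mul_of_nonneg_right hδ'r hΛ0
      linarith
    rw [hΘ]
    rw [hΛ] at h1 ⊢
    linarith
  calc C * Real.exp ((n + 1) * Real.log B - Θ + δ' * (r * Λ)) * Real.exp (Cd r δ' * H)
      ≤ C * (Real.exp (c + δ * C2) * B ^ ((n : ℝ) + 1 - κ + δ)) * Real.exp (Cd r δ' * H) := by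
        gcongr
    _ = _ := by ring

theorem shell_proj2 (a : Fin r → Fin (n + 1) → K) (ha : ∀ i, a i ≠ 0)
    (S : Finset (HeightOneSpectrum (𝓞 K))) (κ c δ : ℝ) (hκ0 : 0 ≤ κ) (hκ : κ ≤ 1 / 2) (hδ : 0 < δ) :
    ∃ M : ℝ, 0 < M ∧ ∀ B : ℝ, 1 ≤ B → ∀ F : Finset (ℙ K (Fin (n + 1) → K)),
      (∀ P ∈ F, P ∈ Exc S a κ c B ∧ B / 2 ≤ P.mulHeight) →
      (F.card : ℝ) ≤ M * B ^ ((n : ℝ) + 1 - κ + δ) := by
  classical
  obtain ⟨s, hs, b, hb⟩ := exists_scale a
  obtain ⟨CR0, hCR0, hrep⟩ := rep K (n := n)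
  obtain ⟨CA, hCA1, hCA⟩ := exists_CA b
  set CR : ℝ := max CR0 1 with hCR
  have hCR1 : 1 ≤ CR := le_max_right _ _
  have hb0 : ∀ i, cz (b i) ≠ 0 := fun i => by
    rw [hb i]; exact smul_ne_zero hs (ha i)
  have hn1 : (1 : ℝ) ≤ (n : ℝ) + 1 := by
    have : (0 : ℝ) ≤ n := Nat.cast_nonneg n
    linarith
  set X0 : ℝ := (n + 1) * CA * CR with hX0
  have hX01 : 1 ≤ X0 := by
    have h1 : 1 ≤ (n + 1) * CA := one_le_mul_of_one_le_of_one_le hn1 hCA1
    exact one_le_mul_of_one_le_of_one_le h1 hCR1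
  have hd : (0 : ℝ) < (Module.finrank ℚ K : ℝ) := by exact_mod_cast Module.finrank_pos
  set c1 : ℝ := Real.log 2 + |c| + ∑ _w : InfinitePlace K, (r : ℝ) with hc1
  have hlog2 : 0 ≤ Real.log 2 := Real.log_nonneg (by norm_num)
  have hc10 : 0 ≤ c1 := by positivity
  obtain ⟨M, hM, hshell⟩ := shell2 b hb0 S CR ((Module.finrank ℚ K : ℝ) * Real.log X0) c1 κ δ hCR1
    (mul_nonneg hd.le (Real.log_nonneg hX01)) hκ hc10 hδ
  refine ⟨M, hM, ?_⟩
  intro B hB F hF
  have hB0 : 0 < B := by linarith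
  have hex : ∀ P : ℙ K (Fin (n + 1) → K), ∃ (t : K) (y : Fin (n + 1) → 𝓞 K), t ≠ 0 ∧ cz y = t • P.rep ∧
      ∀ (w : InfinitePlace K) (j : Fin (n + 1)), w (cz y j) ≤
        CR * mulHeight P.rep ^ (1 / (Module.finrank ℚ K : ℝ)) := by
    intro P
    obtain ⟨t, ht, y, hy, hyw⟩ := hrep P.rep P.rep_nonzero
    refine ⟨t, y, ht, ?_, fun w j => (hyw w j).trans ?_⟩
    · ext j
      exact hy j
    · exact mul_le_mul_of_nonneg_right (le_max_left _ _) (Real.rpow_nonneg (by positivity) _)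
  choose t y ht hty hyw using hex
  have hinj : Set.InjOn y (F : Set (ℙ K (Fin (n + 1) → K))) := by
    intro P _ Q _ hPQ
    have h1 : t P • P.rep = t Q • Q.rep := by rw [← hty, ← hty, hPQ]
    rw [← P.mk_rep, ← Q.mk_rep]
    refine (Projectivization.mk_eq_mk_iff' K _ _ P.rep_nonzero Q.rep_nonzero).mpr ⟨(t P)⁻¹ * t Q, ?_⟩
    rw [mul_smul, ← h1, smul_smul, inv_mul_cancel₀ (ht P), one_smul]
  rw [← Finset.card_image_of_injOn hinj]
  refine hshell B hB _ ?_
  intro z hz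
  obtain ⟨P, hP, rfl⟩ := Finset.mem_image.mp hz
  obtain ⟨⟨hlin, hHB, hbad⟩, hHB2⟩ := hF P hP
  have hmh : P.mulHeight = mulHeight P.rep := by
    conv_lhs => rw [← P.mk_rep]
    rw [Projectivization.mulHeight_mk]
  have hH1 : 1 ≤ mulHeight P.rep := one_le_mulHeight P.rep
  have hR : mulHeight P.rep ^ (1 / (Module.finrank ℚ K : ℝ)) ≤ B ^ (1 / (Module.finrank ℚ K : ℝ)) := by
    refine Real.rpow_le_rpow (by positivity) ?_ (by positivity)
    rw [← hmh]; exact hHB
  have hyB : ∀ (w : InfinitePlace K) (j : Fin (n + 1)), w (cz (y P) j) ≤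
      CR * B ^ (1 / (Module.finrank ℚ K : ℝ)) := fun w j =>
    (hyw P w j).trans (mul_le_mul_of_nonneg_left hR (by linarith))
  have hlam : ∀ (f : AbsoluteValue K ℝ) i, lam f (cz (b i)) (cz (y P)) = lam f (a i) P.rep := fun f i =>
    lam_congr f hs (ht P) (hb i) (hty P)
  have hindep : ∀ I : Finset (Fin r), LinearIndependent K (fun i : I => cz (b i)) ↔
      LinearIndependent K (fun i : I => a i) := by
    intro I
    have : (fun i : I => cz (b i)) = fun i : I => s • a i := funext fun i => hb i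
    rw [this]
    exact indep_smul a hs I
  have hy0 : cz (y P) ≠ 0 := by
    rw [hty]; exact smul_ne_zero (ht P) P.rep_nonzero
  have hyl : ∀ i, lin (cz (b i)) (cz (y P)) ≠ 0 := by
    intro i
    rw [hb, hty, lin_smul_left, lin_smul_right]
    exact mul_ne_zero hs (mul_ne_zero (ht P) (hlin i))
  have hCA0 : 0 ≤ CA := by linarith
  have hRpos : 0 < B ^ (1 / (Module.finrank ℚ K : ℝ)) := Real.rpow_pos_of_pos hB0 _
  have hR1 : 1 ≤ B ^ (1 / (Module.finrank ℚ K : ℝ)) := Real.one_le_rpow hB (by positivity)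
  refine ⟨hy0, hyl, hyB, ?_, ?_⟩
  · intro T i
    have h1 := sumlam_le (hb0 i) hy0 (hyl i) (X := X0 * B ^ (1 / (Module.finrank ℚ K : ℝ)))
      (fun w => by
        have := w_lin_le w (cz (b i)) (cz (y P)) hCA0
          (fun j => (sup_le_of w.1 (cz (b i)) j).trans (hCA w i)) (hyB w)
        rw [hX0]
        linarith)
      (fun w => by
        have h2 : (⨆ j, w (cz (b i) j)) * (⨆ j, w (cz (y P) j)) ≤
            CA * (CR * B ^ (1 / (Module.finrank ℚ K : ℝ))) :=
          mul_le_mul (hCA w i) (ciSup_le fun j => hyB w j) (sup_pos w.1 hy0).le hCA0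
        refine h2.trans ?_
        rw [hX0]
        have h3 : 0 ≤ CA * (CR * B ^ (1 / (Module.finrank ℚ K : ℝ))) := by positivity
        nlinarith) T
    refine h1.trans (le_of_eq ?_)
    rw [Real.log_mul (by linarith) hRpos.ne', Real.log_rpow hB0]
    field_simp
    ring
  · choose e he1 he2 he3 using fun p => prof hb0 hy0 hyl p
    obtain ⟨T, hT⟩ := exists_T hb0 hy0 hyl
    refine ⟨e, he1, fun p i => he2 p i, T, ?_⟩
    have hcost := cost_le_N1 S hT (fun p i => he2 p i)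
    have hWeq := hW_eq hT
    have hNeq : N1 S (fun i => cz (b i)) (cz (y P)) = N1 S a P.rep := by
      unfold N1
      simp only [hlam]
    have hWeq2 : hW (fun i => cz (b i)) (cz (y P)) = hW a P.rep := by
      unfold hW
      have : ∀ f : AbsoluteValue K ℝ, wt f (fun i => cz (b i)) (cz (y P)) = wt f a P.rep := fun f =>
        wt_congr f (fun i => hlam f i) hindep
      simp only [this]
    have hsum : ∑ p ∈ (univ : Finset (InfinitePlace K)).disjSum T, wtP p (fun i => cz (b i)) (cz (y P)) ≤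
        ∑ p ∈ (univ : Finset (InfinitePlace K)).disjSum T, Lu p * ∑ i, (e p i : ℝ) +
          ∑ _w : InfinitePlace K, (r : ℝ) := by
      refine (Finset.sum_le_sum fun p _ => he3 p).trans ?_
      rw [Finset.sum_add_distrib]
      refine add_le_add le_rfl ?_
      rw [Finset.sum_disjSum]
      have : ∑ v ∈ T, ls r (Sum.inr v : Pl K) = 0 := Finset.sum_eq_zero fun v _ => rfl
      rw [this, add_zero]
      exact le_rfl
    have hsav : ∑ p ∈ (univ : Finset (InfinitePlace K)).disjSum T, sav S p (e p) =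
        ∑ p ∈ (univ : Finset (InfinitePlace K)).disjSum T, Lu p * ∑ i, (e p i : ℝ) -
          ∑ p ∈ (univ : Finset (InfinitePlace K)).disjSum T, cost S p (e p) := by
      unfold sav
      rw [Finset.sum_sub_distrib]
    rw [hsav]
    rw [← hNeq, ← hWeq2] at hbad
    have hlogH : Real.log B - Real.log 2 ≤ Real.log P.mulHeight := by
      rw [← Real.log_div hB0.ne' (by norm_num)]
      exact Real.log_le_log (by positivity) hHB2
    have h1 := mul_le_mul_of_nonneg_left hlogH hκ0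
    have h2 : κ * Real.log 2 ≤ Real.log 2 := by nlinarith
    have h3 := le_abs_self c
    rw [hc1]
    rw [hWeq] at hbad
    linarith


theorem main2 (a : Fin r → Fin (n + 1) → K) (ha : ∀ i, a i ≠ 0)
    (S : Finset (HeightOneSpectrum (𝓞 K))) (κ c δ : ℝ) (hκ0 : 0 ≤ κ) (hκ : κ ≤ 1 / 2) (hδ : 0 < δ) :
    ∃ M : ℝ, ∀ B : ℝ, 1 ≤ B →
      (Exc S a κ c B).Finite ∧ ((Exc S a κ c B).ncard : ℝ) ≤ M * B ^ ((n : ℝ) + 1 - κ + δ) := by
  classical
  obtain ⟨M, hM, hshell⟩ := shell_proj2 a ha S κ c δ hκ0 hκ hδ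
  set s : ℝ := (n : ℝ) + 1 - κ + δ with hs
  have hn0 : (0 : ℝ) ≤ n := Nat.cast_nonneg n
  have hs0 : 0 < s := by rw [hs]; linarith
  set x : ℝ := (2 : ℝ) ^ s with hx
  have hx1 : 1 < x := Real.one_lt_rpow (by norm_num) hs0
  have hx0 : 0 < x := by linarith
  refine ⟨M * x * (x / (x - 1)), fun B hB => ?_⟩
  have hB0 : 0 < B := by linarith
  apply Pool.Agent.H57R3.VJ.fin_of_bdd
  intro F hF
  -- number of dyadic shells
  set m : ℕ := ⌊Real.logb 2 B⌋₊ with hm
  have hlogb : 0 ≤ Real.logb 2 B := Real.logb_nonneg (by norm_num) hB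
  have hm1 : (2 : ℝ) ^ m ≤ B := by
    have h1 : ((m : ℕ) : ℝ) ≤ Real.logb 2 B := Nat.floor_le hlogb
    rw [Real.le_logb_iff_rpow_le (by norm_num) hB0, Real.rpow_natCast] at h1
    exact h1
  have hm2 : B < (2 : ℝ) ^ (m + 1) := by
    have h1 : Real.logb 2 B < ((m + 1 : ℕ) : ℝ) := by
      push_cast
      exact Nat.lt_floor_add_one _
    rw [Real.logb_lt_iff_lt_rpow (by norm_num) hB0, Real.rpow_natCast] at h1
    exact h1
  have hH1 : ∀ P : ℙ K (Fin (n + 1) → K), 1 ≤ P.mulHeight := by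
    intro P
    have hmh : P.mulHeight = mulHeight P.rep := by
      conv_lhs => rw [← P.mk_rep]
      rw [Projectivization.mulHeight_mk]
    rw [hmh]
    exact one_le_mulHeight P.rep
  have hcover : F ⊆ (Finset.range (m + 1)).biUnion fun k =>
      F.filter fun P => (2 : ℝ) ^ k ≤ P.mulHeight ∧ P.mulHeight ≤ (2 : ℝ) ^ (k + 1) := by
    intro P hP
    rw [Finset.mem_biUnion]
    have hPB : P.mulHeight ≤ B := (hF hP).2.1
    have hP1 := hH1 P
    have hP0 : 0 < P.mulHeight := by linarith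
    have hl0 : 0 ≤ Real.logb 2 P.mulHeight := Real.logb_nonneg (by norm_num) hP1
    refine ⟨⌊Real.logb 2 P.mulHeight⌋₊, ?_, ?_⟩
    · rw [Finset.mem_range, Nat.lt_add_one_iff]
      refine Nat.floor_le_floor ?_
      exact Real.logb_le_logb_of_le (by norm_num) hP0 hPB
    · rw [Finset.mem_filter]
      refine ⟨hP, ?_, ?_⟩
      · have h1 := Nat.floor_le hl0
        rw [Real.le_logb_iff_rpow_le (by norm_num) hP0, Real.rpow_natCast] at h1
        exact h1
      · have h1 : Real.logb 2 P.mulHeight < ((⌊Real.logb 2 P.mulHeight⌋₊ + 1 : ℕ) : ℝ) := by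
          push_cast
          exact Nat.lt_floor_add_one _
        rw [Real.logb_lt_iff_lt_rpow (by norm_num) hP0, Real.rpow_natCast] at h1
        exact h1.le
  have h1 : (F.card : ℝ) ≤ ∑ k ∈ Finset.range (m + 1), M * (x * x ^ k) := by
    have h2 : F.card ≤ ∑ k ∈ Finset.range (m + 1),
        (F.filter fun P => (2 : ℝ) ^ k ≤ P.mulHeight ∧ P.mulHeight ≤ (2 : ℝ) ^ (k + 1)).card :=
      (Finset.card_le_card hcover).trans Finset.card_biUnion_le
    have h3 : (F.card : ℝ) ≤ ∑ k ∈ Finset.range (m + 1),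
        ((F.filter fun P => (2 : ℝ) ^ k ≤ P.mulHeight ∧ P.mulHeight ≤ (2 : ℝ) ^ (k + 1)).card : ℝ) := by
      exact_mod_cast h2
    refine h3.trans (Finset.sum_le_sum fun k _ => ?_)
    have h4 := hshell ((2 : ℝ) ^ (k + 1)) (one_le_pow₀ (by norm_num))
      (F.filter fun P => (2 : ℝ) ^ k ≤ P.mulHeight ∧ P.mulHeight ≤ (2 : ℝ) ^ (k + 1)) (by
        intro P hP
        rw [Finset.mem_filter] at hP
        obtain ⟨g1, g2, g3⟩ := hF hP.1
        refine ⟨⟨g1, hP.2.2, g3⟩, ?_⟩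
        rw [pow_succ]
        linarith [hP.2.1])
    refine h4.trans (le_of_eq ?_)
    congr 1
    rw [hx, ← pow_succ', ← Real.rpow_natCast, ← Real.rpow_natCast, ← Real.rpow_mul (by norm_num),
      ← Real.rpow_mul (by norm_num)]
    congr 1
    push_cast
    ring
  refine h1.trans ?_
  rw [← Finset.mul_sum, ← Finset.mul_sum]
  have h5 := geom_le hx1 (m + 1)
  have h6 : x ^ m ≤ B ^ s := by
    rw [hx, ← Real.rpow_natCast, ← Real.rpow_mul (by norm_num), mul_comm, Real.rpow_mul (by norm_num),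
      Real.rpow_natCast]
    exact Real.rpow_le_rpow (by positivity) hm1 hs0.le
  have hx2 : 0 < x - 1 := by linarith
  calc M * (x * ∑ k ∈ Finset.range (m + 1), x ^ k) ≤ M * (x * (x ^ (m + 1) / (x - 1))) := by
        gcongr
    _ = M * x * (x / (x - 1)) * x ^ m := by
        rw [pow_succ]; ring
    _ ≤ M * x * (x / (x - 1)) * B ^ s := by gcongr

end Pool.Agent.W232.VA
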