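import Pool.Agent.W232.VA.Q

set_option autoImplicit false
set_option linter.unusedSectionVars false

/-!
Arrangements, lower bound, part A: boxes of integral points.
-/

namespace Pool.Agent.W232.VA

open NumberField IsDedekindDomain Finset Pool.Agent.H691R3 Height

variable {K : Type*} [Field K] [NumberField K] {n r : ℕ}

variable (K) in
/-- index set of an integral basis -/
abbrev BI := Module.Free.ChooseBasisIndex ℤ (𝓞 K)

/-- combination of the integral basis with natural coefficients -/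
noncomputable def comb (c : BI K → ℕ) : 𝓞 K := ∑ i, (c i : ℤ) • RingOfIntegers.basis K i

lemma comb_inj : Function.Injective (comb : (BI K → ℕ) → 𝓞 K) := by
  intro c c' h
  have h2 : ∀ (c : BI K → ℕ) i, (RingOfIntegers.basis K).repr (comb c) i = (c i : ℤ) := by
    intro c i
    unfold comb
    rw [(RingOfIntegers.basis K).repr_sum_self]
  ext i
  have h3 := h2 c i
  rw [h, h2 c' i] at h3
  exact_mod_cast h3.symm

variable (K) in
lemma card_BI : Fintype.card (BI K) = Module.finrank ℚ K := by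
  rw [← RingOfIntegers.rank, Module.finrank_eq_card_chooseBasisIndex]

instance : Nonempty (BI K) := by
  rw [← Fintype.card_pos_iff, card_BI]
  exact Module.finrank_pos

lemma comb_ne_zero {c : BI K → ℕ} (h : ∀ i, 1 ≤ c i) : comb c ≠ 0 := by
  intro h0
  have h1 : comb (0 : BI K → ℕ) = (0 : 𝓞 K) := by
    unfold comb
    simp
  have h2 := comb_inj (h0.trans h1.symm)
  obtain ⟨i⟩ := (inferInstance : Nonempty (BI K))
  have h3 := h i
  rw [h2] at h3
  simp at h3

lemma w_natCast (w : InfinitePlace K) (m : ℕ) : w ((m : ℕ) : K) = m := by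
  rw [← InfinitePlace.norm_embedding_eq, map_natCast, Complex.norm_natCast]

variable (K) in
lemma comb_size : ∃ Ω : ℝ, 1 ≤ Ω ∧ ∀ (w : InfinitePlace K) (c : BI K → ℕ) (M : ℝ),
    (∀ i, (c i : ℝ) ≤ M) → w ((comb c : 𝓞 K) : K) ≤ Ω * M := by
  classical
  have h0 : ∀ w : InfinitePlace K, 0 ≤ ∑ i, w ((RingOfIntegers.basis K i : 𝓞 K) : K) := fun w =>
    Finset.sum_nonneg fun i _ => apply_nonneg w _
  refine ⟨1 + ∑ w : InfinitePlace K, ∑ i, w ((RingOfIntegers.basis K i : 𝓞 K) : K), ?_, ?_⟩
  · have := Finset.sum_nonneg fun w (_ : w ∈ (univ : Finset (InfinitePlace K))) => h0 w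
    linarith
  · intro w c M hM
    obtain ⟨i0⟩ := (inferInstance : Nonempty (BI K))
    have hM0 : 0 ≤ M := (Nat.cast_nonneg _).trans (hM i0)
    have h1 : ((comb c : 𝓞 K) : K) = ∑ i, ((c i : ℕ) : K) * ((RingOfIntegers.basis K i : 𝓞 K) : K) := by
      unfold comb
      refine (map_sum (algebraMap (𝓞 K) K) _ univ).trans ?_
      refine Finset.sum_congr rfl fun i _ => ?_
      rw [zsmul_eq_mul, map_mul]
      simp
    have h2 : w ((comb c : 𝓞 K) : K) ≤ ∑ i, (c i : ℝ) * w ((RingOfIntegers.basis K i : 𝓞 K) : K) := by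
      rw [h1]
      refine (w.1.sum_le _ _).trans (Finset.sum_le_sum fun i _ => ?_)
      have : w (((c i : ℕ) : K) * ((RingOfIntegers.basis K i : 𝓞 K) : K)) =
          (c i : ℝ) * w ((RingOfIntegers.basis K i : 𝓞 K) : K) := by
        rw [map_mul, w_natCast]
      exact this.le
    have h3 : ∑ i, (c i : ℝ) * w ((RingOfIntegers.basis K i : 𝓞 K) : K) ≤
        ∑ i, M * w ((RingOfIntegers.basis K i : 𝓞 K) : K) :=
      Finset.sum_le_sum fun i _ => mul_le_mul_of_nonneg_right (hM i) (apply_nonneg w _)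
    rw [← Finset.mul_sum] at h3
    have h4 : ∑ i, w ((RingOfIntegers.basis K i : 𝓞 K) : K) ≤
        ∑ w : InfinitePlace K, ∑ i, w ((RingOfIntegers.basis K i : 𝓞 K) : K) :=
      Finset.single_le_sum (f := fun w : InfinitePlace K => ∑ i, w ((RingOfIntegers.basis K i : 𝓞 K) : K))
        (fun w _ => h0 w) (Finset.mem_univ w)
    have h5 := mul_le_mul_of_nonneg_left h4 hM0
    nlinarith

/-- box of coefficient vectors -/
noncomputable def bx1 (M : ℕ) : Finset (BI K → ℕ) := Fintype.piFinset fun _ => Finset.Icc 1 M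

lemma mem_bx1 {M : ℕ} {b : BI K → ℕ} : b ∈ bx1 M ↔ ∀ i, 1 ≤ b i ∧ b i ≤ M := by
  unfold bx1
  simp [Fintype.mem_piFinset]

lemma card_bx1 (M : ℕ) : (bx1 (K := K) M).card = M ^ Module.finrank ℚ K := by
  unfold bx1
  rw [Fintype.card_piFinset, Finset.prod_const, Finset.card_univ, card_BI, Nat.card_Icc]
  simp

/-- box of families of coefficient vectors -/
noncomputable def bx (M : Fin (n + 1) → ℕ) : Finset (Fin (n + 1) → BI K → ℕ) :=
  Fintype.piFinset fun j => bx1 (M j)

lemma card_bx (M : Fin (n + 1) → ℕ) : (bx (K := K) M).card = ∏ j, M j ^ Module.finrank ℚ K := by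
  unfold bx
  rw [Fintype.card_piFinset]
  exact Finset.prod_congr rfl fun j _ => card_bx1 _

/-- the integral vectors attached to coefficient vectors -/
noncomputable def zz (p q : Fin (n + 1) → 𝓞 K) (c : Fin (n + 1) → BI K → ℕ) : Fin (n + 1) → 𝓞 K :=
  fun j => p j + q j * comb (c j)

lemma zz_inj (p : Fin (n + 1) → 𝓞 K) {q : Fin (n + 1) → 𝓞 K} (hq : ∀ j, q j ≠ 0) :
    Function.Injective (zz p q) := by
  intro c c' h
  ext j i
  have h1 := congrFun h j
  unfold zz at h1
  have h2 := mul_left_cancel₀ (hq j) (add_left_cancel h1)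
  exact congrFun (comb_inj h2) i

lemma bad_card (M : Fin (n + 1) → ℕ) (D : Finset (Fin (n + 1) → BI K → ℕ)) (hD : D ⊆ bx M)
    (j : Fin (n + 1)) (h : ∀ c ∈ D, ∀ c' ∈ D, (∀ j', j' ≠ j → c j' = c' j') → c = c') :
    D.card * M j ^ Module.finrank ℚ K ≤ (bx (K := K) M).card := by
  classical
  have h1 : D.card ≤ (Fintype.piFinset fun j' => if j' = j then ({0} : Finset (BI K → ℕ)) else bx1 (M j')).card := by
    refine Finset.card_le_card_of_injOn (fun c => Function.update c j 0) ?_ ?_
    · intro c hc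
      have hc' := hD hc
      unfold bx at hc'
      rw [Fintype.mem_piFinset] at hc'
      rw [Finset.mem_coe, Fintype.mem_piFinset]
      intro j'
      by_cases hj : j' = j
      · rw [if_pos hj, hj]
        simp
      · rw [if_neg hj]
        simp only [Function.update_of_ne hj]
        exact hc' j'
    · intro c hc c' hc' hcc
      refine h c hc c' hc' fun j' hj => ?_
      have := congrFun hcc j'
      simp only [Function.update_of_ne hj] at this
      exact this
  rw [Fintype.card_piFinset, ← Finset.mul_prod_erase univ _ (Finset.mem_univ j)] at h1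
  rw [if_pos rfl, Finset.card_singleton, one_mul] at h1
  have h2 : ∏ j' ∈ univ.erase j, (if j' = j then ({0} : Finset (BI K → ℕ)) else bx1 (M j')).card =
      ∏ j' ∈ univ.erase j, M j' ^ Module.finrank ℚ K :=
    Finset.prod_congr rfl fun j' hj => by rw [if_neg (Finset.ne_of_mem_erase hj), card_bx1]
  rw [h2] at h1
  rw [card_bx, ← Finset.prod_erase_mul univ _ (Finset.mem_univ j)]
  exact Nat.mul_le_mul_right _ h1

lemma form_bad (M : Fin (n + 1) → ℕ) (p : Fin (n + 1) → 𝓞 K) {q : Fin (n + 1) → 𝓞 K}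
    (hq : ∀ j, q j ≠ 0) (β : Fin (n + 1) → K) (hβ : β ≠ 0) [DecidablePred fun c => lin β (cz (zz p q c)) = 0] :
    ∃ j, ((bx (K := K) M).filter fun c => lin β (cz (zz p q c)) = 0).card * M j ^ Module.finrank ℚ K ≤
      (bx (K := K) M).card := by
  classical
  obtain ⟨j, hj⟩ := Function.ne_iff.mp hβ
  refine ⟨j, bad_card M _ (Finset.filter_subset _ _) j ?_⟩
  intro c hc c' hc' hcc
  have h1 := (Finset.mem_filter.mp hc).2
  have h2 := (Finset.mem_filter.mp hc').2
  have h3 : β j * ((zz p q c j : 𝓞 K) : K) = β j * ((zz p q c' j : 𝓞 K) : K) := by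
    have h4 : lin β (cz (zz p q c)) - lin β (cz (zz p q c')) = 0 := by rw [h1, h2, sub_zero]
    unfold lin at h4
    rw [← Finset.sum_sub_distrib, ← Finset.add_sum_erase _ _ (Finset.mem_univ j)] at h4
    rw [Finset.sum_eq_zero (s := univ.erase j)] at h4
    · unfold cz at h4
      linear_combination h4
    · intro j' hj'
      have : zz p q c j' = zz p q c' j' := by
        unfold zz
        rw [hcc j' (Finset.ne_of_mem_erase hj')]
      unfold cz
      rw [this, sub_self]
  have h5 : zz p q c j = zz p q c' j := RingOfIntegers.ext (mul_left_cancel₀ hj h3)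
  unfold zz at h5
  have h6 := comb_inj (mul_left_cancel₀ (hq j) (add_left_cancel h5))
  ext j' i
  by_cases hjj : j' = j
  · rw [hjj, h6]
  · rw [hcc j' hjj]

/-- the number of values divisible by a prime -/
lemma fac_bound (C1 : ℝ) (hC1 : 0 < C1) :
    ∃ C : ℝ, 0 < C ∧ ∀ (R : ℝ), 0 < R → ∀ (p q : 𝓞 K), q ≠ 0 → ∀ (D : Finset (BI K → ℕ)),
      (∀ b ∈ D, p + q * comb b ≠ 0) →
      (∀ b ∈ D, ∀ w : InfinitePlace K, w ((p + q * comb b : 𝓞 K) : K) ≤ C1 * R) →
      ∀ v : HeightOneSpectrum (𝓞 K), (∀ b ∈ D, p + q * comb b ∈ v.asIdeal) →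
      (D.card : ℝ) ≤ C * R ^ Module.finrank ℚ K / Nv v := by
  classical
  obtain ⟨C, hC, h⟩ := count1 (K := K) C1 hC1
  refine ⟨C, hC, ?_⟩
  intro R hR p q hq D h0 h1 v hv
  have hinj : Function.Injective fun b : BI K → ℕ => p + q * comb b := fun b b' hbb =>
    comb_inj (mul_left_cancel₀ hq (add_left_cancel hbb))
  have key := h R hR {v} (fun _ => 0) (fun _ => 1) (D.image fun b => p + q * comb b) (by
      intro z hz
      obtain ⟨b, hb, rfl⟩ := Finset.mem_image.mp hz
      exact h0 b hb) (by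
      intro z hz w
      obtain ⟨b, hb, rfl⟩ := Finset.mem_image.mp hz
      simpa using h1 b hb w) (by
      intro z hz u hu
      obtain ⟨b, hb, rfl⟩ := Finset.mem_image.mp hz
      rw [Finset.mem_singleton.mp hu, pow_one]
      exact hv b hb)
  rw [Finset.card_image_of_injective _ hinj] at key
  refine key.trans (le_of_eq ?_)
  have hN : (0 : ℝ) < Nv v := by linarith [two_le_Nv v]
  simp only [Nat.cast_zero, Finset.sum_const_zero, sub_zero, Finset.sum_singleton, Nat.cast_one, one_mul]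
  rw [Real.exp_sub, Real.exp_log hN, ← Real.log_rpow hR, Real.exp_log (by positivity), Real.rpow_natCast]
  ring

lemma gcd_bad (M : Fin (n + 1) → ℕ) (p q : Fin (n + 1) → 𝓞 K) (v : HeightOneSpectrum (𝓞 K)) {Cg : ℝ}
    (h : ∀ (j : Fin (n + 1)) (D : Finset (BI K → ℕ)), D ⊆ bx1 (M j) →
      (∀ b ∈ D, p j + q j * comb b ∈ v.asIdeal) → (D.card : ℝ) ≤ Cg * (M j) ^ Module.finrank ℚ K / Nv v)
    (D : Finset (Fin (n + 1) → BI K → ℕ)) (hD : D ⊆ bx M) (hDv : ∀ c ∈ D, ∀ j, zz p q c j ∈ v.asIdeal) :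
    (D.card : ℝ) ≤ (Cg / Nv v) ^ (n + 1) * (bx (K := K) M).card := by
  classical
  have h1 : D ⊆ Fintype.piFinset fun j => (bx1 (M j)).filter fun b => p j + q j * comb b ∈ v.asIdeal := by
    intro c hc
    rw [Fintype.mem_piFinset]
    intro j
    rw [Finset.mem_filter]
    have h2 := hD hc
    unfold bx at h2
    rw [Fintype.mem_piFinset] at h2
    exact ⟨h2 j, hDv c hc j⟩
  have h2 : (D.card : ℝ) ≤ ∏ j, (((bx1 (M j)).filter fun b => p j + q j * comb b ∈ v.asIdeal).card : ℝ) := by
    have := Finset.card_le_card h1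
    rw [Fintype.card_piFinset] at this
    exact_mod_cast this
  refine h2.trans ?_
  refine (Finset.prod_le_prod (fun _ _ => Nat.cast_nonneg _) fun j _ =>
    h j _ (Finset.filter_subset _ _) fun b hb => (Finset.mem_filter.mp hb).2).trans (le_of_eq ?_)
  rw [card_bx]
  push_cast
  have h3 : ∀ j : Fin (n + 1), Cg * (M j : ℝ) ^ Module.finrank ℚ K / Nv v =
      (Cg / Nv v) * (M j : ℝ) ^ Module.finrank ℚ K := fun j => by ring
  rw [Finset.prod_congr rfl fun j _ => h3 j, Finset.prod_mul_distrib, Finset.prod_const,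
    Finset.card_univ, Fintype.card_fin]

end Pool.Agent.W232.VA
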