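import Pool.Agent.W232.VA.R

set_option autoImplicit false
set_option linter.unusedSectionVars false

/-!
Arrangements, lower bound, part B: coordinates adapted to a hyperplane, multiplicities.
-/

namespace Pool.Agent.W232.VA

open NumberField IsDedekindDomain Finset Pool.Agent.H691R3 Height

variable {K : Type*} [Field K] [NumberField K] {n r : ℕ}

/-- coordinates adapted to the form `α` -/
def xo (α : Fin (n + 1) → 𝓞 K) (j0 : Fin (n + 1)) (z : Fin (n + 1) → 𝓞 K) : Fin (n + 1) → 𝓞 K :=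
  fun j => if j = j0 then z j0 - ∑ j' ∈ univ.erase j0, α j' * z j' else α j0 * z j

/-- pullback of a form -/
def pb (α : Fin (n + 1) → 𝓞 K) (j0 : Fin (n + 1)) (b : Fin (n + 1) → K) : Fin (n + 1) → K :=
  fun j => if j = j0 then b j0 else b j * ((α j0 : 𝓞 K) : K) - b j0 * ((α j : 𝓞 K) : K)

lemma lin_pb (α : Fin (n + 1) → 𝓞 K) (j0 : Fin (n + 1)) (b : Fin (n + 1) → K) (z : Fin (n + 1) → 𝓞 K) :
    lin b (cz (xo α j0 z)) = lin (pb α j0 b) (cz z) := by
  classical
  unfold lin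
  rw [← Finset.add_sum_erase _ _ (Finset.mem_univ j0),
    ← Finset.add_sum_erase (s := univ) (fun j => pb α j0 b j * cz z j) (Finset.mem_univ j0)]
  have h1 : cz (xo α j0 z) j0 = cz z j0 - ∑ j' ∈ univ.erase j0, ((α j' : 𝓞 K) : K) * cz z j' := by
    unfold cz xo
    rw [if_pos rfl]
    refine (map_sub (algebraMap (𝓞 K) K) _ _).trans ?_
    congr 1
    refine (map_sum (algebraMap (𝓞 K) K) _ _).trans ?_
    exact Finset.sum_congr rfl fun j' _ => map_mul (algebraMap (𝓞 K) K) _ _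
  have h2 : ∀ j ∈ univ.erase j0, b j * cz (xo α j0 z) j =
      b j * ((α j0 : 𝓞 K) : K) * cz z j := by
    intro j hj
    unfold cz xo
    rw [if_neg (Finset.ne_of_mem_erase hj)]
    have : ((α j0 * z j : 𝓞 K) : K) = ((α j0 : 𝓞 K) : K) * ((z j : 𝓞 K) : K) :=
      map_mul (algebraMap (𝓞 K) K) _ _
    rw [this]
    ring
  have h3 : ∀ j ∈ univ.erase j0, pb α j0 b j * cz z j =
      b j * ((α j0 : 𝓞 K) : K) * cz z j - b j0 * (((α j : 𝓞 K) : K) * cz z j) := by
    intro j hj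
    unfold pb
    rw [if_neg (Finset.ne_of_mem_erase hj)]
    ring
  rw [h1, Finset.sum_congr rfl h2, Finset.sum_congr rfl h3, Finset.sum_sub_distrib, ← Finset.mul_sum]
  unfold pb
  rw [if_pos rfl]
  ring

lemma pb_ne_zero {α : Fin (n + 1) → 𝓞 K} {j0 : Fin (n + 1)} (h0 : α j0 ≠ 0) {b : Fin (n + 1) → K}
    (hb : b ≠ 0) : pb α j0 b ≠ 0 := by
  intro h
  apply hb
  have h1 : b j0 = 0 := by
    have := congrFun h j0
    unfold pb at this
    rwa [if_pos rfl] at this
  ext j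
  by_cases hj : j = j0
  · rw [hj]; exact h1
  · have h2 := congrFun h j
    unfold pb at h2
    rw [if_neg hj, h1, zero_mul, sub_zero] at h2
    have h3 : ((α j0 : 𝓞 K) : K) ≠ 0 := RingOfIntegers.coe_ne_zero_iff.mpr h0
    exact (mul_eq_zero.mp h2).resolve_right h3

lemma lin_self (α : Fin (n + 1) → 𝓞 K) (j0 : Fin (n + 1)) (z : Fin (n + 1) → 𝓞 K) :
    lin (cz α) (cz (xo α j0 z)) = ((α j0 : 𝓞 K) : K) * cz z j0 := by
  classical
  rw [lin_pb]
  unfold lin
  rw [← Finset.add_sum_erase _ _ (Finset.mem_univ j0), Finset.sum_eq_zero (s := univ.erase j0)]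
  · unfold pb
    rw [if_pos rfl, add_zero]
    rfl
  · intro j hj
    unfold pb
    rw [if_neg (Finset.ne_of_mem_erase hj)]
    have : cz α j * ((α j0 : 𝓞 K) : K) - cz α j0 * ((α j : 𝓞 K) : K) = 0 := by
      unfold cz
      ring
    rw [this, zero_mul]

lemma xo_smul {α : Fin (n + 1) → 𝓞 K} {j0 : Fin (n + 1)} (h0 : α j0 ≠ 0) {z z' : Fin (n + 1) → 𝓞 K}
    {t : K} (h : cz (xo α j0 z') = t • cz (xo α j0 z)) : cz z' = t • cz z := by
  have h3 : ((α j0 : 𝓞 K) : K) ≠ 0 := RingOfIntegers.coe_ne_zero_iff.mpr h0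
  ext j
  by_cases hj : j = j0
  · have h1 := lin_self α j0 z'
    rw [h, lin_smul_right, lin_self] at h1
    rw [hj, Pi.smul_apply, smul_eq_mul]
    have h2 : ((α j0 : 𝓞 K) : K) * (t * cz z j0) = ((α j0 : 𝓞 K) : K) * cz z' j0 := by
      rw [← h1]; ring
    exact (mul_left_cancel₀ h3 h2).symm
  · have h1 := congrFun h j
    have h2 : ∀ z : Fin (n + 1) → 𝓞 K, cz (xo α j0 z) j = ((α j0 : 𝓞 K) : K) * cz z j := by
      intro z
      unfold cz xo
      rw [if_neg hj]
      exact map_mul (algebraMap (𝓞 K) K) _ _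
    rw [Pi.smul_apply, smul_eq_mul, h2, h2] at h1
    rw [Pi.smul_apply, smul_eq_mul]
    refine mul_left_cancel₀ h3 ?_
    rw [h1]; ring

variable (K) in
/-- multiplicities are bounded -/
lemma mult_bound : ∃ C : ℝ, 0 < C ∧ ∀ (X : ℝ), 0 < X → ∀ (j1 : Fin (n + 1)) (z0 : Fin (n + 1) → 𝓞 K)
    (E : Finset (Fin (n + 1) → 𝓞 K)),
    (∀ v : HeightOneSpectrum (𝓞 K), ∃ j, z0 j ∉ v.asIdeal) →
    (∀ w : InfinitePlace K, X / 8 ≤ w (cz z0 j1)) →
    (∀ z ∈ E, ∀ w : InfinitePlace K, w (cz z j1) ≤ X) →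
    (∀ z ∈ E, z j1 ≠ 0) →
    (∀ z ∈ E, ∃ t : K, cz z = t • cz z0) → (E.card : ℝ) ≤ C := by
  classical
  obtain ⟨C, hC, h⟩ := count1 (K := K) 1 one_pos
  refine ⟨C * Real.exp (Module.finrank ℚ K * Real.log 8), by positivity, ?_⟩
  intro X hX j1 z0 E hgcd hlow hup hne ht
  have hz01 : z0 j1 ≠ 0 := by
    intro h0
    obtain ⟨w⟩ := (inferInstance : Nonempty (InfinitePlace K))
    have := hlow w
    unfold cz at this
    rw [h0] at this
    have h1 : ((0 : 𝓞 K) : K) = 0 := map_zero _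
    rw [h1, map_zero] at this
    linarith
  have hz01' : ((z0 j1 : 𝓞 K) : K) ≠ 0 := RingOfIntegers.coe_ne_zero_iff.mpr hz01
  have hex : ∀ v : HeightOneSpectrum (𝓞 K), ∃ m : ℕ, fv v ((z0 j1 : 𝓞 K) : K) = Nv v ^ (-(m : ℤ)) := by
    intro v
    obtain ⟨k, hk⟩ := fv_zpow v hz01'
    have h1 := fv_int_le_one v (z0 j1)
    have hN : (1 : ℝ) < Nv v := by linarith [two_le_Nv v]
    rw [hk] at h1
    have h2 : k ≤ 0 := by
      by_contra hcon
      rw [not_le] at hcon
      exact absurd h1 (not_le.mpr (one_lt_zpow₀ hN hcon))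
    refine ⟨(-k).toNat, ?_⟩
    rw [hk]
    congr 1
    omega
  choose m hm using hex
  have hinj : Set.InjOn (fun z : Fin (n + 1) → 𝓞 K => z j1) (E : Set (Fin (n + 1) → 𝓞 K)) := by
    intro z hz z' hz' hzz
    obtain ⟨t, hzt⟩ := ht z hz
    obtain ⟨t', hzt'⟩ := ht z' hz'
    have h1 : cz z j1 = t * cz z0 j1 := by rw [hzt]; rfl
    have h2 : cz z' j1 = t' * cz z0 j1 := by rw [hzt']; rfl
    have h3 : cz z j1 = cz z' j1 := congrArg (fun u : 𝓞 K => (u : K)) hzz
    rw [h1, h2] at h3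
    have h4 : t = t' := mul_right_cancel₀ hz01' h3
    ext j
    have h5 : cz z j = cz z' j := by rw [hzt, hzt', h4]
    exact h5
  rw [← Finset.card_image_of_injOn hinj]
  have hfin := log_fv_support_finite hz01'
  have key := h X hX hfin.toFinset (fun _ => 0) m (E.image fun z => z j1) (by
      intro s hs
      obtain ⟨z, hz, rfl⟩ := Finset.mem_image.mp hs
      exact hne z hz) (by
      intro s hs w
      obtain ⟨z, hz, rfl⟩ := Finset.mem_image.mp hs
      have h1 := hup z hz w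
      unfold cz at h1
      simpa using h1) (by
      intro s hs v _
      obtain ⟨z, hz, rfl⟩ := Finset.mem_image.mp hs
      obtain ⟨t, hzt⟩ := ht z hz
      obtain ⟨j, hj⟩ := hgcd v
      rw [← fv_le_pow_iff, ← hm v]
      have h1 : fv v (cz z0 j) = 1 := fv_eq_one_of_notMem v hj
      have h2 : fv v t ≤ 1 := by
        have h3 : cz z j = t * cz z0 j := by rw [hzt]; rfl
        have h4 : fv v (cz z j) ≤ 1 := fv_int_le_one v (z j)
        rw [h3, map_mul, h1, mul_one] at h4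
        exact h4
      have h3 : ((z j1 : 𝓞 K) : K) = t * ((z0 j1 : 𝓞 K) : K) := congrFun hzt j1
      rw [h3, map_mul]
      calc fv v t * fv v ((z0 j1 : 𝓞 K) : K) ≤ 1 * fv v ((z0 j1 : 𝓞 K) : K) :=
            mul_le_mul_of_nonneg_right h2 ((fv v).nonneg _)
        _ = _ := one_mul _)
  refine key.trans (mul_le_mul_of_nonneg_left (Real.exp_le_exp.mpr ?_) hC.le)
  have h1 : ∑ v ∈ hfin.toFinset, (m v : ℝ) * Real.log (Nv v) =
      ∑ w : InfinitePlace K, (w.mult : ℝ) * Real.log (w ((z0 j1 : 𝓞 K) : K)) := by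
    have h2 := log_product_formula hz01'
    rw [finsum_eq_sum_of_support_toFinset_subset _ hfin (Finset.Subset.refl _)] at h2
    have h3 : ∀ v ∈ hfin.toFinset, Real.log (fv v ((z0 j1 : 𝓞 K) : K)) = -((m v : ℝ) * Real.log (Nv v)) := by
      intro v _
      rw [hm v, Real.log_zpow]
      push_cast
      ring
    rw [Finset.sum_congr rfl h3, Finset.sum_neg_distrib] at h2
    linarith
  have h2 : (Module.finrank ℚ K : ℝ) * (Real.log X - Real.log 8) ≤
      ∑ w : InfinitePlace K, (w.mult : ℝ) * Real.log (w ((z0 j1 : 𝓞 K) : K)) := by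
    rw [← sum_mult_real, Finset.sum_mul]
    refine Finset.sum_le_sum fun w _ => mul_le_mul_of_nonneg_left ?_ (Nat.cast_nonneg _)
    rw [← Real.log_div hX.ne' (by norm_num)]
    exact Real.log_le_log (by positivity) (hlow w)
  rw [h1]
  simp only [Nat.cast_zero, Finset.sum_const_zero, sub_zero]
  linarith

end Pool.Agent.W232.VA
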