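import Pool.Agent.W232.VA.S

set_option autoImplicit false
set_option linter.unusedSectionVars false

/-!
Arrangements, lower bound, part C: the defect of the points of the construction.
-/

namespace Pool.Agent.W232.VA

open NumberField IsDedekindDomain Finset Pool.Agent.H691R3 Height LinearAlgebra.Projectivization

variable {K : Type*} [Field K] [NumberField K] {n r : ℕ}

lemma indep_singleton {V : Type*} [AddCommGroup V] [Module K V] (a : Fin r → V) {i : Fin r} (hi : a i ≠ 0) :
    LinearIndependent K (fun j : ({i} : Finset (Fin r)) => a j) := by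
  let _ : Unique ({i} : Finset (Fin r)) :=
    ⟨⟨⟨i, Finset.mem_singleton_self i⟩⟩, fun j => Subtype.ext (Finset.mem_singleton.mp j.2)⟩
  rw [linearIndependent_unique_iff]
  exact hi

lemma log_Nv_le_wt (v : HeightOneSpectrum (𝓞 K)) {a : Fin r → Fin (n + 1) → K} (ha : ∀ i, a i ≠ 0)
    {x : Fin (n + 1) → K} (hx : x ≠ 0) (hl : ∀ i, lin (a i) x ≠ 0) {i : Fin r}
    (hi : 0 < lam (fv v) (a i) x) : Real.log (Nv v) ≤ wt (fv v) a x := by
  obtain ⟨k, hk⟩ := lam_fin v (ha i) hx (hl i)
  have hk1 : (1 : ℝ) ≤ k := by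
    rcases Nat.eq_zero_or_pos k with h0 | h0
    · rw [hk, h0] at hi
      simp at hi
    · exact_mod_cast h0
  have hind := indep_singleton (K := K) a (ha i)
  have h2 := le_wt (fv v) a x {i} hind
  rw [Finset.sum_singleton] at h2
  have h3 := log_Nv_pos v
  nlinarith

lemma lam_le_wt (v : HeightOneSpectrum (𝓞 K)) {a : Fin r → Fin (n + 1) → K} (ha : ∀ i, a i ≠ 0)
    (x : Fin (n + 1) → K) (i : Fin r) : lam (fv v) (a i) x ≤ wt (fv v) a x := by
  have hind := indep_singleton (K := K) a (ha i)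
  have h2 := le_wt (fv v) a x {i} hind
  rwa [Finset.sum_singleton] at h2

variable (K) in
lemma two_ne : ((2 : 𝓞 K) : K) ≠ 0 := RingOfIntegers.coe_ne_zero_iff.mpr two_ne_zero

variable (K) in
lemma sum_log_two : ∑ v ∈ (log_fv_support_finite (two_ne K)).toFinset, Real.log (fv v ((2 : 𝓞 K) : K)) =
    -((Module.finrank ℚ K : ℝ) * Real.log 2) := by
  have h := log_product_formula (two_ne K)
  rw [finsum_eq_sum_of_support_toFinset_subset _ (log_fv_support_finite (two_ne K)) (Finset.Subset.refl _)] at h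
  have h2 : ∀ w : InfinitePlace K, w ((2 : 𝓞 K) : K) = 2 := by
    intro w
    have : ((2 : 𝓞 K) : K) = ((2 : ℕ) : K) := (map_ofNat (algebraMap (𝓞 K) K) 2).trans (by norm_num)
    rw [this, w_natCast]
    norm_num
  simp only [h2] at h
  rw [← Finset.sum_mul, sum_mult_real] at h
  linarith

theorem defect (b : Fin r → Fin (n + 1) → 𝓞 K) (hb : ∀ i, cz (b i) ≠ 0) (i0 : Fin r) {j0 : Fin (n + 1)}
    (h0 : b i0 j0 ≠ 0) {j1 : Fin (n + 1)} (hj : j1 ≠ j0) (S : Finset (HeightOneSpectrum (𝓞 K))) :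
    ∃ c0 : ℝ, ∀ (k : ℕ) (z : Fin (n + 1) → 𝓞 K) (u : 𝓞 K), z j0 = 2 ^ k * u →
      (∀ v : HeightOneSpectrum (𝓞 K), (2 : 𝓞 K) ∈ v.asIdeal → z j1 ∉ v.asIdeal) →
      (∀ i, lin (cz (b i)) (cz (xo (b i0) j0 z)) ≠ 0) →
      N1 S (fun i => cz (b i)) (cz (xo (b i0) j0 z)) ≤
        hW (fun i => cz (b i)) (cz (xo (b i0) j0 z)) - k * ((Module.finrank ℚ K : ℝ) * Real.log 2) + c0 := by
  classical
  set T2 := (log_fv_support_finite (two_ne K)).toFinset with hT2
  set A0 : K := ((b i0 j0 : 𝓞 K) : K) with hA0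
  have hA0' : A0 ≠ 0 := RingOfIntegers.coe_ne_zero_iff.mpr h0
  refine ⟨∑ v ∈ T2, (Real.log (Nv v) - Real.log (fv v A0)), ?_⟩
  intro k z u hz hz1 hl
  set x := xo (b i0) j0 z with hx
  have hx0 : cz x ≠ 0 := by
    intro h
    apply hl i0
    rw [h]
    unfold lin
    exact Finset.sum_eq_zero fun j _ => by rw [Pi.zero_apply, mul_zero]
  obtain ⟨T, hT⟩ := exists_T hb hx0 hl
  have hT' : ∀ v ∉ T ∪ T2, ∀ i, lam (fv v) (cz (b i)) (cz x) = 0 := fun v hv =>
    hT v fun h => hv (Finset.mem_union_left _ h)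
  have hN : N1 S (fun i => cz (b i)) (cz x) = ∑ v ∈ T ∪ T2,
      if v ∉ S ∧ ∃ i, 0 < lam (fv v) (cz (b i)) (cz x) then Real.log (Nv v) else 0 := by
    unfold N1
    rw [finsum_eq_sum_of_support_subset (s := T ∪ T2)]
    intro v hv
    by_contra hne
    rw [Function.mem_support] at hv
    apply hv
    rw [if_neg]
    rintro ⟨_, i, hi⟩
    rw [hT' v hne i] at hi
    exact lt_irrefl _ hi
  have hW0 : ∑ v ∈ T ∪ T2, wt (fv v) (fun i => cz (b i)) (cz x) ≤ hW (fun i => cz (b i)) (cz x) := by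
    rw [hW_eq hT', Finset.sum_disjSum]
    have h1 : 0 ≤ ∑ w : InfinitePlace K, wtP (Sum.inl w : Pl K) (fun i => cz (b i)) (cz x) :=
      Finset.sum_nonneg fun w _ => mul_nonneg (Nat.cast_nonneg _) (wt_nonneg _ _ _)
    have h2 : ∑ v ∈ T ∪ T2, wtP (Sum.inr v : Pl K) (fun i => cz (b i)) (cz x) =
        ∑ v ∈ T ∪ T2, wt (fv v) (fun i => cz (b i)) (cz x) := rfl
    linarith
  have hterm : ∀ v ∈ T ∪ T2, (if v ∉ S ∧ ∃ i, 0 < lam (fv v) (cz (b i)) (cz x) then Real.log (Nv v) else 0) -
      wt (fv v) (fun i => cz (b i)) (cz x) ≤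
      if v ∈ T2 then Real.log (Nv v) - Real.log (fv v A0) + k * Real.log (fv v ((2 : 𝓞 K) : K)) else 0 := by
    intro v _
    by_cases hv : v ∈ T2
    · rw [if_pos hv]
      have h1 : (if v ∉ S ∧ ∃ i, 0 < lam (fv v) (cz (b i)) (cz x) then Real.log (Nv v) else 0) ≤
          Real.log (Nv v) := by
        split_ifs
        · exact le_rfl
        · exact (log_Nv_pos v).le
      have h2 := lam_le_wt v hb (cz x) i0
      have h2v : (2 : 𝓞 K) ∈ v.asIdeal := by
        rw [← fv_lt_one_iff]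
        rw [hT2, Set.Finite.mem_toFinset, Function.mem_support] at hv
        refine lt_of_le_of_ne (fv_int_le_one v _) fun h => hv ?_
        rw [h, Real.log_one]
      have h3 : Real.log (fv v A0) - k * Real.log (fv v ((2 : 𝓞 K) : K)) ≤ lam (fv v) (cz (b i0)) (cz x) := by
        have e1 : fv v A0 ≤ ⨆ j, fv v (cz (b i0) j) := sup_le_of (fv v) (cz (b i0)) j0
        have e2 : fv v A0 ≤ ⨆ j, fv v (cz x j) := by
          refine le_trans (le_of_eq ?_) (sup_le_of (fv v) (cz x) j1)
          have : cz x j1 = A0 * ((z j1 : 𝓞 K) : K) := by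
            rw [hx]
            unfold cz xo
            rw [if_neg hj]
            exact map_mul (algebraMap (𝓞 K) K) _ _
          rw [this, map_mul, fv_eq_one_of_notMem v (hz1 v h2v), mul_one]
        have e3 : lin (cz (b i0)) (cz x) = A0 * ((2 : 𝓞 K) : K) ^ k * ((u : 𝓞 K) : K) := by
          rw [hx, lin_self]
          unfold cz
          rw [hz]
          have : ((2 ^ k * u : 𝓞 K) : K) = ((2 : 𝓞 K) : K) ^ k * ((u : 𝓞 K) : K) :=
            (map_mul (algebraMap (𝓞 K) K) _ _).trans (by rw [map_pow])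
          rw [this]
          ring
        have hA1 := (fv v).pos hA0'
        have h21 := (fv v).pos (two_ne K)
        have hlx := (fv v).pos (hl i0)
        have e4 : fv v (lin (cz (b i0)) (cz x)) ≤ fv v A0 * fv v ((2 : 𝓞 K) : K) ^ k := by
          rw [e3, map_mul, map_mul, map_pow]
          calc fv v A0 * fv v ((2 : 𝓞 K) : K) ^ k * fv v ((u : 𝓞 K) : K)
              ≤ fv v A0 * fv v ((2 : 𝓞 K) : K) ^ k * 1 :=
                mul_le_mul_of_nonneg_left (fv_int_le_one v u) (by positivity)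
            _ = _ := mul_one _
        unfold lam
        rw [Real.log_div (mul_pos (lt_of_lt_of_le hA1 e1) (lt_of_lt_of_le hA1 e2)).ne' hlx.ne']
        have e5 : Real.log (fv v A0) + Real.log (fv v A0) ≤
            Real.log ((⨆ j, fv v (cz (b i0) j)) * ⨆ j, fv v (cz x j)) := by
          rw [← Real.log_mul hA1.ne' hA1.ne']
          exact Real.log_le_log (by positivity) (mul_le_mul e1 e2 hA1.le (hA1.le.trans e1))
        have e6 := Real.log_le_log hlx e4
        rw [Real.log_mul hA1.ne' (by positivity), Real.log_pow] at e6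
        linarith
      linarith
    · rw [if_neg hv]
      split_ifs with h
      · obtain ⟨_, i, hi⟩ := h
        have := log_Nv_le_wt v hb hx0 hl hi
        linarith
      · have := wt_nonneg (fv v) (fun i => cz (b i)) (cz x)
        linarith
  have hsum := Finset.sum_le_sum hterm
  rw [Finset.sum_sub_distrib, ← hN, Finset.sum_ite_mem] at hsum
  have hint : (T ∪ T2) ∩ T2 = T2 := Finset.inter_eq_right.mpr Finset.subset_union_right
  rw [hint, Finset.sum_add_distrib, ← Finset.mul_sum, sum_log_two] at hsum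
  linarith

/-- passing to other coordinates -/
lemma transfer (S : Finset (HeightOneSpectrum (𝓞 K))) {a b : Fin r → Fin (n + 1) → K} {s t : K}
    (hs : s ≠ 0) (ht : t ≠ 0) (hb : ∀ i, b i = s • a i) {x x' : Fin (n + 1) → K} (hx : x' = t • x) :
    N1 S b x' = N1 S a x ∧ hW b x' = hW a x := by
  have hlam : ∀ (f : AbsoluteValue K ℝ) i, lam f (b i) x' = lam f (a i) x := fun f i =>
    lam_congr f hs ht (hb i) hx
  have hindep : ∀ I : Finset (Fin r), LinearIndependent K (fun i : I => b i) ↔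
      LinearIndependent K (fun i : I => a i) := by
    intro I
    have : (fun i : I => b i) = fun i : I => s • a i := funext fun i => hb i
    rw [this]
    exact indep_smul a hs I
  constructor
  · unfold N1
    refine finsum_congr fun v => ?_
    have : (∃ i, 0 < lam (fv v) (b i) x') ↔ ∃ i, 0 < lam (fv v) (a i) x :=
      exists_congr fun i => by rw [hlam]
    by_cases h : v ∉ S ∧ ∃ i, 0 < lam (fv v) (a i) x
    · rw [if_pos h, if_pos ⟨h.1, this.mpr h.2⟩]
    · rw [if_neg h, if_neg fun h' => h ⟨h'.1, this.mp h'.2⟩]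
  · unfold hW
    have : ∀ f : AbsoluteValue K ℝ, wt f b x' = wt f a x := fun f =>
      wt_congr f (fun i => hlam f i) hindep
    simp only [this]

open Pool.Agent.H57R3.VJ in
/-- heights of integral vectors -/
lemma height_int {x : Fin (n + 1) → 𝓞 K} (hx : cz x ≠ 0) {Y : ℝ}
    (h : ∀ (w : InfinitePlace K) j, w (cz x j) ≤ Y) : mulHeight (cz x) ≤ Y ^ Module.finrank ℚ K := by
  classical
  have hY : 0 ≤ Y := by
    obtain ⟨w⟩ := (inferInstance : Nonempty (InfinitePlace K))
    exact (apply_nonneg w _).trans (h w 0)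
  rw [NumberField.mulHeight_eq hx]
  have h1 : ∏ᶠ v : FinitePlace K, (⨆ i, v (cz x i)) ≤ 1 := by
    have hf : (Function.mulSupport fun v : FinitePlace K => (⨆ i, v (cz x i))).Finite := sv_fin hx
    have h2 : ∏ᶠ v : FinitePlace K, (⨆ i, v (cz x i)) = ∏ v ∈ hf.toFinset, (⨆ i, v (cz x i)) :=
      finprod_eq_prod_of_mulSupport_subset (fun v : FinitePlace K => (⨆ i, v (cz x i)))
        (s := hf.toFinset) (by rw [Set.Finite.coe_toFinset])
    rw [h2]
    refine Finset.prod_le_one (fun v _ => sv_nonneg v (cz x)) fun v _ => ciSup_le fun j => ?_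
    obtain ⟨u, rfl⟩ := (FinitePlace.equivHeightOneSpectrum (K := K)).symm.surjective v
    exact fv_int_le_one u (x j)
  have h3 : ∏ w : InfinitePlace K, (⨆ i, w (cz x i)) ^ w.mult ≤ Y ^ Module.finrank ℚ K := by
    rw [← InfinitePlace.sum_mult_eq (K := K), ← Finset.prod_pow_eq_pow_sum]
    refine Finset.prod_le_prod (fun w _ => pow_nonneg (Real.iSup_nonneg fun i => apply_nonneg w _) _)
      fun w _ => pow_le_pow_left₀ (Real.iSup_nonneg fun i => apply_nonneg w _) (ciSup_le fun j => h w j) _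
  have h4 : 0 ≤ ∏ᶠ v : FinitePlace K, (⨆ i, v (cz x i)) := finprod_nonneg fun v => sv_nonneg v (cz x)
  calc (∏ w : InfinitePlace K, (⨆ i, w (cz x i)) ^ w.mult) * ∏ᶠ v : FinitePlace K, (⨆ i, v (cz x i))
      ≤ Y ^ Module.finrank ℚ K * 1 := mul_le_mul h3 h1 h4 (by positivity)
    _ = _ := mul_one _

/-- size of the adapted coordinates -/
lemma xo_size (α : Fin (n + 1) → 𝓞 K) (j0 : Fin (n + 1)) :
    ∃ C : ℝ, 1 ≤ C ∧ ∀ (X : ℝ), 0 ≤ X → ∀ z : Fin (n + 1) → 𝓞 K,
      (∀ (w : InfinitePlace K) j, w (cz z j) ≤ X) → ∀ (w : InfinitePlace K) j,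
        w (cz (xo α j0 z) j) ≤ C * X := by
  classical
  have h0 : 0 ≤ ∑ w : InfinitePlace K, ∑ j, w (cz α j) :=
    Finset.sum_nonneg fun w _ => Finset.sum_nonneg fun j _ => apply_nonneg w _
  refine ⟨1 + ∑ w : InfinitePlace K, ∑ j, w (cz α j), by linarith, ?_⟩
  intro X hX z hz w j
  have hle : ∑ j, w (cz α j) ≤ ∑ w : InfinitePlace K, ∑ j, w (cz α j) :=
    Finset.single_le_sum (f := fun w : InfinitePlace K => ∑ j, w (cz α j))
      (fun w _ => Finset.sum_nonneg fun j _ => apply_nonneg w _) (Finset.mem_univ w)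
  by_cases hj : j = j0
  · have h1 : cz (xo α j0 z) j = cz z j0 - ∑ j' ∈ univ.erase j0, cz α j' * cz z j' := by
      rw [hj]
      unfold cz xo
      rw [if_pos rfl]
      refine (map_sub (algebraMap (𝓞 K) K) _ _).trans ?_
      congr 1
      refine (map_sum (algebraMap (𝓞 K) K) _ _).trans ?_
      exact Finset.sum_congr rfl fun j' _ => map_mul (algebraMap (𝓞 K) K) _ _
    have h2 : w (cz (xo α j0 z) j) ≤ w (cz z j0) + w (∑ j' ∈ univ.erase j0, cz α j' * cz z j') := by
      rw [h1]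
      calc w (cz z j0 - ∑ j' ∈ univ.erase j0, cz α j' * cz z j')
          = w (cz z j0 + -∑ j' ∈ univ.erase j0, cz α j' * cz z j') := by rw [sub_eq_add_neg]
        _ ≤ w (cz z j0) + w (-∑ j' ∈ univ.erase j0, cz α j' * cz z j') := w.1.add_le _ _
        _ = _ := by
            congr 1
            exact w.1.map_neg _
    have h3 : w (∑ j' ∈ univ.erase j0, cz α j' * cz z j') ≤ ∑ j' ∈ univ.erase j0, w (cz α j') * X := by
      refine (w.1.sum_le _ _).trans (Finset.sum_le_sum fun j' _ => ?_)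
      have : w (cz α j' * cz z j') = w (cz α j') * w (cz z j') := map_mul w _ _
      exact this.le.trans (mul_le_mul_of_nonneg_left (hz w j') (apply_nonneg w _))
    have h4 : ∑ j' ∈ univ.erase j0, w (cz α j') * X ≤ (∑ j', w (cz α j')) * X := by
      rw [Finset.sum_mul]
      exact Finset.sum_le_sum_of_subset_of_nonneg (Finset.erase_subset _ _)
        fun j' _ _ => mul_nonneg (apply_nonneg w _) hX
    have h5 := mul_le_mul_of_nonneg_right hle hX
    have h6 := hz w j0
    linarith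
  · have h1 : cz (xo α j0 z) j = cz α j0 * cz z j := by
      unfold cz xo
      rw [if_neg hj]
      exact map_mul (algebraMap (𝓞 K) K) _ _
    have h2 : w (cz α j0) ≤ ∑ j, w (cz α j) :=
      Finset.single_le_sum (f := fun j => w (cz α j)) (fun j _ => apply_nonneg w _) (Finset.mem_univ j0)
    rw [h1, map_mul]
    exact mul_le_mul (by linarith) (hz w j) (apply_nonneg w _) (by linarith)

end Pool.Agent.W232.VA
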