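import Pool.Agent.W232.VA.U

set_option autoImplicit false
set_option linter.unusedSectionVars false

/-!
Arrangements, lower bound, part D: the number of good coefficient vectors.
-/

namespace Pool.Agent.W232.VA

open NumberField IsDedekindDomain Finset Pool.Agent.H691R3 Height LinearAlgebra.Projectivization

variable {K : Type*} [Field K] [NumberField K] {n r : ℕ}

variable (K) in
lemma sum_tail {ε : ℝ} (hε : 0 < ε) : ∃ F0 : Finset (HeightOneSpectrum (𝓞 K)),
    ∀ T : Finset (HeightOneSpectrum (𝓞 K)), Disjoint T F0 → ∑ v ∈ T, (1 / Nv v) ^ 2 < ε := by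
  have h := nm_summable (K := K) (x := 2) (by norm_num)
  rw [summable_iff_vanishing] at h
  obtain ⟨F0, hF0⟩ := h (Set.Iio ε) (Iio_mem_nhds hε)
  refine ⟨F0, fun T hT => ?_⟩
  have h1 := hF0 T hT
  rw [Set.mem_Iio] at h1
  refine lt_of_le_of_lt (le_of_eq (Finset.sum_congr rfl fun v _ => ?_)) h1
  have hN : (0 : ℝ) < Nv v := by linarith [two_le_Nv v]
  show (1 / Nv v) ^ 2 = (Nv v) ^ (-(2 : ℝ))
  rw [Real.rpow_neg hN.le, one_div, inv_pow]
  norm_num

variable (K) in
/-- most of the vectors of the box have no common prime factor and avoid finitely many hyperplanes -/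
theorem good_card (hn : 1 ≤ n) (r : ℕ) : ∃ Q : ℕ, 2 ∣ Q ∧ 0 < Q ∧
    ∀ (j0 j1 : Fin (n + 1)), j1 ≠ j0 → ∀ (N0 : 𝓞 K), (N0 - 1) ∈ Ideal.span {(Q : 𝓞 K)} →
    ∀ (k M0 M : ℕ), 4 * r + 1 ≤ M0 → M0 ≤ M →
    ∀ (b : Fin r → Fin (n + 1) → K), (∀ i, b i ≠ 0) →
    ∃ G : Finset (Fin (n + 1) → BI K → ℕ), G ⊆ bx (fun j => if j = j0 then M0 else M) ∧
      ((bx (K := K) (fun j => if j = j0 then M0 else M)).card : ℝ) / 2 ≤ G.card ∧
      ∀ c ∈ G, (∀ i, lin (b i) (cz (zz (fun j => if j = j1 then N0 else 0)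
          (fun j => if j = j0 then 2 ^ k else if j = j1 then (Q : 𝓞 K) else 1) c)) ≠ 0) ∧
        ∀ v : HeightOneSpectrum (𝓞 K), ∃ j, zz (fun j => if j = j1 then N0 else 0)
          (fun j => if j = j0 then 2 ^ k else if j = j1 then (Q : 𝓞 K) else 1) c j ∉ v.asIdeal := by
  classical
  obtain ⟨Ω, hΩ1, hΩ⟩ := comb_size K
  obtain ⟨Cf, hCf, hfac⟩ := fac_bound (K := K) (2 * Ω) (by linarith)
  set d := Module.finrank ℚ K with hd
  have hd1 : 1 ≤ d := Module.finrank_pos
  set Cg : ℝ := Cf + Ω ^ d with hCg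
  have hCg0 : 0 < Cg := by positivity
  obtain ⟨F0, hF0⟩ := sum_tail K (ε := 1 / (4 * Cg ^ (n + 1))) (by positivity)
  refine ⟨2 * ∏ v ∈ F0, Ideal.absNorm v.asIdeal, Dvd.intro _ rfl, ?_, ?_⟩
  · refine Nat.mul_pos (by norm_num) (Finset.prod_pos fun v _ => ?_)
    exact Nat.pos_of_ne_zero (nm_ne_zero v)
  set Q : ℕ := 2 * ∏ v ∈ F0, Ideal.absNorm v.asIdeal with hQ
  have hQ0 : Q ≠ 0 := by
    have : 0 < Q := Nat.mul_pos (by norm_num) (Finset.prod_pos fun v _ => Nat.pos_of_ne_zero (nm_ne_zero v))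
    omega
  intro j0 j1 hj N0 hN0 k M0 M hM0 hM b hb
  set Mf : Fin (n + 1) → ℕ := fun j => if j = j0 then M0 else M with hMf
  set p : Fin (n + 1) → 𝓞 K := fun j => if j = j1 then N0 else 0 with hp
  set q : Fin (n + 1) → 𝓞 K := fun j => if j = j0 then 2 ^ k else if j = j1 then (Q : 𝓞 K) else 1 with hq
  have hM0pos : 0 < M0 := by omega
  have hMpos : 0 < M := by omega
  have hMfle : ∀ j, M0 ≤ Mf j := by
    intro j
    rw [hMf]
    simp only
    split_ifs
    · exact le_rfl
    · exact hM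
  have hMfle2 : ∀ j, Mf j ≤ M := by
    intro j
    rw [hMf]
    simp only
    split_ifs
    · exact hM
    · exact le_rfl
  have hQne : (Q : 𝓞 K) ≠ 0 := by exact_mod_cast hQ0
  have hqne : ∀ j, q j ≠ 0 := by
    intro j
    rw [hq]
    simp only
    split_ifs
    · exact pow_ne_zero _ two_ne_zero
    · exact hQne
    · exact one_ne_zero
  have hv1 : ∀ (v : HeightOneSpectrum (𝓞 K)) (u : 𝓞 K), N0 + Q * u ∈ v.asIdeal → (Q : 𝓞 K) ∉ v.asIdeal := by
    intro v u hu hQv
    have h1 : N0 - 1 ∈ v.asIdeal := by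
      have : Ideal.span {(Q : 𝓞 K)} ≤ v.asIdeal := by
        rw [Ideal.span_singleton_le_iff_mem]; exact hQv
      exact this hN0
    have h2 : (1 : 𝓞 K) ∈ v.asIdeal := by
      have h3 : (1 : 𝓞 K) = (N0 + Q * u) - (N0 - 1) - Q * u := by ring
      rw [h3]
      exact Ideal.sub_mem _ (Ideal.sub_mem _ hu h1) (Ideal.mul_mem_right _ _ hQv)
    exact v.isPrime.ne_top ((Ideal.eq_top_iff_one _).mpr h2)
  have hF0Q : ∀ v ∈ F0, (Q : 𝓞 K) ∈ v.asIdeal := by
    intro v hv
    have h1 : (Ideal.absNorm v.asIdeal) ∣ Q := by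
      rw [hQ]
      exact Dvd.dvd.mul_left (Finset.dvd_prod_of_mem _ hv) 2
    obtain ⟨t, ht⟩ := h1
    rw [ht]
    push_cast
    exact Ideal.mul_mem_right _ _ (Ideal.absNorm_mem v.asIdeal)
  have h2Q : ∀ v : HeightOneSpectrum (𝓞 K), (2 : 𝓞 K) ∈ v.asIdeal → (Q : 𝓞 K) ∈ v.asIdeal := by
    intro v hv
    rw [hQ]
    push_cast
    exact Ideal.mul_mem_right _ _ hv
  set box : Finset (Fin (n + 1) → BI K → ℕ) := bx Mf with hbox
  -- the bad sets
  set Bd : Fin r → Finset (Fin (n + 1) → BI K → ℕ) := fun i =>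
    box.filter fun c => lin (b i) (cz (zz p q c)) = 0 with hBd
  set Gb : Finset (Fin (n + 1) → BI K → ℕ) :=
    box.filter fun c => ∃ v : HeightOneSpectrum (𝓞 K), ∀ j, zz p q c j ∈ v.asIdeal with hGb
  have hbd : ∀ i, 4 * r * (Bd i).card ≤ box.card := by
    intro i
    obtain ⟨j, hj⟩ := form_bad Mf p hqne (b i) (hb i)
    have h1 : 4 * r ≤ Mf j ^ d := by
      calc 4 * r ≤ M0 := by omega
        _ ≤ Mf j := hMfle j
        _ ≤ Mf j ^ d := Nat.le_self_pow (by omega) _
    calc 4 * r * (Bd i).card = (Bd i).card * (4 * r) := mul_comm _ _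
      _ ≤ (Bd i).card * Mf j ^ d := Nat.mul_le_mul_left _ h1
      _ ≤ box.card := hj
  have hcomb : ∀ (w : InfinitePlace K) (M' : ℕ) (u : BI K → ℕ), u ∈ bx1 M' →
      w ((comb u : 𝓞 K) : K) ≤ Ω * M' := by
    intro w M' u hu
    exact hΩ w u M' fun i => by exact_mod_cast (mem_bx1.mp hu i).2
  have hcomb0 : ∀ (M' : ℕ) (u : BI K → ℕ), u ∈ bx1 M' → comb u ≠ 0 := fun M' u hu =>
    comb_ne_zero fun i => (mem_bx1.mp hu i).1
  -- primes dividing all the coordinates
  set L : ℝ := (d : ℝ) * Real.log (Ω * M0) with hL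
  have hM0r : (0 : ℝ) < M0 := by exact_mod_cast hM0pos
  have hΩM0 : 0 < Ω * M0 := by positivity
  set T : Finset (HeightOneSpectrum (𝓞 K)) :=
    (fin_places L).toFinset.filter fun v => (Q : 𝓞 K) ∉ v.asIdeal with hT
  have hdiv : ∀ c ∈ box, ∀ v : HeightOneSpectrum (𝓞 K), (∀ j, zz p q c j ∈ v.asIdeal) → v ∈ T := by
    intro c hc v hv
    have hQv : (Q : 𝓞 K) ∉ v.asIdeal := by
      have h1 := hv j1
      unfold zz at h1
      rw [hp, hq] at h1
      simp only [if_true, if_neg hj] at h1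
      exact hv1 v _ h1
    have h2v : (2 : 𝓞 K) ∉ v.asIdeal := fun h => hQv (h2Q v h)
    rw [hT, Finset.mem_filter, Set.Finite.mem_toFinset]
    refine ⟨?_, hQv⟩
    have h1 := hv j0
    unfold zz at h1
    rw [hp, hq] at h1
    simp only [if_neg (Ne.symm hj), if_true, zero_add] at h1
    have h3 : comb (c j0) ∈ v.asIdeal := by
      rcases v.isPrime.mem_or_mem h1 with h | h
      · exact absurd (v.isPrime.mem_of_pow_mem _ h) h2v
      · exact h
    have hcj : c j0 ∈ bx1 M0 := by
      rw [hbox] at hc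
      unfold bx at hc
      rw [Fintype.mem_piFinset] at hc
      have := hc j0
      rw [hMf] at this
      simpa using this
    have h4 := norm_ineq (hcomb0 _ _ hcj) {v} (fun _ => 1) (by
      intro u hu
      rw [Finset.mem_singleton.mp hu, pow_one]
      exact h3)
    simp only [Finset.sum_singleton, Nat.cast_one, one_mul] at h4
    show Real.log (Nv v) ≤ L
    refine h4.trans ?_
    rw [hL, hd, ← sum_mult_real, Finset.sum_mul]
    refine Finset.sum_le_sum fun w _ => mul_le_mul_of_nonneg_left ?_ (Nat.cast_nonneg _)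
    exact Real.log_le_log (InfinitePlace.pos_iff.mpr (RingOfIntegers.coe_ne_zero_iff.mpr (hcomb0 _ _ hcj)))
      (hcomb w _ _ hcj)
  have hfacj : ∀ v ∈ T, ∀ (j : Fin (n + 1)) (D : Finset (BI K → ℕ)), D ⊆ bx1 (Mf j) →
      (∀ u ∈ D, p j + q j * comb u ∈ v.asIdeal) → (D.card : ℝ) ≤ Cg * (Mf j) ^ d / Nv v := by
    intro v hvT j D hD hDv
    have hN : (0 : ℝ) < Nv v := by linarith [two_le_Nv v]
    rw [hT, Finset.mem_filter, Set.Finite.mem_toFinset] at hvT
    have hlogv : Real.log (Nv v) ≤ L := hvT.1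
    have hQv := hvT.2
    have h2v : (2 : 𝓞 K) ∉ v.asIdeal := fun h => hQv (h2Q v h)
    have hMj : (0 : ℝ) < Mf j := by
      have := hMfle j
      exact_mod_cast lt_of_lt_of_le hM0pos this
    have hmono : Cf * (Mf j : ℝ) ^ d / Nv v ≤ Cg * (Mf j) ^ d / Nv v := by
      have : Cf ≤ Cg := by
        rw [hCg]
        have : 0 ≤ Ω ^ d := by positivity
        linarith
      gcongr
    have hcase : (∀ u ∈ D, comb u ∈ v.asIdeal) → (D.card : ℝ) ≤ Cg * (Mf j) ^ d / Nv v := by
      intro hD2
      refine (hfac (Mf j) hMj 0 1 one_ne_zero D ?_ ?_ v ?_).trans hmono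
      · intro u hu
        rw [zero_add, one_mul]
        exact hcomb0 _ _ (hD hu)
      · intro u hu w
        rw [zero_add, one_mul]
        have := hcomb w _ _ (hD hu)
        have h3 : 0 ≤ Ω * (Mf j : ℝ) := by positivity
        linarith
      · intro u hu
        rw [zero_add, one_mul]
        exact hD2 u hu
    by_cases hjj : j = j0
    · refine hcase fun u hu => ?_
      have h1 := hDv u hu
      rw [hp, hq, hjj] at h1
      simp only [if_neg (Ne.symm hj), if_true, zero_add] at h1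
      rcases v.isPrime.mem_or_mem h1 with h | h
      · exact absurd (v.isPrime.mem_of_pow_mem _ h) h2v
      · exact h
    · by_cases hj1 : j = j1
      · have hDv' : ∀ u ∈ D, N0 + (Q : 𝓞 K) * comb u ∈ v.asIdeal := by
          intro u hu
          have h1 := hDv u hu
          rw [hp, hq, hj1] at h1
          simp only [if_neg hj, if_true] at h1
          exact h1
        rcases D.eq_empty_or_nonempty with hDe | ⟨u0, hu0⟩
        · rw [hDe, Finset.card_empty, Nat.cast_zero]
          positivity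
        have hdiff : ∀ u ∈ D, comb u - comb u0 ∈ v.asIdeal := by
          intro u hu
          have h1 := Ideal.sub_mem _ (hDv' u hu) (hDv' u0 hu0)
          have h2 : N0 + (Q : 𝓞 K) * comb u - (N0 + (Q : 𝓞 K) * comb u0) = (Q : 𝓞 K) * (comb u - comb u0) := by
            ring
          rw [h2] at h1
          rcases v.isPrime.mem_or_mem h1 with h | h
          · exact absurd h hQv
          · exact h
        have h3 := hfac (Mf j) hMj (-comb u0) 1 one_ne_zero (D.erase u0) (by
            intro u hu h0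
            rw [one_mul, neg_add_eq_zero] at h0
            exact Finset.ne_of_mem_erase hu (comb_inj h0).symm) (by
            intro u hu w
            have e1 : ((-comb u0 + 1 * comb u : 𝓞 K) : K) = ((comb u : 𝓞 K) : K) - ((comb u0 : 𝓞 K) : K) := by
              rw [one_mul, neg_add_eq_sub]
              exact map_sub (algebraMap (𝓞 K) K) _ _
            rw [e1]
            have e2 := hcomb w _ _ (hD (Finset.mem_of_mem_erase hu))
            have e3 := hcomb w _ _ (hD hu0)
            have e4 : w (((comb u : 𝓞 K) : K) - ((comb u0 : 𝓞 K) : K)) ≤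
                w ((comb u : 𝓞 K) : K) + w ((comb u0 : 𝓞 K) : K) := by
              calc w (((comb u : 𝓞 K) : K) - ((comb u0 : 𝓞 K) : K))
                  = w (((comb u : 𝓞 K) : K) + -((comb u0 : 𝓞 K) : K)) := by rw [sub_eq_add_neg]
                _ ≤ w ((comb u : 𝓞 K) : K) + w (-((comb u0 : 𝓞 K) : K)) := w.1.add_le _ _
                _ = _ := by
                    congr 1
                    exact w.1.map_neg _
            linarith) v (by
            intro u hu
            rw [one_mul, neg_add_eq_sub]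
            exact hdiff u (Finset.mem_of_mem_erase hu))
        have h4 : (D.card : ℝ) = ((D.erase u0).card : ℝ) + 1 := by
          have := Finset.card_erase_add_one hu0
          exact_mod_cast this.symm
        have h5 : (1 : ℝ) ≤ Ω ^ d * (Mf j : ℝ) ^ d / Nv v := by
          rw [le_div_iff₀ hN, one_mul, ← mul_pow]
          have h6 : Nv v ≤ Real.exp L := (Real.log_le_iff_le_exp hN).1 hlogv
          have h7 : Real.exp L = (Ω * M0) ^ d := by
            rw [hL, mul_comm, Real.exp_mul, Real.exp_log hΩM0, Real.rpow_natCast]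
          rw [h7] at h6
          refine h6.trans (pow_le_pow_left₀ hΩM0.le ?_ _)
          have h8 : (M0 : ℝ) ≤ Mf j := by exact_mod_cast hMfle j
          gcongr
        rw [h4, hCg]
        calc ((D.erase u0).card : ℝ) + 1 ≤ Cf * (Mf j : ℝ) ^ d / Nv v + Ω ^ d * (Mf j : ℝ) ^ d / Nv v :=
              add_le_add h3 h5
          _ = _ := by ring
      · refine hcase fun u hu => ?_
        have h1 := hDv u hu
        rw [hp, hq] at h1
        simp only [if_neg hjj, if_neg hj1, zero_add, one_mul] at h1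
        exact h1
  have hGcard : ((Gb.card : ℕ) : ℝ) ≤ box.card / 4 := by
    have hcov : Gb ⊆ T.biUnion fun v => box.filter fun c => ∀ j, zz p q c j ∈ v.asIdeal := by
      intro c hc
      obtain ⟨h1, v, hv⟩ := Finset.mem_filter.mp hc
      rw [Finset.mem_biUnion]
      exact ⟨v, hdiv c h1 v hv, Finset.mem_filter.mpr ⟨h1, hv⟩⟩
    have h1 : ((Gb.card : ℕ) : ℝ) ≤ ∑ v ∈ T, ((box.filter fun c => ∀ j, zz p q c j ∈ v.asIdeal).card : ℝ) := by
      exact_mod_cast (Finset.card_le_card hcov).trans Finset.card_biUnion_le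
    have h2 : ∀ v ∈ T, ((box.filter fun c => ∀ j, zz p q c j ∈ v.asIdeal).card : ℝ) ≤
        (Cg ^ (n + 1) * box.card) * (1 / Nv v) ^ 2 := by
      intro v hv
      have hN : (2 : ℝ) ≤ Nv v := two_le_Nv v
      have hN0 : (0 : ℝ) < Nv v := by linarith
      have h3 := gcd_bad Mf p q v (hfacj v hv) (box.filter fun c => ∀ j, zz p q c j ∈ v.asIdeal)
        (Finset.filter_subset _ _) (fun c hc => (Finset.mem_filter.mp hc).2)
      refine h3.trans ?_
      have h4 : (Cg / Nv v) ^ (n + 1) ≤ Cg ^ (n + 1) * (1 / Nv v) ^ 2 := by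
        rw [div_eq_mul_one_div, mul_pow]
        refine mul_le_mul_of_nonneg_left ?_ (by positivity)
        refine pow_le_pow_of_le_one (by positivity) ?_ (by omega)
        rw [div_le_one hN0]; linarith
      calc (Cg / Nv v) ^ (n + 1) * (box.card : ℝ) ≤ Cg ^ (n + 1) * (1 / Nv v) ^ 2 * (box.card : ℝ) :=
            mul_le_mul_of_nonneg_right h4 (Nat.cast_nonneg _)
        _ = _ := by ring
    have h5 : ∑ v ∈ T, (1 / Nv v) ^ 2 < 1 / (4 * Cg ^ (n + 1)) := by
      refine hF0 T ?_
      rw [Finset.disjoint_left]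
      intro v hv hvF
      rw [hT, Finset.mem_filter] at hv
      exact hv.2 (hF0Q v hvF)
    refine h1.trans ((Finset.sum_le_sum h2).trans ?_)
    rw [← Finset.mul_sum]
    calc Cg ^ (n + 1) * (box.card : ℝ) * ∑ v ∈ T, (1 / Nv v) ^ 2
        ≤ Cg ^ (n + 1) * (box.card : ℝ) * (1 / (4 * Cg ^ (n + 1))) :=
          mul_le_mul_of_nonneg_left h5.le (by positivity)
      _ = box.card / 4 := by field_simp
  -- the good set
  refine ⟨box \ (univ.biUnion Bd ∪ Gb), Finset.sdiff_subset, ?_, ?_⟩
  · have h1 : ((univ.biUnion Bd).card : ℝ) ≤ box.card / 4 := by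
      rcases Nat.eq_zero_or_pos r with hr0 | hr0
      · subst hr0
        simp only [Finset.univ_eq_empty, Finset.biUnion_empty, Finset.card_empty, Nat.cast_zero]
        positivity
      have hr : (0 : ℝ) < r := by exact_mod_cast hr0
      have h2 : ((univ.biUnion Bd).card : ℝ) ≤ ∑ i, ((Bd i).card : ℝ) := by
        exact_mod_cast Finset.card_biUnion_le
      have h3 : ∀ i ∈ (univ : Finset (Fin r)), ((Bd i).card : ℝ) ≤ box.card / (4 * r) := by
        intro i _
        rw [le_div_iff₀ (by positivity)]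
        have := hbd i
        have h4 : ((4 * r * (Bd i).card : ℕ) : ℝ) ≤ box.card := by exact_mod_cast this
        push_cast at h4
        linarith
      refine h2.trans ((Finset.sum_le_sum h3).trans ?_)
      rw [Finset.sum_const, Finset.card_univ, Fintype.card_fin, nsmul_eq_mul]
      refine le_of_eq ?_
      field_simp
    have h2 : box.card ≤ (box \ (univ.biUnion Bd ∪ Gb)).card + (univ.biUnion Bd ∪ Gb).card :=
      Finset.card_le_card_sdiff_add_card
    have h3 : (univ.biUnion Bd ∪ Gb).card ≤ (univ.biUnion Bd).card + Gb.card := Finset.card_union_le _ _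
    have h4 : (box.card : ℝ) ≤ (box \ (univ.biUnion Bd ∪ Gb)).card + ((univ.biUnion Bd).card + Gb.card) := by
      exact_mod_cast h2.trans (Nat.add_le_add_left h3 _)
    linarith
  · intro c hc
    rw [Finset.mem_sdiff, Finset.mem_union, not_or] at hc
    refine ⟨fun i hi => ?_, fun v => ?_⟩
    · apply hc.2.1
      rw [Finset.mem_biUnion]
      exact ⟨i, Finset.mem_univ _, Finset.mem_filter.mpr ⟨hc.1, hi⟩⟩
    · by_contra hcon
      apply hc.2.2
      rw [hGb, Finset.mem_filter]
      refine ⟨hc.1, v, fun j => ?_⟩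
      by_contra hj'
      exact hcon ⟨j, hj'⟩

end Pool.Agent.W232.VA
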